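import Mathlib.Data.Nat.Bitwise
import Mathlib.Data.Nat.Log

/-! Certificate checker (definitions only). Everything is written with raw recursors and raw
natural number primitives so that the kernel evaluates it quickly. -/

set_option autoImplicit false

namespace Pool.Agent.MP_1f1ca1_co

/-- evaluate `x` before continuing -/
noncomputable def force (x : Nat) (f : Nat → Bool) : Bool :=
  Nat.rec (motive := fun _ => Bool) (f 0) (fun n _ => f (Nat.succ n)) x

noncomputable def cnd {α : Type} (b : Bool) (x y : α) : α := Bool.rec (motive := fun _ => α) y x b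
noncomputable def bor (a b : Bool) : Bool := Bool.rec (motive := fun _ => Bool) b true a
noncomputable def band (a b : Bool) : Bool := Bool.rec (motive := fun _ => Bool) false b a
noncomputable def bnot (a : Bool) : Bool := Bool.rec (motive := fun _ => Bool) true false a

def bit (m x : Nat) : Bool := Nat.beq (Nat.land (Nat.shiftRight m x) 1) 1
def one (x : Nat) : Nat := Nat.shiftLeft 1 x
def dig (s x : Nat) : Nat := Nat.land (Nat.shiftRight s (Nat.mul 4 x)) 15
def fld (s x : Nat) : Nat := Nat.land (Nat.shiftRight s (Nat.mul 16 x)) 65535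
def gcov (C a b : Nat) : Nat := Nat.land (Nat.shiftRight C (Nat.add (Nat.mul 256 a) (Nat.mul 16 b))) 65535
def tab (T key : Nat) : Nat := Nat.land (Nat.shiftRight T (Nat.mul 11 key)) 2047
def sub (a m : Nat) : Bool := Nat.beq (Nat.land a m) a
noncomputable def mx2 (a b : Nat) : Nat := cnd (Nat.ble a b) b a
noncomputable def mn2 (a b : Nat) : Nat := cnd (Nat.ble a b) a b

/-- weight `60/s` of a block of size `s` -/
noncomputable def wt (s : Nat) : Nat :=
  cnd (Nat.beq s 3) 20 (cnd (Nat.beq s 4) 15 (cnd (Nat.beq s 5) 12 10))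
/-- key increment `128 * C(s-1,2) + 4 - s` of a block of size `s` -/
noncomputable def dl (s : Nat) : Nat :=
  cnd (Nat.beq s 3) 129 (cnd (Nat.beq s 4) 384 (cnd (Nat.beq s 5) 767 1278))

/-- per point data: key and known weight -/
inductive FL : Type
  | nil : FL
  | cons (k w : Nat) (r : FL) : FL

/-- lower bound for one point -/
def lb1 (T off k w : Nat) : Nat := Nat.sub (Nat.add w (tab T k)) off

noncomputable def sumT (T off w0 d w : Nat) (f : FL) : Nat → Nat :=
  FL.rec (motive := fun _ => Nat → Nat) (fun _ => 0)
    (fun k v _ ih m =>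
      Nat.add (mx2 w0 (cnd (Nat.beq (Nat.land m 1) 1) (lb1 T off (Nat.add k d) (Nat.add v w)) (lb1 T off k v)))
        (ih (Nat.shiftRight m 1))) f

/-- is the total lower bound, after adding block `m` with increments `d`, `w`, above `lim`? -/
noncomputable def ovr (T0 T off wlow lim d w m : Nat) (f : FL) : Bool :=
  FL.rec (motive := fun _ => Bool) false
    (fun k v r _ =>
      force (mx2 wlow (cnd (Nat.beq (Nat.land m 1) 1) (lb1 T0 off (Nat.add k d) (Nat.add v w)) (lb1 T0 off k v)))
        fun w0 => Nat.blt lim (Nat.add w0 (sumT T off w0 d w r (Nat.shiftRight m 1)))) f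

/-- the first point's lower bound -/
noncomputable def head0 (T0 off wlow : Nat) (f : FL) : Nat :=
  FL.rec (motive := fun _ => Nat) 0 (fun k v _ _ => mx2 wlow (lb1 T0 off k v)) f

noncomputable def upd (d w : Nat) (f : FL) : Nat → (FL → Bool) → Bool :=
  FL.rec (motive := fun _ => Nat → (FL → Bool) → Bool) (fun _ c => c FL.nil)
    (fun k v _ ih m c =>
      cnd (Nat.beq (Nat.land m 1) 1)
        (force (Nat.add k d) fun k' => force (Nat.add v w) fun v' =>
          ih (Nat.shiftRight m 1) fun r' => c (FL.cons k' v' r'))
        (ih (Nat.shiftRight m 1) fun r' => c (FL.cons k v r'))) f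

noncomputable def orRow (m st : Nat) (p : List Nat) : Nat :=
  List.rec (motive := fun _ => Nat) 0 (fun b _ ih => Nat.lor (Nat.shiftLeft m (Nat.mul st b)) ih) p

noncomputable def covOr (C z : Nat) (p : List Nat) : Nat :=
  List.rec (motive := fun _ => Nat) 0 (fun t _ ih => Nat.lor (gcov C z t) ih) p

/-- state of the search -/
structure St where
  bl : List Nat
  kn : Nat
  cov : Nat
  fl : FL
  mx : Nat
  wlow : Nat
  qf : Bool
  ln : Nat

/-- add the block with mask `m`, point list `p` and size `s` -/
noncomputable def addB (st : St) (p : List Nat) (m s : Nat) (c : St → Bool) : Bool :=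
  force (Nat.lor st.kn (one m)) fun kn' =>
  force (orRow m 16 p) fun row =>
  force (Nat.lor st.cov (orRow row 256 p)) fun cov' =>
  upd (dl s) (wt s) st.fl m fun fl' =>
  c ⟨m :: st.bl, kn', cov', fl', st.mx, st.wlow, st.qf, st.ln⟩

/-- all extensions of the partial block `p` by compatible candidate points -/
noncomputable def ext (C mxs : Nat) (K : List Nat → Nat → Nat → Bool) (fuel : Nat) :
    List Nat → Nat → Nat → Nat → Bool :=
  Nat.rec (motive := fun _ => List Nat → Nat → Nat → Nat → Bool) (fun p m s _ => K p m s)
    (fun _ ih p m s cand =>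
      cnd (bor (Nat.beq cand 0) (Nat.beq s mxs)) (K p m s)
        (force (Nat.log2 cand) fun z =>
         force (Nat.xor cand (one z)) fun c' =>
           band (force (Nat.lor m (one z)) fun m' =>
                 force (Nat.xor c' (Nat.land c' (covOr C z p))) fun c'' =>
                 ih (z :: p) m' (Nat.succ s) c'')
                (ih p m s c'))) fuel

/-- the list of set bits -/
noncomputable def bits (fuel : Nat) : Nat → List Nat :=
  Nat.rec (motive := fun _ => Nat → List Nat) (fun _ => [])
    (fun _ ih m => cnd (Nat.beq m 0) [] (Nat.log2 m :: ih (Nat.xor m (one (Nat.log2 m))))) fuel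

noncomputable def len (p : List Nat) : Nat :=
  List.rec (motive := fun _ => Nat) 0 (fun _ _ ih => Nat.succ ih) p

/-- image of a mask under the digit map `s` -/
noncomputable def pm (s : Nat) (fuel : Nat) : Nat → Nat :=
  Nat.rec (motive := fun _ => Nat → Nat) (fun _ => 0)
    (fun _ ih m => cnd (Nat.beq m 0) 0
      (Nat.lor (one (dig s (Nat.log2 m))) (ih (Nat.xor m (one (Nat.log2 m)))))) fuel

noncomputable def knOf (s : Nat) (l : List Nat) : Nat :=
  List.rec (motive := fun _ => Nat) 0 (fun m _ ih => Nat.lor (one (pm s 16 m)) ih) l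

/-- header of a stored state -/
structure Hd where
  l : List Nat
  mx : Nat
  wlow : Nat

/-- binary tree used as an array -/
inductive BT (α : Type) : Type
  | leaf (a : α) : BT α
  | node (l r : BT α) : BT α

noncomputable def BT.get {α : Type} (t : BT α) : Nat → α :=
  BT.rec (motive := fun _ => Nat → α) (fun a _ => a)
    (fun _ _ l r i => cnd (Nat.beq (Nat.land i 1) 0) (l (Nat.shiftRight i 1)) (r (Nat.shiftRight i 1))) t

/-- a forbidden planar pattern: number of points and its lines -/
structure Pat where
  k : Nat
  ls : List Nat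

structure Par where
  n : Nat
  full : Nat
  lim : Nat
  off : Nat
  T3 : Nat
  T4 : Nat
  T5 : Nat
  kt : Nat
  hd : BT Hd
  pl : BT Pat

noncomputable def Par.T (P : Par) (mx : Nat) : Nat :=
  cnd (Nat.ble 5 mx) P.T5 (cnd (Nat.beq mx 4) P.T4 P.T3)

inductive C : Type
  | nil : C
  | cons (m : Nat) (c r : C) : C
  | node (a b c : Nat) (k : C) : C
  | big (k r : C) : C
  | ref (j s : Nat) : C
  | miq (h ms : Nat) : C
  | pat (i e ms : Nat) : C
  | qs (k : C) : C
  | gl (k : C) : C
  | q7 (h ms : Nat) : C

def or4 (a b c d : Nat) : Nat := Nat.lor (Nat.lor (one a) (one b)) (Nat.lor (one c) (one d))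

noncomputable def face (kn m a b c d : Nat) : Bool := band (bit kn m) (sub (or4 a b c d) m)
noncomputable def ne (a b : Nat) : Bool := bnot (Nat.beq a b)

noncomputable def miqOK (n kn h ms : Nat) : Bool :=
  force (dig h 0) fun a1 => force (dig h 1) fun a2 => force (dig h 2) fun a3 => force (dig h 3) fun a4 =>
  force (dig h 4) fun b1 => force (dig h 5) fun b2 => force (dig h 6) fun b3 => force (dig h 7) fun b4 =>
  band (face kn (fld ms 0) a1 a2 a3 a4) <| band (face kn (fld ms 1) a1 a2 b2 b1) <|
  band (face kn (fld ms 2) a2 a3 b3 b2) <| band (face kn (fld ms 3) a3 a4 b4 b3) <|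
  band (face kn (fld ms 4) a4 a1 b1 b4) <| band (face kn (fld ms 5) b1 b2 b3 b3) <|
  band (bnot (bit (fld ms 5) b4)) <| band (Nat.blt b4 n) <|
  band (ne a1 a2) <| band (ne a2 a3) <| band (ne a3 a4) <| band (ne a4 a1) <|
  band (ne b1 b2) <| band (ne b2 b3) <| band (ne b1 b3) <|
  band (ne a1 b1) <| band (ne a2 b2) <| band (ne a3 b3) (ne a4 b4)

noncomputable def patLines (n kn : Nat) (qf : Bool) (ln e E : Nat) (ls : List Nat) : Nat → Bool :=
  List.rec (motive := fun _ => Nat → Bool) (fun _ => true)
    (fun l _ ih ms =>
      force (Nat.land ms 65535) fun m =>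
        band (bit kn m) <| band (bit m 0) <|
        band (Nat.beq (pm e 16 l) (Nat.land E (cnd (band qf (bit ln m)) (Nat.lor m (one n)) m)))
          (ih (Nat.shiftRight ms 16))) ls

/-- the digits `0..k-1` of `e` are pairwise distinct; returns their mask, with bit 16 on failure -/
noncomputable def injMask (e : Nat) (k : Nat) : Nat :=
  Nat.rec (motive := fun _ => Nat) 0
    (fun i ih => cnd (bit ih (dig e i)) (Nat.lor ih 65536) (Nat.lor ih (one (dig e i)))) k

noncomputable def patOK (n kn : Nat) (qf : Bool) (ln : Nat) (p : Pat) (e ms : Nat) : Bool :=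
  force (injMask e p.k) fun E =>
    band (Nat.blt E (one (Nat.succ n))) <| band (bnot (bit E 0)) <|
    band (bor qf (bnot (bit E n))) (patLines n kn qf ln e E p.ls ms)

/-- choice of the lines among the known blocks through the first point -/
noncomputable def qrun (n lim W lam : Nat) (K : Nat → Nat → Nat → Bool) (l : List Nat) :
    Nat → Nat → Nat → Nat → Nat → Nat → Bool :=
  List.rec (motive := fun _ => Nat → Nat → Nat → Nat → Nat → Nat → Bool)
    (fun _ saved _ ln code _ =>
      bor (Nat.blt lim (Nat.mul n (Nat.sub W saved))) (K (Nat.sub W saved) ln code))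
    (fun m _ ih used saved cnt ln code pos =>
      bor (Nat.blt lim (Nat.mul n (Nat.sub (Nat.sub W saved) (Nat.mul 20 (Nat.sub lam cnt))))) <|
      force (Nat.succ pos) fun pos' =>
      band (ih used saved cnt ln code pos') <|
      bor (bnot (bit m 0)) <| bor (bnot (Nat.ble (Nat.land m used) 1)) <|
        force (Nat.lor m used) fun used' =>
        force (Nat.add saved (wt (len (bits 16 m)))) fun saved' =>
        force (Nat.succ cnt) fun cnt' =>
        force (Nat.lor ln (one m)) fun ln' =>
        force (Nat.lor code (one pos)) fun code' =>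
        ih used' saved' cnt' ln' code' pos') l

noncomputable def allLt (f : Nat → Bool) (n : Nat) : Bool :=
  Nat.rec (motive := fun _ => Bool) true (fun i ih => band (f i) ih) n

noncomputable def allL (f : Nat → Bool) (l : List Nat) : Bool :=
  List.rec (motive := fun _ => Bool) true (fun m _ ih => band (f m) ih) l

/-- choice of all lines among all blocks -/
noncomputable def grun (lim tot : Nat) (K : Nat → Nat → Bool) (l : List Nat) :
    List Nat → Nat → Nat → Nat → Nat → Bool :=
  List.rec (motive := fun _ => List Nat → Nat → Nat → Nat → Nat → Bool)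
    (fun _ cnt ln code _ => bor (Nat.blt lim (Nat.mul 60 (Nat.sub tot cnt))) (K ln code))
    (fun m _ ih ch cnt ln code pos =>
      force (Nat.succ pos) fun pos' =>
      band (ih ch cnt ln code pos') <|
      bor (bnot (allL (fun u => Nat.ble (len (bits 16 (Nat.land m u))) 1) ch)) <|
        force (Nat.succ cnt) fun cnt' =>
        force (Nat.lor ln (one m)) fun ln' =>
        force (Nat.lor code (one pos)) fun code' =>
        ih (m :: ch) cnt' ln' code' pos') l

noncomputable def lineQ (n kn ln x m a b c : Nat) : Bool :=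
  band (face kn m a b c c) (cnd (Nat.beq x n) (bit ln m) (bit m x))

noncomputable def q7OK (n kn ln h ms : Nat) : Bool :=
  force (dig h 0) fun x => force (dig h 1) fun a => force (dig h 2) fun a' => force (dig h 3) fun b =>
  force (dig h 4) fun b' => force (dig h 5) fun c => force (dig h 6) fun c' =>
  band (Nat.blt (injMask h 7) 65536) <|
  band (lineQ n kn ln x (fld ms 0) a b c') <| band (lineQ n kn ln x (fld ms 1) a b' c) <|
  band (lineQ n kn ln x (fld ms 2) a' b c) <| band (lineQ n kn ln x (fld ms 3) a' b' c') <|
  band (bnot (bit (fld ms 0) b')) <| band (bnot (bit (fld ms 0) c)) <| band (bnot (bit (fld ms 0) a')) <|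
  band (bnot (bit (fld ms 1) b)) <|
  band (face kn (fld ms 4) b b' c c') <| band (face kn (fld ms 5) a a' c c') (face kn (fld ms 6) a a' b b')

noncomputable def kid (P : Par) (st : St) (mns : Nat) (R : Nat → St → Bool) (p : List Nat) (m s : Nat) : Bool :=
  bor (Nat.blt s mns) <|
  bor (ovr (P.T st.mx) P.T5 P.off st.wlow P.lim (dl s) (wt s) m st.fl) <|
  addB st p m s (R m)

noncomputable def run (P : Par) (jm : Nat) (c : C) : Nat → St → Bool :=
  C.rec (motive := fun _ => Nat → St → Bool)
    (fun _ _ => false)
    (fun m _ _ ic ir key st => cnd (Nat.beq m key) (ic 0 st) (ir key st))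
    (fun a b c _ ik _ st =>
      force (Nat.lor (Nat.lor (one a) (one b)) (one c)) fun m =>
      band (ne a b) <| band (ne a c) <| band (ne b c) <| band (Nat.ble m P.full) <|
      band (bnot (bit (gcov st.cov a b) c)) <|
      force (Nat.lor (Nat.lor m (gcov st.cov a b)) (Nat.lor (gcov st.cov a c) (gcov st.cov b c))) fun x =>
      force (Nat.xor P.full (Nat.land P.full x)) fun cand =>
      ext st.cov (cnd (Nat.beq a 0) (Nat.succ st.mx) 6) (kid P st 3 ik) 16 [c, b, a] m 3 cand)
    (fun _ _ ik ir _ st =>
      band (Nat.ble 4 st.mx) <|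
      band (ext st.cov (Nat.succ st.mx) (kid P st (Nat.succ st.mx) ik) 16 [0] 1 1 (Nat.xor P.full 1)) <|
      force (Nat.pred st.mx) fun mx' =>
      bor (ovr (P.T mx') P.T5 P.off st.wlow P.lim 0 0 0 st.fl)
        (ir 0 ⟨st.bl, st.kn, st.cov, st.fl, mx', st.wlow, st.qf, st.ln⟩))
    (fun j s _ st =>
      band (Nat.blt j jm) <| band (Nat.beq (dig s 0) 0) <| band (Nat.beq (pm s 16 P.full) P.full) <|
      band (Nat.ble st.mx (P.hd.get j).mx) <|
      band (Nat.ble (P.hd.get j).wlow (head0 (P.T st.mx) P.off st.wlow st.fl)) <|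
      Nat.beq (knOf s (P.hd.get j).l) st.kn)
    (fun h ms _ st => miqOK P.n st.kn h ms)
    (fun i e ms _ st => patOK P.n st.kn st.qf st.ln (P.pl.get i) e ms)
    (fun _ ik _ st =>
      band (allLt (fun b => Nat.beq (gcov st.cov 0 b) P.full) P.n) <|
      FL.rec (motive := fun _ => Bool) false
        (fun k v _ _ =>
          force (mn2 (Nat.div (Nat.add (Nat.pred P.n) (Nat.sub k P.kt)) 3) (Nat.div (Nat.pred P.n) 2)) fun lam =>
          qrun P.n P.lim v lam
            (fun W ln code => ik code ⟨st.bl, st.kn, st.cov, st.fl, st.mx, W, true, ln⟩)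
            st.bl 0 0 0 0 0 0) st.fl)
    (fun _ ik _ st =>
      band (allLt (fun a => allLt (fun b => Nat.beq (gcov st.cov a b) P.full) P.n) P.n) <|
      force (len st.bl) fun tot =>
      grun P.lim tot (fun ln code => ik code ⟨st.bl, st.kn, st.cov, st.fl, st.mx, st.wlow, true, ln⟩)
        st.bl [] 0 0 0 0)
    (fun h ms _ st => q7OK P.n st.kn st.ln h ms)
    c

noncomputable def fl0 (n : Nat) : FL :=
  Nat.rec (motive := fun _ => FL) FL.nil (fun _ ih => FL.cons 16 0 ih) n

noncomputable def initL (full : Nat) (l : List Nat) : St → (St → Bool) → Bool :=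
  List.rec (motive := fun _ => St → (St → Bool) → Bool) (fun st c => c st)
    (fun m _ ih st c =>
      band (Nat.ble m full) <| band (bnot (bit st.kn m)) <|
      force (len (bits 16 m)) fun s => addB st (bits 16 m) m s fun st' => ih st' c) l

noncomputable def okE (P : Par) (j : Nat) (c : C) : Bool :=
  initL P.full (P.hd.get j).l
    ⟨[], 0, 0, fl0 P.n, (P.hd.get j).mx, (P.hd.get j).wlow, false, 0⟩ (run P j c 0)

/-- all entries `lo, lo+1, ..` below `hi` against a list of certificates -/
noncomputable def okL (P : Par) (hi : Nat) (cs : List C) : Nat → Bool :=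
  List.rec (motive := fun _ => Nat → Bool) (fun j => Nat.beq j hi)
    (fun c _ ir j => band (okE P j c) (force (Nat.succ j) ir)) cs

/-! ### tables -/

noncomputable def tabStep (T km key s : Nat) : Bool :=
  bor (Nat.ble km (Nat.add key (dl s))) (Nat.ble (tab T key) (Nat.add (wt s) (tab T (Nat.add key (dl s)))))

noncomputable def tabKey (n off kt mx T km key : Nat) : Bool :=
  band (tabStep T km key 3) <| band (tabStep T km key 4) <|
  band (bor (Nat.blt mx 4) (tabStep T km key 5)) <| band (bor (Nat.blt mx 5) (tabStep T km key 6)) <|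
  bor (Nat.blt key kt)
    (Nat.ble (Nat.add (tab T key)
      (Nat.mul 20 (mn2 (Nat.div (Nat.add (Nat.pred n) (Nat.sub key kt)) 3) (Nat.div (Nat.pred n) 2)))) off)

noncomputable def tabOK (n off kt mx T rows : Nat) : Bool :=
  allLt (fun r => force (Nat.mul 128 r) fun b => allLt (fun i => force (Nat.add b i) fun key =>
    tabKey n off kt mx T (Nat.mul 128 rows) key) 128) rows

/-! ### sign trees for the forbidden patterns -/

inductive ST : Type
  | leaf (x a b c d : Nat) : ST
  | flip (a b c : Nat) (t : ST) : ST
  | br (a b c : Nat) (t u : ST) : ST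

def code (a b c : Nat) : Nat := Nat.add (Nat.add (Nat.mul 256 a) (Nat.mul 16 b)) c
def or3 (a b c : Nat) : Nat := Nat.lor (Nat.lor (one a) (one b)) (one c)

noncomputable def anyL (f : Nat → Bool) (l : List Nat) : Bool :=
  List.rec (motive := fun _ => Bool) false (fun m _ ih => bor (f m) ih) l

noncomputable def isZ (ls : List Nat) (a b c : Nat) : Bool :=
  band (ne a b) <| band (ne a c) <| band (ne b c) <| force (or3 a b c) fun t => anyL (fun l => sub t l) ls
noncomputable def isN1 (ls : List Nat) (a b c : Nat) : Bool :=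
  anyL (fun l => band (bit l a) (band (bit l b) (bnot (bit l c)))) ls
noncomputable def isN (k : Nat) (ls : List Nat) (a b c : Nat) : Bool :=
  band (Nat.blt a k) <| band (Nat.blt b k) <| band (Nat.blt c k) <|
  band (ne a b) <| band (ne a c) <| band (ne b c) <|
  bor (isN1 ls a b c) (bor (isN1 ls b c a) (isN1 ls c a b))
def setP (pos a b c : Nat) : Nat :=
  Nat.lor (Nat.lor pos (one (code a b c))) (Nat.lor (one (code b c a)) (one (code c a b)))
/-- the product of the brackets `x a b` and `x c d` is positive -/
noncomputable def prP (pos x a b c d : Nat) : Bool :=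
  bor (band (bit pos (code x a b)) (bit pos (code x c d))) (band (bit pos (code x b a)) (bit pos (code x d c)))
noncomputable def prN (ls : List Nat) (pos x a b c d : Nat) : Bool :=
  bor (prP pos x a b c d) (bor (isZ ls x a b) (isZ ls x c d))

noncomputable def stOK (k : Nat) (ls : List Nat) (t : ST) : Nat → Nat → Bool :=
  ST.rec (motive := fun _ => Nat → Nat → Bool)
    (fun x a b c d pos _ =>
      band (Nat.blt (Nat.lor (or3 x a b) (or3 x c d)) (one k)) <|
      band (prP pos x a b c d) <| band (prN ls pos x a c d b) (prN ls pos x a d b c))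
    (fun a b c _ it pos us =>
      band (isN k ls a b c) <| band (bnot (bit us c)) <|
      force (setP pos a b c) fun pos' => force (Nat.lor us (or3 a b c)) fun us' => it pos' us')
    (fun a b c _ _ it iu pos us =>
      band (isN k ls a b c) <| force (Nat.lor us (or3 a b c)) fun us' =>
      band (force (setP pos a b c) fun pos' => it pos' us') (force (setP pos b a c) fun pos' => iu pos' us'))
    t

noncomputable def patV (p : Pat) (t : ST) : Bool :=
  band (Nat.ble p.k 16) <| band (allL (fun l => Nat.blt l (one p.k)) p.ls) (stOK p.k p.ls t 0 0)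

end Pool.Agent.MP_1f1ca1_co
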