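import Mathlib
import Pool.Agent.MP_1f1ca1_co.Chk

/-! Specifications of the elementary functions of the checker. -/

set_option autoImplicit false

namespace Pool.Agent.MP_1f1ca1_co
open Finset

@[simp] lemma force_eq (x : ℕ) (f : ℕ → Bool) : force x f = f x := by cases x <;> rfl
@[simp] lemma cnd_eq {α : Type} (b : Bool) (x y : α) : cnd b x y = if b = true then x else y := by
  cases b <;> rfl
@[simp] lemma bor_eq (a b : Bool) : bor a b = (a || b) := by cases a <;> rfl
@[simp] lemma band_eq (a b : Bool) : band a b = (a && b) := by cases a <;> rfl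
@[simp] lemma bnot_eq (a : Bool) : bnot a = !a := by cases a <;> rfl
@[simp] lemma land_eq (a b : ℕ) : Nat.land a b = a &&& b := rfl
@[simp] lemma lor_eq (a b : ℕ) : Nat.lor a b = a ||| b := rfl
@[simp] lemma xor_eq' (a b : ℕ) : Nat.xor a b = a ^^^ b := rfl
@[simp] lemma shr_eq (a b : ℕ) : Nat.shiftRight a b = a >>> b := rfl
@[simp] lemma shl_eq (a b : ℕ) : Nat.shiftLeft a b = a <<< b := rfl
@[simp] lemma div_eq' (a b : ℕ) : Nat.div a b = a / b := rfl
@[simp] lemma beq_dec (a b : ℕ) : Nat.beq a b = decide (a = b) := by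
  rw [Bool.eq_iff_iff]; simp [Nat.beq_eq]
@[simp] lemma ble_dec (a b : ℕ) : Nat.ble a b = decide (a ≤ b) := by
  rw [Bool.eq_iff_iff]; simp [Nat.ble_eq]
@[simp] lemma blt_dec (a b : ℕ) : Nat.blt a b = decide (a < b) := by
  rw [Bool.eq_iff_iff]; simp [Nat.blt_eq]

lemma and_one_iff (m : ℕ) : m &&& 1 = 1 ↔ m.testBit 0 = true := by
  rw [Nat.and_one_is_mod, Nat.testBit_zero]; simp

@[simp] lemma bit_eq (m x : ℕ) : bit m x = m.testBit x := by
  unfold bit
  rw [Bool.eq_iff_iff]
  simp only [land_eq, shr_eq, beq_dec, decide_eq_true_eq, and_one_iff, Nat.testBit_shiftRight, add_zero]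

@[simp] lemma one_eq (x : ℕ) : one x = 2 ^ x := by simp [one, Nat.shiftLeft_eq]

@[simp] lemma ne_eq' (a b : ℕ) : ne a b = decide (a ≠ b) := by simp [ne]

lemma dig_lt (s x : ℕ) : dig s x < 16 := by
  unfold dig; exact Nat.lt_succ_of_le Nat.and_le_right

lemma testBit_gcov (C a b c : ℕ) :
    (gcov C a b).testBit c = (C.testBit (256 * a + 16 * b + c) && decide (c < 16)) := by
  unfold gcov
  have : (65535 : ℕ) = 2 ^ 16 - 1 := by norm_num
  simp only [land_eq, shr_eq, Nat.testBit_and, Nat.testBit_shiftRight, this, Nat.testBit_two_pow_sub_one,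
    Nat.add_eq, Nat.mul_eq]

lemma sub_spec {a m : ℕ} (h : sub a m = true) {i : ℕ} (hi : a.testBit i = true) : m.testBit i = true := by
  simp only [sub, land_eq, beq_dec, decide_eq_true_eq] at h
  rw [← h, Nat.testBit_and] at hi
  simp only [Bool.and_eq_true] at hi
  exact hi.2

@[simp] lemma mx2_eq (a b : ℕ) : mx2 a b = max a b := by
  simp only [mx2, cnd_eq, ble_dec, decide_eq_true_eq]; split_ifs <;> omega
@[simp] lemma mn2_eq (a b : ℕ) : mn2 a b = min a b := by
  simp only [mn2, cnd_eq, ble_dec, decide_eq_true_eq]; split_ifs <;> omega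

lemma wt_le (s : ℕ) : wt s ≤ 20 := by
  simp only [wt, cnd_eq]; split_ifs <;> omega

lemma wt_mul {s : ℕ} (h3 : 3 ≤ s) (h6 : s ≤ 6) : s * wt s = 60 := by
  interval_cases s <;> rfl

lemma dl_int {s : ℕ} (h3 : 3 ≤ s) (h6 : s ≤ 6) : (dl s : ℤ) = 64 * (((s : ℤ) - 1) * (s - 2)) + (4 - s) := by
  interval_cases s <;> rfl

lemma lt_of_bit {m n i : ℕ} (h : m < 2 ^ n) (hi : m.testBit i = true) : i < n := by
  by_contra hc
  rw [Nat.testBit_lt_two_pow (h.trans_le (Nat.pow_le_pow_right (by norm_num) (not_lt.1 hc)))] at hi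
  exact absurd hi (by simp)

lemma top_spec {m f : ℕ} (h0 : m ≠ 0) (h : m < 2 ^ (f + 1)) :
    m.testBit m.log2 = true ∧ (∀ i, (m ^^^ 2 ^ m.log2).testBit i = true ↔ m.testBit i = true ∧ i ≠ m.log2) ∧
      m ^^^ 2 ^ m.log2 < 2 ^ f := by
  have h1 : m.testBit m.log2 = true := Nat.testBit_log2 h0
  have h2 : ∀ i, (m ^^^ 2 ^ m.log2).testBit i = true ↔ m.testBit i = true ∧ i ≠ m.log2 := by
    intro i
    rw [Nat.testBit_xor, Nat.testBit_two_pow]
    by_cases e : m.log2 = i
    · subst e; simp [h1]
    · simp [e, Ne.symm e]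
  refine ⟨h1, h2, Nat.lt_pow_two_of_testBit _ fun i hi => ?_⟩
  by_contra hc
  have := (h2 i).1 (by simpa using hc)
  have a1 := lt_of_bit h this.1
  have a2 := lt_of_bit (Nat.lt_log2_self (n := m)) this.1
  have a3 := lt_of_bit h h1
  omega

/-- the set of bits -/
def bs (m : ℕ) : Finset ℕ := (range 16).filter (fun i => m.testBit i = true)

lemma mem_bs {m i : ℕ} (h : m < 2 ^ 16) : i ∈ bs m ↔ m.testBit i = true := by
  unfold bs
  rw [mem_filter, mem_range]
  exact ⟨fun h => h.2, fun h' => ⟨lt_of_bit h h', h'⟩⟩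

lemma bits_succ (f m : ℕ) :
    bits (f + 1) m = if m = 0 then [] else m.log2 :: bits f (m ^^^ 2 ^ m.log2) := by
  show cnd _ _ _ = _
  simp [bits]

lemma bits_spec (f : ℕ) : ∀ m, m < 2 ^ f → (bits f m).Nodup ∧ ∀ x, x ∈ bits f m ↔ m.testBit x = true := by
  induction f with
  | zero =>
    intro m h
    have : m = 0 := by omega
    subst this; exact ⟨List.nodup_nil, by simp [bits]⟩
  | succ f ih =>
    intro m h
    rw [bits_succ]
    split_ifs with h0
    · subst h0; simp
    · obtain ⟨h1, h2, h3⟩ := top_spec h0 h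
      obtain ⟨a1, a2⟩ := ih _ h3
      refine ⟨List.nodup_cons.2 ⟨fun hc => ((h2 _).1 ((a2 _).1 hc)).2 rfl, a1⟩, fun x => ?_⟩
      rw [List.mem_cons, a2, h2]
      by_cases e : x = m.log2
      · simp [e, h1]
      · simp [e]

@[simp] lemma len_eq (p : List ℕ) : len p = p.length := by
  induction p with
  | nil => rfl
  | cons a p ih => show Nat.succ (len p) = _; rw [ih]; rfl

lemma len_bits {m : ℕ} (h : m < 2 ^ 16) : (bits 16 m).length = (bs m).card := by
  obtain ⟨h1, h2⟩ := bits_spec 16 m h
  rw [← List.toFinset_card_of_nodup h1]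
  congr 1; ext x; rw [List.mem_toFinset, h2, mem_bs h]

lemma pm_succ (s f m : ℕ) :
    pm s (f + 1) m = if m = 0 then 0 else 2 ^ dig s m.log2 ||| pm s f (m ^^^ 2 ^ m.log2) := by
  show cnd _ _ _ = _
  simp [pm]

lemma pm_spec (s f : ℕ) : ∀ m, m < 2 ^ f → ∀ y, (pm s f m).testBit y = true ↔
    ∃ x, m.testBit x = true ∧ dig s x = y := by
  induction f with
  | zero =>
    intro m h y
    have : m = 0 := by omega
    subst this; simp [pm]
  | succ f ih =>
    intro m h y
    rw [pm_succ]
    split_ifs with h0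
    · subst h0; simp
    · obtain ⟨h1, h2, h3⟩ := top_spec h0 h
      rw [Nat.testBit_or, Bool.or_eq_true, ih _ h3, Nat.testBit_two_pow, decide_eq_true_eq]
      constructor
      · rintro (h | ⟨x, hx, h⟩)
        · exact ⟨_, h1, h⟩
        · exact ⟨x, ((h2 x).1 hx).1, h⟩
      · rintro ⟨x, hx, h⟩
        by_cases e : x = m.log2
        · left; rw [← e]; exact h
        · exact Or.inr ⟨x, (h2 x).2 ⟨hx, e⟩, h⟩

lemma knOf_spec (s : ℕ) (l : List ℕ) (u : ℕ) :
    (knOf s l).testBit u = true ↔ ∃ m ∈ l, pm s 16 m = u := by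
  induction l with
  | nil => simp [knOf]
  | cons a l ih =>
    have : knOf s (a :: l) = 2 ^ pm s 16 a ||| knOf s l := by
      show Nat.lor _ _ = _
      simp [knOf]
    rw [this, Nat.testBit_or, Bool.or_eq_true, ih, Nat.testBit_two_pow]
    simp

lemma orRow_spec {m w st : ℕ} (hm : m < 2 ^ w) (hw : w ≤ st) (p : List ℕ) (a c : ℕ) (hc : c < st) :
    (orRow m st p).testBit (st * a + c) = true ↔ a ∈ p ∧ m.testBit c = true := by
  induction p with
  | nil => simp [orRow]
  | cons b p ih =>
    have : orRow m st (b :: p) = m <<< (st * b) ||| orRow m st p := rfl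
    rw [this, Nat.testBit_or, Bool.or_eq_true, ih, Nat.testBit_shiftLeft, List.mem_cons]
    simp only [ge_iff_le, Bool.and_eq_true, decide_eq_true_eq]
    constructor
    · rintro (⟨h1, h2⟩ | h)
      · have h3 := lt_of_bit hm h2
        have h4 : a = b := by
          rcases lt_trichotomy a b with h | h | h
          · have := Nat.mul_le_mul_left st (show a + 1 ≤ b from h)
            rw [mul_add] at this; omega
          · exact h
          · have := Nat.mul_le_mul_left st (show b + 1 ≤ a from h)
            rw [mul_add] at this; omega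
        subst h4
        rw [Nat.add_sub_cancel_left] at h2
        exact ⟨Or.inl rfl, h2⟩
      · exact ⟨Or.inr h.1, h.2⟩
    · rintro ⟨rfl | h1, h2⟩
      · left; rw [Nat.add_sub_cancel_left]; exact ⟨by omega, h2⟩
      · exact Or.inr ⟨h1, h2⟩

lemma orRow_lt {m st k : ℕ} (hm : m < 2 ^ st) (p : List ℕ) (hp : ∀ b ∈ p, b < k) :
    orRow m st p < 2 ^ (st * k) := by
  induction p with
  | nil => show 0 < _; positivity
  | cons b p ih =>
    have : orRow m st (b :: p) = m <<< (st * b) ||| orRow m st p := rfl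
    rw [this]
    apply Nat.or_lt_two_pow _ (ih fun x hx => hp x (List.mem_cons_of_mem _ hx))
    rw [Nat.shiftLeft_eq]
    calc m * 2 ^ (st * b) < 2 ^ st * 2 ^ (st * b) := Nat.mul_lt_mul_of_pos_right hm (by positivity)
      _ = 2 ^ (st * (b + 1)) := by ring
      _ ≤ _ := Nat.pow_le_pow_right (by norm_num) (Nat.mul_le_mul_left _ (hp b List.mem_cons_self))

lemma covOr_spec (C z : ℕ) (p : List ℕ) (c : ℕ) :
    (covOr C z p).testBit c = true ↔ ∃ t ∈ p, (gcov C z t).testBit c = true := by
  induction p with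
  | nil => simp [covOr]
  | cons b p ih =>
    have : covOr C z (b :: p) = gcov C z b ||| covOr C z p := rfl
    rw [this, Nat.testBit_or, Bool.or_eq_true, ih]
    simp

lemma injMask_spec (e k : ℕ) (h : (injMask e k).testBit 16 = false) :
    (∀ i < k, ∀ j < k, dig e i = dig e j → i = j) ∧
      ∀ y, (injMask e k).testBit y = true ↔ ∃ i < k, dig e i = y := by
  induction k with
  | zero => simp [injMask]
  | succ k ih =>
    have e1 : injMask e (k + 1) = if (injMask e k).testBit (dig e k) = true then injMask e k ||| 2 ^ 16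
        else injMask e k ||| 2 ^ dig e k := by
      show cnd _ _ _ = _
      simp [injMask]
    rw [e1] at h ⊢
    split_ifs at h ⊢ with hc
    · rw [Nat.testBit_or, Nat.testBit_two_pow] at h; simp at h
    · rw [Nat.testBit_or] at h
      obtain ⟨a1, a2⟩ := ih (by simp only [Bool.or_eq_false_iff] at h; exact h.1)
      constructor
      · intro i hi j hj hij
        rcases Nat.lt_succ_iff_lt_or_eq.1 hi with hi | rfl <;> rcases Nat.lt_succ_iff_lt_or_eq.1 hj with hj | rfl
        · exact a1 i hi j hj hij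
        · exact absurd ((a2 _).2 ⟨i, hi, hij⟩) hc
        · exact absurd ((a2 _).2 ⟨j, hj, hij.symm⟩) hc
        · rfl
      · intro y
        rw [Nat.testBit_or, Bool.or_eq_true, a2, Nat.testBit_two_pow, decide_eq_true_eq]
        constructor
        · rintro (⟨i, hi, h⟩ | h)
          · exact ⟨i, by omega, h⟩
          · exact ⟨k, by omega, h⟩
        · rintro ⟨i, hi, h'⟩
          rcases Nat.lt_succ_iff_lt_or_eq.1 hi with hi | rfl
          · exact Or.inl ⟨i, hi, h'⟩
          · exact Or.inr h'

lemma allLt_spec (f : ℕ → Bool) (n : ℕ) (h : allLt f n = true) : ∀ i < n, f i = true := by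
  induction n with
  | zero => simp
  | succ n ih =>
    have e : allLt f (n + 1) = band (f n) (allLt f n) := rfl
    rw [e, band_eq, Bool.and_eq_true] at h
    intro i hi
    rcases Nat.lt_succ_iff_lt_or_eq.1 hi with hi | rfl
    · exact ih h.2 i hi
    · exact h.1

lemma allL_spec (f : ℕ → Bool) (l : List ℕ) : allL f l = true ↔ ∀ m ∈ l, f m = true := by
  induction l with
  | nil => simp [allL]
  | cons a l ih =>
    have e : allL f (a :: l) = band (f a) (allL f l) := rfl
    rw [e, band_eq, Bool.and_eq_true, ih]; simp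

lemma anyL_spec (f : ℕ → Bool) (l : List ℕ) : anyL f l = true ↔ ∃ m ∈ l, f m = true := by
  induction l with
  | nil => simp [anyL]
  | cons a l ih =>
    have e : anyL f (a :: l) = bor (f a) (anyL f l) := rfl
    rw [e, bor_eq, Bool.or_eq_true, ih]; simp

lemma face_spec {kn m a b c d : ℕ} (h : face kn m a b c d = true) :
    kn.testBit m = true ∧ m.testBit a = true ∧ m.testBit b = true ∧ m.testBit c = true ∧ m.testBit d = true := by
  simp only [face, band_eq, bit_eq, Bool.and_eq_true] at h
  refine ⟨h.1, sub_spec h.2 ?_, sub_spec h.2 ?_, sub_spec h.2 ?_, sub_spec h.2 ?_⟩ <;>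
    simp [or4, Nat.testBit_two_pow]

/-- the per point data given by two functions -/
def mkFL : ℕ → (ℕ → ℕ) → (ℕ → ℕ) → FL
  | 0, _, _ => FL.nil
  | c + 1, K, W => FL.cons (K 0) (W 0) (mkFL c (fun x => K (x + 1)) (fun x => W (x + 1)))

lemma mkFL_congr (c : ℕ) : ∀ K W K' W' : ℕ → ℕ, (∀ x < c, K x = K' x) → (∀ x < c, W x = W' x) →
    mkFL c K W = mkFL c K' W' := by
  induction c with
  | zero => intros; rfl
  | succ c ih =>
    intro K W K' W' h1 h2
    simp only [mkFL]
    rw [h1 0 (by omega), h2 0 (by omega), ih _ _ _ _ (fun x hx => h1 (x + 1) (by omega))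
      (fun x hx => h2 (x + 1) (by omega))]

lemma fl0_eq (n : ℕ) : fl0 n = mkFL n (fun _ => 16) (fun _ => 0) := by
  induction n with
  | zero => rfl
  | succ n ih => show FL.cons 16 0 (fl0 n) = _; rw [ih]; rfl

lemma upd_cons (d w k v : ℕ) (r : FL) (m : ℕ) (c : FL → Bool) : upd d w (FL.cons k v r) m c =
    upd d w r (m >>> 1) fun r' => c (FL.cons (if m.testBit 0 = true then k + d else k)
      (if m.testBit 0 = true then v + w else v) r') := by
  have e : upd d w (FL.cons k v r) m c = cnd (Nat.beq (Nat.land m 1) 1)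
        (force (Nat.add k d) fun k' => force (Nat.add v w) fun v' =>
          upd d w r (Nat.shiftRight m 1) fun r' => c (FL.cons k' v' r'))
        (upd d w r (Nat.shiftRight m 1) fun r' => c (FL.cons k v r')) := rfl
  rw [e]
  simp only [cnd_eq, land_eq, beq_dec, decide_eq_true_eq, and_one_iff, force_eq]
  split_ifs <;> rfl

lemma upd_spec (d w n : ℕ) : ∀ (K W : ℕ → ℕ) (m : ℕ) (c : FL → Bool), upd d w (mkFL n K W) m c =
    c (mkFL n (fun x => if m.testBit x = true then K x + d else K x)
      (fun x => if m.testBit x = true then W x + w else W x)) := by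
  induction n with
  | zero => intros; rfl
  | succ n ih =>
    intro K W m c
    simp only [mkFL]
    rw [upd_cons, ih]
    simp only [Nat.testBit_shiftRight, add_comm 1]

lemma upd_ex (d w : ℕ) (f : FL) : ∀ (m : ℕ) (c : FL → Bool), ∃ f', upd d w f m c = c f' := by
  induction f with
  | nil => intro m c; exact ⟨_, rfl⟩
  | cons k v r ih =>
    intro m c
    rw [upd_cons]
    obtain ⟨f', h⟩ := ih (m >>> 1) _
    exact ⟨_, h⟩

lemma sumT_spec (T off w0 d w n : ℕ) : ∀ (K W : ℕ → ℕ) (m : ℕ), sumT T off w0 d w (mkFL n K W) m =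
    ∑ x ∈ range n, max w0 (lb1 T off (if m.testBit x = true then K x + d else K x)
      (if m.testBit x = true then W x + w else W x)) := by
  induction n with
  | zero => intros; rfl
  | succ n ih =>
    intro K W m
    simp only [mkFL]
    have e : ∀ k v r, sumT T off w0 d w (FL.cons k v r) m = max w0 (lb1 T off
        (if m.testBit 0 = true then k + d else k) (if m.testBit 0 = true then v + w else v)) +
        sumT T off w0 d w r (m >>> 1) := by
      intro k v r
      have e : sumT T off w0 d w (FL.cons k v r) m = Nat.add (mx2 w0 (cnd (Nat.beq (Nat.land m 1) 1)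
        (lb1 T off (Nat.add k d) (Nat.add v w)) (lb1 T off k v))) (sumT T off w0 d w r (Nat.shiftRight m 1)) := rfl
      rw [e]
      simp only [cnd_eq, land_eq, beq_dec, decide_eq_true_eq, and_one_iff, mx2_eq, Nat.add_eq]
      split_ifs <;> rfl
    rw [e, ih, sum_range_succ', add_comm]
    simp only [Nat.testBit_shiftRight, add_comm 1]

lemma ovr_spec {T0 T off wlow lim d w m n : ℕ} {K W : ℕ → ℕ} (h : ovr T0 T off wlow lim d w m (mkFL n K W) = true)
    (F : ℕ → ℕ) (h0 : wlow ≤ F 0) (hmin : ∀ x < n, F 0 ≤ F x)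
    (h1 : lb1 T0 off (if m.testBit 0 = true then K 0 + d else K 0) (if m.testBit 0 = true then W 0 + w else W 0) ≤ F 0)
    (h2 : ∀ x < n, lb1 T off (if m.testBit x = true then K x + d else K x)
      (if m.testBit x = true then W x + w else W x) ≤ F x) : lim < ∑ x ∈ range n, F x := by
  cases n with
  | zero => exact absurd h (by simp [mkFL, ovr])
  | succ n =>
    simp only [mkFL] at h
    have e : ∀ k v r, ovr T0 T off wlow lim d w m (FL.cons k v r) =
        decide (lim < max wlow (lb1 T0 off (if m.testBit 0 = true then k + d else k)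
          (if m.testBit 0 = true then v + w else v)) + sumT T off (max wlow (lb1 T0 off
          (if m.testBit 0 = true then k + d else k) (if m.testBit 0 = true then v + w else v))) d w r (m >>> 1)) := by
      intro k v r
      have e : ovr T0 T off wlow lim d w m (FL.cons k v r) = force (mx2 wlow (cnd (Nat.beq (Nat.land m 1) 1)
        (lb1 T0 off (Nat.add k d) (Nat.add v w)) (lb1 T0 off k v)))
        fun w0 => Nat.blt lim (Nat.add w0 (sumT T off w0 d w r (Nat.shiftRight m 1))) := rfl
      rw [e]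
      simp only [force_eq, cnd_eq, land_eq, beq_dec, decide_eq_true_eq, and_one_iff, mx2_eq, Nat.add_eq, blt_dec,
        shr_eq]
      split_ifs <;> rfl
    rw [e, decide_eq_true_eq, sumT_spec] at h
    rw [sum_range_succ', add_comm]
    refine h.trans_le (add_le_add (max_le h0 h1) (sum_le_sum fun x hx => ?_))
    rw [mem_range] at hx
    refine max_le ((max_le h0 h1).trans (hmin _ (by omega))) ?_
    have := h2 (x + 1) (by omega)
    simpa only [Nat.testBit_shiftRight, add_comm 1] using this

lemma ext_succ (C mxs : ℕ) (K : List ℕ → ℕ → ℕ → Bool) (f : ℕ) (p : List ℕ) (m s cand : ℕ) :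
    ext C mxs K (f + 1) p m s cand = if cand = 0 ∨ s = mxs then K p m s else
      (ext C mxs K f (cand.log2 :: p) (m ||| 2 ^ cand.log2) (s + 1)
        ((cand ^^^ 2 ^ cand.log2) ^^^ ((cand ^^^ 2 ^ cand.log2) &&& covOr C cand.log2 p)) &&
       ext C mxs K f p m s (cand ^^^ 2 ^ cand.log2)) := by
  have e : ext C mxs K (f + 1) p m s cand = cnd (bor (Nat.beq cand 0) (Nat.beq s mxs)) (K p m s)
        (force (Nat.log2 cand) fun z =>
         force (Nat.xor cand (one z)) fun c' =>
           band (force (Nat.lor m (one z)) fun m' =>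
                 force (Nat.xor c' (Nat.land c' (covOr C z p))) fun c'' =>
                 ext C mxs K f (z :: p) m' (Nat.succ s) c'')
                (ext C mxs K f p m s c')) := rfl
  rw [e]
  simp only [cnd_eq, bor_eq, beq_dec, Bool.or_eq_true, decide_eq_true_eq, force_eq, band_eq, one_eq, xor_eq',
    lor_eq, land_eq]

lemma ext_spec {C mxs μ : ℕ} {K : List ℕ → ℕ → ℕ → Bool} (hμ : μ < 2 ^ 16) (hx : (bs μ).card ≤ mxs)
    (hC : ∀ a b c, a ≠ b → a ≠ c → b ≠ c → μ.testBit a = true → μ.testBit b = true → μ.testBit c = true →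
      ¬ (gcov C a b).testBit c = true) (f : ℕ) :
    ∀ (p : List ℕ) (m s cand : ℕ), cand < 2 ^ f → cand < 2 ^ 16 → (∀ x, x ∈ p ↔ m.testBit x = true) →
      s = (bs m).card → (∀ x, m.testBit x = true → μ.testBit x = true) →
      (∀ x, μ.testBit x = true → m.testBit x = true ∨ cand.testBit x = true) →
      (∀ x, cand.testBit x = true → ¬ m.testBit x = true) → ext C mxs K f p m s cand = true →
      ∃ p' : List ℕ, (∀ x, x ∈ p' ↔ μ.testBit x = true) ∧ K p' μ (bs μ).card = true := by
  have fin : ∀ (p : List ℕ) (m s : ℕ), (∀ x, x ∈ p ↔ m.testBit x = true) → s = (bs m).card →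
      (∀ x, m.testBit x = true → μ.testBit x = true) → (∀ x, μ.testBit x = true → m.testBit x = true) →
      K p m s = true → ∃ p' : List ℕ, (∀ x, x ∈ p' ↔ μ.testBit x = true) ∧ K p' μ (bs μ).card = true := by
    intro p m s h1 h2 h3 h4 h5
    have : m = μ := Nat.eq_of_testBit_eq fun i => Bool.eq_iff_iff.2 ⟨h3 i, h4 i⟩
    subst this; subst h2
    exact ⟨p, h1, h5⟩
  induction f with
  | zero =>
    intro p m s cand h1 _ h3 h4 h5 h6 _ h8
    have : cand = 0 := by omega
    subst this
    exact fin p m s h3 h4 h5 (fun x hx => by simpa using h6 x hx) h8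
  | succ f ih =>
    intro p m s cand h1 h2 h3 h4 h5 h6 h7 h8
    rw [ext_succ] at h8
    split_ifs at h8 with hc
    · refine fin p m s h3 h4 h5 (fun x hx' => ?_) h8
      rcases hc with rfl | rfl
      · simpa using h6 x hx'
      · have hsub : bs m ⊆ bs μ := fun y hy => by
          rw [mem_bs hμ]; exact h5 y (mem_filter.1 hy).2
        have := eq_of_subset_of_card_le hsub (h4 ▸ hx)
        have h9 := (mem_bs hμ).2 hx'
        rw [← this] at h9
        exact (mem_filter.1 h9).2
    · push Not at hc
      obtain ⟨t1, t2, t3⟩ := top_spec hc.1 h1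
      obtain ⟨-, -, t4⟩ := top_spec (f := 15) hc.1 h2
      rw [Bool.and_eq_true] at h8
      set y := cand.log2 with hy
      have hb : ∀ x, ((cand ^^^ 2 ^ y) ^^^ ((cand ^^^ 2 ^ y) &&& covOr C y p)).testBit x = true ↔
          (cand ^^^ 2 ^ y).testBit x = true ∧ ¬ (covOr C y p).testBit x = true := by
        intro x
        rw [Nat.testBit_xor (cand ^^^ 2 ^ y), Nat.testBit_and]
        cases (cand ^^^ 2 ^ y).testBit x <;> cases (covOr C y p).testBit x <;> simp
      have hm : ∀ x, (m ||| 2 ^ y).testBit x = true ↔ m.testBit x = true ∨ x = y := by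
        intro x; rw [Nat.testBit_or, Nat.testBit_two_pow, Bool.or_eq_true, decide_eq_true_eq, @eq_comm _ y x]
      by_cases hyμ : μ.testBit y = true
      · refine ih _ _ _ _ (Nat.xor_lt_two_pow t3 (Nat.and_le_left.trans_lt t3))
          (Nat.xor_lt_two_pow (t4.trans (by norm_num)) (Nat.and_le_left.trans_lt (t4.trans (by norm_num))))
          (fun x => ?_) ?_ (fun x hx' => ?_) (fun x hx' => ?_) (fun x hx' => ?_) h8.1
        · rw [List.mem_cons, h3, hm]; tauto
        · have : bs (m ||| 2 ^ y) = insert y (bs m) := by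
            ext x
            simp only [bs, mem_filter, mem_insert, mem_range, hm]
            constructor
            · tauto
            · rintro (rfl | h)
              · exact ⟨lt_of_bit h2 t1, Or.inr rfl⟩
              · tauto
          have hn : y ∉ bs m := fun h => h7 y t1 (mem_filter.1 h).2
          rw [this, card_insert_of_notMem hn, h4]
        · rcases (hm x).1 hx' with h | rfl
          · exact h5 x h
          · exact hyμ
        · rw [hm, hb, t2, covOr_spec]
          by_cases e1 : m.testBit x = true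
          · exact Or.inl (Or.inl e1)
          by_cases e2 : x = y
          · exact Or.inl (Or.inr e2)
          refine Or.inr ⟨⟨(h6 x hx').resolve_left e1, e2⟩, ?_⟩
          rintro ⟨t, ht, ht'⟩
          rw [h3] at ht
          exact hC y t x (fun e => h7 y t1 (e ▸ ht)) (Ne.symm e2) (fun e => e1 (e ▸ ht)) hyμ (h5 t ht) hx' ht'
        · rw [hb, t2] at hx'
          rw [hm]
          rintro (h | h)
          · exact h7 x hx'.1.1 h
          · exact hx'.1.2 h
      · refine ih _ _ _ _ t3 (t4.trans (by norm_num)) h3 h4 h5 (fun x hx' => ?_) (fun x hx' => ?_) h8.2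
        · rw [t2]
          rcases h6 x hx' with h | h
          · exact Or.inl h
          · exact Or.inr ⟨h, fun e => hyμ (e ▸ hx')⟩
        · exact h7 x ((t2 x).1 hx').1

end Pool.Agent.MP_1f1ca1_co
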