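import Pool.Agent.MP_1f1ca1_co.Geo

/-! Blocks of a planar point set. -/

set_option autoImplicit false

namespace Pool.Agent.MP_1f1ca1_co
open Finset

abbrev Pt := EuclideanSpace ℝ (Fin 2)

noncomputable instance instDecEqPt : DecidableEq Pt := Classical.decEq _

def ev (φ : Fin 4 → ℝ) (p : Pt) : ℝ := φ 0 * (p 0 ^ 2 + p 1 ^ 2) + φ 1 * p 0 + φ 2 * p 1 + φ 3

open Classical in
noncomputable def Bl (P : Finset Pt) : Finset (Finset Pt) :=
  P.powerset.filter (fun β => 3 ≤ β.card ∧ ∃ φ ≠ 0, ∀ p, p ∈ β ↔ p ∈ P ∧ ev φ p = 0)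

open Classical in
noncomputable def Ln (P : Finset Pt) : Finset (Finset Pt) :=
  (Bl P).filter (fun β => ∃ φ ≠ 0, φ 0 = 0 ∧ ∀ p ∈ β, ev φ p = 0)

lemma mem_Bl {P β : Finset Pt} : β ∈ Bl P ↔ 3 ≤ β.card ∧ ∃ φ ≠ 0, ∀ p, p ∈ β ↔ p ∈ P ∧ ev φ p = 0 := by
  classical
  unfold Bl
  rw [mem_filter, mem_powerset]
  exact ⟨fun h => h.2, fun h => ⟨fun p hp => by obtain ⟨φ, -, h'⟩ := h.2; exact ((h' p).1 hp).1, h⟩⟩

lemma mem_Ln {P β : Finset Pt} : β ∈ Ln P ↔ β ∈ Bl P ∧ ∃ φ ≠ 0, φ 0 = 0 ∧ ∀ p ∈ β, ev φ p = 0 := by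
  classical
  unfold Ln; rw [mem_filter]

def vv (x : Pt) : Option Pt → V3
  | none => ![0, 0, 1]
  | some y => ![y 0 - x 0, y 1 - x 1, (y 0 - x 0) ^ 2 + (y 1 - x 1) ^ 2]

def fx (φ : Fin 4 → ℝ) (x : Pt) : V3 := ![φ 1 + 2 * φ 0 * x 0, φ 2 + 2 * φ 0 * x 1, φ 0]

lemma dot_some (φ : Fin 4 → ℝ) (x y : Pt) : dot (vv x (some y)) (fx φ x) = ev φ y - ev φ x := by
  simp [dot, vv, fx, ev]; ring

lemma dot_none (φ : Fin 4 → ℝ) (x : Pt) : dot (vv x none) (fx φ x) = φ 0 := by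
  simp [dot, vv, fx]

lemma fx_ne {φ : Fin 4 → ℝ} (h : φ ≠ 0) {x : Pt} (hx : ev φ x = 0) : fx φ x ≠ 0 := by
  intro h0
  have a0 : φ 0 = 0 := by simpa [fx] using congrFun h0 2
  have a1 : φ 1 = 0 := by simpa [fx, a0] using congrFun h0 0
  have a2 : φ 2 = 0 := by simpa [fx, a0] using congrFun h0 1
  have a3 : φ 3 = 0 := by simpa [ev, a0, a1, a2] using hx
  apply h; ext i; fin_cases i <;> simp [a0, a1, a2, a3]

lemma pt_ext {a b : Pt} (h0 : a 0 = b 0) (h1 : a 1 = b 1) : a = b := by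
  ext i; fin_cases i <;> simp [h0, h1]

lemma sq_pos_of_ne {a b : Pt} (h : a ≠ b) : 0 < (a 0 - b 0) ^ 2 + (a 1 - b 1) ^ 2 := by
  by_contra hc
  apply h
  apply pt_ext <;> nlinarith [sq_nonneg (a 0 - b 0), sq_nonneg (a 1 - b 1)]

lemma crs_vv_ne {x : Pt} {a b : Option Pt} (hab : a ≠ b) (ha : a ≠ some x) (hb : b ≠ some x) :
    crs (vv x a) (vv x b) ≠ 0 := by
  intro h0
  have e0 := congrFun h0 0
  have e1 := congrFun h0 1
  have e2 := congrFun h0 2
  cases a with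
  | none =>
    cases b with
    | none => exact hab rfl
    | some z =>
      simp [crs, vv] at e0 e1
      exact hb (congrArg some (pt_ext (by linarith) (by linarith)))
  | some y =>
    cases b with
    | none =>
      simp [crs, vv] at e0 e1
      exact ha (congrArg some (pt_ext (by linarith) (by linarith)))
    | some z =>
      simp only [crs, vv, Matrix.cons_val_zero, Matrix.cons_val_one, Matrix.cons_val, Pi.zero_apply] at e0 e1 e2
      have p1 := sq_pos_of_ne (show y ≠ x from fun e => ha (congrArg some e))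
      have p2 := sq_pos_of_ne (show z ≠ x from fun e => hb (congrArg some e))
      set U := (y 0 - x 0) ^ 2 + (y 1 - x 1) ^ 2 with hU
      set W := (z 0 - x 0) ^ 2 + (z 1 - x 1) ^ 2 with hW
      have q : U * W * (W - U) = 0 := by
        have c1 : U * W ^ 2 = ((y 0 - x 0) * W) ^ 2 + ((y 1 - x 1) * W) ^ 2 := by rw [hU]; ring
        have c2 : W * U ^ 2 = (U * (z 0 - x 0)) ^ 2 + (U * (z 1 - x 1)) ^ 2 := by rw [hW]; ring
        have c3 : (y 0 - x 0) * W = U * (z 0 - x 0) := by linarith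
        have c4 : (y 1 - x 1) * W = U * (z 1 - x 1) := by linarith
        rw [c3, c4, ← c2] at c1
        linear_combination c1
      have q2 : W = U := by
        rcases mul_eq_zero.1 q with h | h
        · exact absurd h (mul_pos p1 p2).ne'
        · linarith
      rw [q2] at e0 e1
      apply hab
      congr 1
      apply pt_ext
      · apply mul_left_cancel₀ p1.ne'; linarith
      · apply mul_left_cancel₀ p1.ne'; linarith

lemma det_zero_of_orth {a b c φ : V3} (h : φ ≠ 0) (ha : dot a φ = 0) (hb : dot b φ = 0) (hc : dot c φ = 0) :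
    det3 a b c = 0 := by
  by_contra hd
  have k1 := key_id a b c φ ha hb
  have k2 := key_id a b φ φ ha hb
  rw [hc, mul_zero] at k1
  rw [(mul_eq_zero.1 k1.symm).resolve_right hd, zero_mul] at k2
  exact (mul_pos (dot_self_pos (crs_ne_of_det hd)) (dot_self_pos h)).ne' k2

lemma orth_of_det {a b c φ : V3} (h : crs a b ≠ 0) (ha : dot a φ = 0) (hb : dot b φ = 0)
    (hd : det3 a b c = 0) : dot c φ = 0 := by
  have k1 := key_id a b c φ ha hb
  rw [hd, mul_zero] at k1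
  exact (mul_eq_zero.1 k1).resolve_left (dot_self_pos h).ne'

lemma coef_zero {φ ψ : Fin 4 → ℝ} (hψ : ψ ≠ 0) (h0 : ψ 0 = 0) {β : Finset Pt} (h3 : 3 ≤ β.card)
    (h1 : ∀ p ∈ β, ev φ p = 0) (h2 : ∀ p ∈ β, ev ψ p = 0) : φ 0 = 0 := by
  obtain ⟨x, a, b, hx, ha, hb, hxa, hxb, hab⟩ := two_lt_card_iff.1 (show 2 < β.card from h3)
  rw [← dot_none φ x]
  apply orth_of_det (crs_vv_ne (x := x) (a := some a) (b := some b) (by simpa using hab)
    (by simpa using hxa.symm) (by simpa using hxb.symm))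
  · rw [dot_some, h1 a ha, h1 x hx, sub_zero]
  · rw [dot_some, h1 b hb, h1 x hx, sub_zero]
  · apply det_zero_of_orth (fx_ne hψ (h2 x hx))
    · rw [dot_some, h2 a ha, h2 x hx, sub_zero]
    · rw [dot_some, h2 b hb, h2 x hx, sub_zero]
    · rw [dot_none, h0]

lemma Ln_iff {P β : Finset Pt} (hβ : β ∈ Bl P) {φ : Fin 4 → ℝ} (hφ : φ ≠ 0) (h : ∀ p ∈ β, ev φ p = 0) :
    β ∈ Ln P ↔ φ 0 = 0 := by
  rw [mem_Ln]
  constructor
  · rintro ⟨-, ψ, h1, h2, h3⟩
    exact coef_zero h1 h2 (mem_Bl.1 hβ).1 h h3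
  · intro h0; exact ⟨hβ, φ, hφ, h0, h⟩

lemma vec_spec {P β : Finset Pt} (hβ : β ∈ Bl P) {x : Pt} (hx : x ∈ β) :
    ∃ w : V3, w ≠ 0 ∧ ∀ c ∈ Qx P x, (c ∈ Ex (Ln P) x β ↔ dot (vv x c) w = 0) := by
  obtain ⟨-, φ, hφ, h⟩ := mem_Bl.1 hβ
  have hx0 := ((h x).1 hx).2
  refine ⟨fx φ x, fx_ne hφ hx0, fun c hc => ?_⟩
  cases c with
  | none => rw [none_mem_Ex, dot_none, Ln_iff hβ hφ (fun p hp => ((h p).1 hp).2)]
  | some y =>
    rw [some_mem_Qx] at hc
    rw [some_mem_Ex, dot_some, hx0, sub_zero, h y]; tauto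

lemma Ex_sub {P β : Finset Pt} (hβ : β ∈ Bl P) (x : Pt) : Ex (Ln P) x β ⊆ Qx P x := by
  intro c hc
  cases c with
  | none => simp
  | some y =>
    rw [some_mem_Ex] at hc
    obtain ⟨-, φ, -, h⟩ := mem_Bl.1 hβ
    exact (some_mem_Qx _ _ _).2 ⟨hc.1, ((h y).1 hc.2).1⟩

lemma vec_iff {P β : Finset Pt} (hβ : β ∈ Bl P) {x : Pt} (hx : x ∈ β) {a b : Option Pt}
    (ha : a ∈ Ex (Ln P) x β) (hb : b ∈ Ex (Ln P) x β) (hab : a ≠ b) {c : Option Pt} (hc : c ∈ Qx P x) :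
    det3 (vv x a) (vv x b) (vv x c) = 0 ↔ c ∈ Ex (Ln P) x β := by
  obtain ⟨w, hw, h⟩ := vec_spec hβ hx
  have a1 := (h a (Ex_sub hβ x ha)).1 ha
  have a2 := (h b (Ex_sub hβ x hb)).1 hb
  rw [h c hc]
  exact ⟨orth_of_det (crs_vv_ne hab (by rintro rfl; simp at ha) (by rintro rfl; simp at hb)) a1 a2,
    det_zero_of_orth hw a1 a2⟩

lemma det_of_mem {P β : Finset Pt} (hβ : β ∈ Bl P) {x a b c : Pt} (hx : x ∈ β) (ha : a ∈ β) (hb : b ∈ β)
    (hc : c ∈ β) : det3 (vv x (some a)) (vv x (some b)) (vv x (some c)) = 0 := by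
  obtain ⟨-, φ, hφ, h⟩ := mem_Bl.1 hβ
  have e := fun p hp => ((h p).1 hp).2
  apply det_zero_of_orth (fx_ne hφ (e x hx)) <;> rw [dot_some, e x hx, sub_zero] <;> apply e <;> assumption

lemma det_of_mem_Ln {P β : Finset Pt} (hβ : β ∈ Ln P) {x a b : Pt} (hx : x ∈ β) (ha : a ∈ β) (hb : b ∈ β) :
    det3 (vv x (some a)) (vv x none) (vv x (some b)) = 0 := by
  obtain ⟨-, φ, hφ, h0, e⟩ := mem_Ln.1 hβ
  apply det_zero_of_orth (fx_ne hφ (e x hx))
  · rw [dot_some, e x hx, e a ha, sub_zero]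
  · rw [dot_none, h0]
  · rw [dot_some, e x hx, e b hb, sub_zero]

lemma exists_block {P : Finset Pt} {a b c : Pt} (ha : a ∈ P) (hb : b ∈ P) (hc : c ∈ P) (hab : a ≠ b)
    (hac : a ≠ c) (hbc : b ≠ c) : ∃ β ∈ Bl P, a ∈ β ∧ b ∈ β ∧ c ∈ β := by
  classical
  have hn := crs_vv_ne (x := a) (a := some b) (b := some c) (by simpa using hbc)
    (by simpa using hab.symm) (by simpa using hac.symm)
  set n := crs (vv a (some b)) (vv a (some c)) with hn'
  set φ : Fin 4 → ℝ := ![n 2, n 0 - 2 * n 2 * a 0, n 1 - 2 * n 2 * a 1,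
    -(n 2 * (a 0 ^ 2 + a 1 ^ 2) + (n 0 - 2 * n 2 * a 0) * a 0 + (n 1 - 2 * n 2 * a 1) * a 1)] with hφ
  have e1 : fx φ a = n := by
    ext i; fin_cases i <;> simp [fx, hφ]
  have e2 : ev φ a = 0 := by simp [ev, hφ]
  have e3 : ev φ b = 0 := by
    have := dot_some φ a b
    rw [e1, e2, hn', dot_crs, det3_aba] at this; linarith
  have e4 : ev φ c = 0 := by
    have := dot_some φ a c
    rw [e1, e2, hn', dot_crs, det3_abb] at this; linarith
  refine ⟨P.filter (fun p => ev φ p = 0), mem_Bl.2 ⟨?_, φ, ?_, fun p => mem_filter⟩, mem_filter.2 ⟨ha, e2⟩,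
    mem_filter.2 ⟨hb, e3⟩, mem_filter.2 ⟨hc, e4⟩⟩
  · exact two_lt_card_iff.2 ⟨a, b, c, mem_filter.2 ⟨ha, e2⟩, mem_filter.2 ⟨hb, e3⟩, mem_filter.2 ⟨hc, e4⟩,
      hab, hac, hbc⟩
  · intro h0; apply hn; rw [← e1, h0]; ext i; fin_cases i <;> simp [fx]

lemma dist_sq_pt (a b : Pt) : dist a b ^ 2 = (a 0 - b 0) ^ 2 + (a 1 - b 1) ^ 2 := by
  rw [EuclideanSpace.dist_eq, Real.sq_sqrt (by positivity), Fin.sum_univ_two, Real.dist_eq, Real.dist_eq,
    sq_abs, sq_abs]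

noncomputable def ctr (φ : Fin 4 → ℝ) : Pt := !₂[- φ 1 / (2 * φ 0), - φ 2 / (2 * φ 0)]

lemma ev_ctr {φ : Fin 4 → ℝ} (h : φ 0 ≠ 0) (p q : Pt) :
    ev φ p - ev φ q = φ 0 * (dist p (ctr φ) ^ 2 - dist q (ctr φ) ^ 2) := by
  rw [dist_sq_pt, dist_sq_pt]
  simp [ev, ctr]
  field_simp
  ring

lemma ev_zero_iff {φ : Fin 4 → ℝ} (h : φ 0 ≠ 0) {q : Pt} (hq : ev φ q = 0) (p : Pt) :
    ev φ p = 0 ↔ dist p (ctr φ) = dist q (ctr φ) := by
  have := ev_ctr h p q
  rw [hq, sub_zero] at this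
  rw [this, mul_eq_zero, sub_eq_zero, sq_eq_sq₀ dist_nonneg dist_nonneg]
  simp [h]

lemma cospherical_of {φ : Fin 4 → ℝ} (h : φ 0 ≠ 0) {S : Set Pt} (hS : ∀ p ∈ S, ev φ p = 0) :
    EuclideanGeometry.Cospherical S := by
  rcases S.eq_empty_or_nonempty with rfl | ⟨q, hq⟩
  · exact EuclideanGeometry.cospherical_empty
  · exact ⟨ctr φ, dist q (ctr φ), fun p hp => (ev_zero_iff h (hS q hq) p).1 (hS p hp)⟩

lemma collinear_of {φ : Fin 4 → ℝ} (hφ : φ ≠ 0) (h : φ 0 = 0) {S : Set Pt} (hS : ∀ p ∈ S, ev φ p = 0) :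
    Collinear ℝ S := by
  rcases S.eq_empty_or_nonempty with rfl | ⟨q, hq⟩
  · exact collinear_empty ℝ _
  rw [collinear_iff_of_mem hq]
  have hne : 0 < φ 1 ^ 2 + φ 2 ^ 2 := by
    have := dot_self_pos (fx_ne hφ (hS q hq))
    simp [dot, fx, h] at this
    nlinarith
  refine ⟨!₂[- φ 2, φ 1], fun p hp => ⟨((p 1 - q 1) * φ 1 - (p 0 - q 0) * φ 2) / (φ 1 ^ 2 + φ 2 ^ 2), ?_⟩⟩
  have e : φ 1 * (p 0 - q 0) + φ 2 * (p 1 - q 1) = 0 := by
    have a1 := hS p hp
    have a2 := hS q hq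
    simp only [ev, h] at a1 a2
    linarith
  apply pt_ext
  · simp; field_simp; linear_combination (φ 1) * e
  · simp; field_simp; linear_combination (φ 2) * e

noncomputable def cx (p : Pt) : ℂ := ⟨p 0, p 1⟩
noncomputable def ph (u : ℂ) : ℂ := u / (starRingEnd ℂ) u

lemma cx_sub_ne {a b : Pt} (h : a ≠ b) : cx a - cx b ≠ 0 := by
  intro h0
  apply h
  have := sub_eq_zero.1 h0
  exact pt_ext (congrArg Complex.re this) (congrArg Complex.im this)

lemma ph_mul (u w : ℂ) : ph (u * w) = ph u * ph w := by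
  simp [ph, div_mul_div_comm]

lemma ph_neg (u : ℂ) : ph (-u) = ph u := by simp [ph]

lemma ph_ne {u : ℂ} (h : u ≠ 0) : ph u ≠ 0 := by simp [ph, h]

lemma ph_eq_iff {u w : ℂ} (hu : u ≠ 0) (hw : w ≠ 0) : ph u = ph w ↔ u.im * w.re - u.re * w.im = 0 := by
  unfold ph
  rw [div_eq_div_iff (by simpa using hu) (by simpa using hw), Complex.ext_iff]
  simp only [Complex.mul_re, Complex.mul_im, Complex.conj_re, Complex.conj_im]
  constructor
  · intro h; linarith [h.2]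
  · intro h; constructor <;> linarith

lemma cyc_iff {a b c d : Pt} (h1 : a ≠ b) (h2 : b ≠ c) (h3 : c ≠ d) (h4 : d ≠ a) :
    ph (cx a - cx b) * ph (cx c - cx d) = ph (cx b - cx c) * ph (cx d - cx a) ↔
      det3 (vv a (some b)) (vv a (some c)) (vv a (some d)) = 0 := by
  rw [← ph_mul, ← ph_mul, ph_eq_iff (mul_ne_zero (cx_sub_ne h1) (cx_sub_ne h3))
    (mul_ne_zero (cx_sub_ne h2) (cx_sub_ne h4))]
  simp only [cx, det3, vv, Complex.mul_re, Complex.mul_im, Complex.sub_re, Complex.sub_im,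
    Matrix.cons_val_zero, Matrix.cons_val_one, Matrix.cons_val]
  constructor
  · intro h; linear_combination h
  · intro h; linear_combination h

lemma col_iff {a b c : Pt} (h1 : a ≠ b) (h2 : a ≠ c) :
    ph (cx a - cx b) = ph (cx a - cx c) ↔ det3 (vv a (some b)) (vv a none) (vv a (some c)) = 0 := by
  rw [ph_eq_iff (cx_sub_ne h1) (cx_sub_ne h2)]
  simp only [cx, det3, vv, Complex.sub_re, Complex.sub_im,
    Matrix.cons_val_zero, Matrix.cons_val_one, Matrix.cons_val]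
  constructor
  · intro h; linear_combination h
  · intro h; linear_combination h

theorem geo_of {P : Finset Pt} (h3 : 3 ≤ P.card) (hc : ¬ Collinear ℝ (P : Set Pt))
    (hs : ¬ EuclideanGeometry.Cospherical (P : Set Pt)) : Geo P (Bl P) (Ln P) := by
  have hsub : ∀ β ∈ Bl P, β ⊆ P := fun β hβ p hp => by
    obtain ⟨-, φ, -, h⟩ := mem_Bl.1 hβ; exact ((h p).1 hp).1
  refine ⟨h3, hsub, fun β hβ => (mem_Bl.1 hβ).1, fun a ha b hb c hc hab hac hbc =>
    exists_block ha hb hc hab hac hbc, fun β hβ => (mem_Ln.1 hβ).1, ?_, ?_, ?_⟩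
  · intro β hβ
    by_contra hn
    push Not at hn
    obtain ⟨-, φ, hφ, h⟩ := mem_Bl.1 hβ
    have e : ∀ p ∈ (P : Set Pt), ev φ p = 0 := fun p hp => ((h p).1 (hn p hp)).2
    by_cases h0 : φ 0 = 0
    · exact hc (collinear_of hφ h0 e)
    · exact hs (cospherical_of h0 e)
  · intro x _
    exact ⟨vv x, fun β hβ hx a ha b hb hab c hc => vec_iff hβ hx ha hb hab hc⟩
  · refine ⟨fun a b => ph (cx a - cx b), fun a b => by beta_reduce; rw [← ph_neg, neg_sub],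
      fun a b h => ph_ne (cx_sub_ne h), ?_, ?_, ?_, ?_⟩
    · intro β hβ a ha b hb c hc d hd h1 h2 h3 h4
      exact (cyc_iff h1 h2 h3 h4).2 (det_of_mem hβ ha hb hc hd)
    · intro β hβ a ha b hb c hc d hd h1 h2 h5 h3 h4 h
      have := (vec_iff hβ ha (a := some b) (b := some c) (c := some d) (by simp [h1.symm, hb])
        (by simp [h5.symm, hc]) (by simpa using h2) (by simp [h4, hd])).1 ((cyc_iff h1 h2 h3 h4).1 h)
      exact ((some_mem_Ex _ _ _ _).1 this).2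
    · intro β hβ a ha b hb c hc h1 h2
      exact (col_iff h1 h2).2 (det_of_mem_Ln hβ ha hb hc)
    · intro β hβ a ha b hb c hc h1 h2 h
      have := (vec_iff (mem_Ln.1 hβ).1 ha (a := some b) (b := none) (c := some c) (by simp [h1.symm, hb])
        (by simp [hβ]) (by simp) (by simp [h2.symm, hc])).1 ((col_iff h1 h2).1 h)
      exact ((some_mem_Ex _ _ _ _).1 this).2

def sphφ (s : EuclideanGeometry.Sphere Pt) : Fin 4 → ℝ :=
  ![1, -2 * s.center 0, -2 * s.center 1, s.center 0 ^ 2 + s.center 1 ^ 2 - s.radius ^ 2]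

lemma ev_sph (s : EuclideanGeometry.Sphere Pt) (p : Pt) :
    ev (sphφ s) p = dist p s.center ^ 2 - s.radius ^ 2 := by
  rw [dist_sq_pt]; simp [ev, sphφ]; ring

lemma sphφ_ne (s : EuclideanGeometry.Sphere Pt) : sphφ s ≠ 0 := by
  intro h; have := congrFun h 0; simp [sphφ] at this

lemma mem_sph_iff {s : EuclideanGeometry.Sphere Pt} (hr : 0 ≤ s.radius) (p : Pt) :
    p ∈ s ↔ ev (sphφ s) p = 0 := by
  rw [ev_sph, EuclideanGeometry.mem_sphere, sub_eq_zero, sq_eq_sq₀ dist_nonneg hr]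

theorem count_eq (P : Finset Pt) :
    Set.ncard {s : EuclideanGeometry.Sphere Pt | 3 ≤ ((P : Set Pt) ∩ (s : Set Pt)).ncard} =
      (Bl P \ Ln P).card := by
  classical
  have key : ∀ s : EuclideanGeometry.Sphere Pt, ((P : Set Pt) ∩ (s : Set Pt)).ncard =
      (P.filter (fun p => p ∈ s)).card := by
    intro s; rw [← Set.ncard_coe_finset]; congr 1; ext p
    simp only [Set.mem_inter_iff, mem_coe, mem_filter, EuclideanGeometry.Sphere.mem_coe]
  have rad : ∀ s : EuclideanGeometry.Sphere Pt, 3 ≤ (P.filter (fun p => p ∈ s)).card → 0 ≤ s.radius := by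
    intro s hs
    obtain ⟨p, hp⟩ := card_pos.1 (show 0 < (P.filter (fun p => p ∈ s)).card by omega)
    rw [← EuclideanGeometry.mem_sphere.1 (mem_filter.1 hp).2]; exact dist_nonneg
  rw [← Set.ncard_coe_finset]
  apply Set.ncard_congr (fun s _ => P.filter (fun p => p ∈ s))
  · intro s hs
    rw [Set.mem_ofPred_eq, key] at hs
    have hB : P.filter (fun p => p ∈ s) ∈ Bl P :=
      mem_Bl.2 ⟨hs, sphφ s, sphφ_ne s, fun p => by rw [mem_filter, mem_sph_iff (rad s hs)]⟩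
    rw [mem_coe, mem_sdiff, Ln_iff hB (sphφ_ne s) (fun p hp => (mem_sph_iff (rad s hs) p).1 (mem_filter.1 hp).2)]
    exact ⟨hB, by simp [sphφ]⟩
  · intro s t hs ht e
    rw [Set.mem_ofPred_eq, key] at hs ht
    have h1 : ∀ p ∈ P.filter (fun p => p ∈ s), ev (sphφ s) p = 0 :=
      fun p hp => (mem_sph_iff (rad s hs) p).1 (mem_filter.1 hp).2
    have h2 : ∀ p ∈ P.filter (fun p => p ∈ s), ev (sphφ t) p = 0 :=
      fun p hp => (mem_sph_iff (rad t ht) p).1 (mem_filter.1 (e ▸ hp)).2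
    have h3 : sphφ s - sphφ t = 0 := by
      by_contra hne
      have := coef_zero (φ := sphφ s) hne (by simp [sphφ]) hs h1 (fun p hp => by
        have a1 := h1 p hp
        have a2 := h2 p hp
        simp only [ev, Pi.sub_apply] at *
        linarith)
      simp [sphφ] at this
    have c0 := congrFun h3 1
    have c1 := congrFun h3 2
    have c2 := congrFun h3 3
    simp [sphφ] at c0 c1 c2
    have hc : s.center = t.center := pt_ext (by linarith) (by linarith)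
    rw [hc] at c2
    exact EuclideanGeometry.Sphere.ext hc ((sq_eq_sq₀ (rad s hs) (rad t ht)).1 (by linarith))
  · intro β hβ
    rw [mem_coe, mem_sdiff] at hβ
    obtain ⟨h3, φ, hφ, h⟩ := mem_Bl.1 hβ.1
    have h0 : φ 0 ≠ 0 := fun h0 => hβ.2 ((Ln_iff hβ.1 hφ (fun p hp => ((h p).1 hp).2)).2 h0)
    obtain ⟨q, hq⟩ := card_pos.1 (show 0 < β.card by omega)
    have e : P.filter (fun p => p ∈ (⟨ctr φ, dist q (ctr φ)⟩ : EuclideanGeometry.Sphere Pt)) = β := by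
      ext p
      rw [mem_filter, h p, EuclideanGeometry.mem_sphere, ev_zero_iff h0 ((h q).1 hq).2]
    exact ⟨⟨ctr φ, dist q (ctr φ)⟩, by rw [Set.mem_ofPred_eq, key, e]; exact h3, e⟩

lemma exists_of_collinear {S : Set Pt} (h : Collinear ℝ S) : ∃ φ ≠ 0, ∀ p ∈ S, ev φ p = 0 := by
  obtain ⟨q, w, h⟩ := (collinear_iff_exists_forall_eq_smul_vadd S).1 h
  by_cases hw : w = 0
  · refine ⟨![0, 1, 0, - q 0], fun h0 => by simpa using congrFun h0 1, fun p hp => ?_⟩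
    obtain ⟨r, rfl⟩ := h p hp
    simp [ev, hw]
  · refine ⟨![0, w 1, - w 0, w 0 * q 1 - w 1 * q 0], fun h0 => hw (pt_ext ?_ ?_), fun p hp => ?_⟩
    · simpa using congrFun h0 2
    · simpa using congrFun h0 1
    · obtain ⟨r, rfl⟩ := h p hp
      simp [ev]; ring

lemma exists_of_cospherical {S : Set Pt} (h : EuclideanGeometry.Cospherical S) :
    ∃ φ ≠ 0, ∀ p ∈ S, ev φ p = 0 := by
  obtain ⟨c, r, h⟩ := h
  refine ⟨sphφ ⟨c, r⟩, sphφ_ne _, fun p hp => ?_⟩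
  rw [ev_sph, h p hp]; simp

lemma admissible_of {S : Set Pt} {x a b c : Pt} (hx : x ∈ S) (ha : a ∈ S) (hb : b ∈ S) (hc : c ∈ S)
    (h : det3 (vv x (some a)) (vv x (some b)) (vv x (some c)) ≠ 0) :
    ¬ Collinear ℝ S ∧ ¬ EuclideanGeometry.Cospherical S := by
  have key : ¬ ∃ φ ≠ 0, ∀ p ∈ S, ev φ p = 0 := by
    rintro ⟨φ, hφ, e⟩
    apply h
    apply det_zero_of_orth (fx_ne hφ (e x hx)) <;> rw [dot_some, e x hx, sub_zero] <;> apply e <;> assumption
  exact ⟨fun h => key (exists_of_collinear h), fun h => key (exists_of_cospherical h)⟩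

end Pool.Agent.MP_1f1ca1_co
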