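import Pool.Agent.Mg.F1f1ca1.Gf71bbe

/-! Linear programming bounds when at least three points lie off a largest block. -/

set_option autoImplicit false
set_option linter.unusedSectionVars false

namespace Pool.Agent.MP_1f1ca1_co
open Finset

variable {α : Type} [DecidableEq α] {P : Finset α} {B L : Finset (Finset α)}

/-- right-hand side of the bound for a largest block of size `m` with `k` points off it -/
def midR (m k : ℤ) : ℤ :=
  36 * (m + 2) + (6 * m + 24) * m * (m - 4) + 6 * (m + 1) * m * (m - 1) * k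
    + 3 * (m + 4) * m * k * (k - 1) + 6 * k * (k - 1) * (k - 2) + 3 * m * (2 * m + 16)
    + 3 * k * (8 * m + 4) + 4 * (m + 2) * (m + k) * (4 - (m + k))

lemma FF_mid (M i j e : ℤ) (hi0 : 0 ≤ i) (hi : i ≤ 2) (he0 : 0 ≤ e) (h3 : 3 ≤ i + j)
    (hM : i + j ≤ M) :
    0 ≤ FF (36 * (M + 2)) (6 * (M + 1)) (3 * (M + 4)) 6 (2 * M + 16) (8 * M + 4) (4 * (M + 2))
      (4 * (M + 2)) 0 i j e := by
  have a : 0 ≤ e * (4 * (M + 2) * ((i + j) ^ 2 - 9)) :=
    mul_nonneg he0 (mul_nonneg (by linarith) (by nlinarith))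
  unfold FF
  interval_cases i
  · have b : 0 ≤ (j - 3) * (j * (2 * M + 2 - j) - 2 * (M + 2)) :=
      mul_nonneg (by linarith) (by nlinarith)
    linear_combination a + 6 * b
  · have b : 0 ≤ (j - 2) * ((j - 1) * (9 * M - 6 * j)) :=
      mul_nonneg (by linarith) (mul_nonneg (by linarith) (by linarith))
    linear_combination a + b
  · have c : 0 ≤ (j - 1) * (j - 2) := by
      rcases le_or_gt j 1 with h | h <;> nlinarith
    have b : 0 ≤ (j - 1) * (j - 2) * (M - 2 - j) := mul_nonneg c (by linarith)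
    linear_combination a + 6 * b

lemma Geo.boundM (H : Geo P B L) {C : Finset α} (hC : C ∈ B) (hmax : ∀ β ∈ B, β.card ≤ C.card) :
    midR C.card (P \ C).card ≤ 36 * ((C.card : ℤ) + 2) * (B \ L).card := by
  have h3 : (3 : ℤ) ≤ C.card := by exact_mod_cast H.three C hC
  have := H.masterC hC hmax (36 * ((C.card : ℤ) + 2)) (6 * ((C.card : ℤ) + 1))
    (3 * ((C.card : ℤ) + 4)) 6 (2 * (C.card : ℤ) + 16) (8 * (C.card : ℤ) + 4)
    (4 * ((C.card : ℤ) + 2)) (4 * ((C.card : ℤ) + 2)) 0 (by linarith) (by linarith) (by linarith)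
    (by linarith) le_rfl (fun i j e hi _ h3 hM _ => FF_mid _ _ _ _ (Nat.cast_nonneg i)
      (by exact_mod_cast hi) (Nat.cast_nonneg e) (by exact_mod_cast h3) (by exact_mod_cast hM))
  have a : 0 ≤ 4 * ((C.card : ℤ) + 2) * ((C.card : ℤ) ^ 2 - 9) :=
    mul_nonneg (by linarith) (by nlinarith)
  unfold FF RR at this
  unfold midR
  split_ifs at this
  · linear_combination this + a
  · linear_combination this

lemma polyM (m k : ℤ) (h3 : 3 ≤ m) (hm : m ≤ k) (hn : 37 ≤ m + k) :
    36 * (m + 2) * (2 * (m + k - 2) ^ 2 - 5 * (m + k - 3)) < 2 * midR m k := by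
  unfold midR
  by_cases h : 14 ≤ m
  · obtain ⟨u, rfl⟩ : ∃ u, m = 14 + u := ⟨m - 14, by ring⟩
    obtain ⟨t, rfl⟩ : ∃ t, k = 14 + u + t := ⟨k - 14 - u, by ring⟩
    have hu : 0 ≤ u := by linarith
    have ht : 0 ≤ t := by linarith
    have : 0 < 12096 + 16672 * t + 700 * t ^ 2 + 12 * t ^ 3 + 45044 * u + 7136 * u * t
      + 148 * u * t ^ 2 + 9840 * u ^ 2 + 766 * u ^ 2 * t + 6 * u ^ 2 * t ^ 2 + 730 * u ^ 3
      + 24 * u ^ 3 * t + 18 * u ^ 4 := by positivity
    linear_combination this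
  · obtain ⟨u, rfl⟩ : ∃ u, k = 37 - m + u := ⟨k - 37 + m, by ring⟩
    have hu : 0 ≤ u := by linarith
    have h2 := pow_nonneg hu 2
    have h3' := pow_nonneg hu 3
    have : m < 14 := not_le.1 h
    interval_cases m <;> nlinarith

lemma polyA2 (m k : ℤ) (h3 : 3 ≤ k) (hm : k ≤ m) (hn : 36 ≤ m + k) :
    4 * (m + k - 2) ^ 2 - 10 * (m + k - 3) < 4 + m * k * (2 * m - k - 3) := by
  by_cases h : 18 ≤ k
  · obtain ⟨u, rfl⟩ : ∃ u, k = 18 + u := ⟨k - 18, by ring⟩
    obtain ⟨t, rfl⟩ : ∃ t, m = 18 + u + t := ⟨m - 18 - u, by ring⟩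
    have hu : 0 ≤ u := by linarith
    have ht : 0 ≤ t := by linarith
    have : 0 < 570 + 340 * u + 35 * u ^ 2 + u ^ 3 + 656 * t + 89 * u * t + 3 * u ^ 2 * t
      + 32 * t ^ 2 + 2 * u * t ^ 2 := by positivity
    linear_combination this
  · obtain ⟨u, rfl⟩ : ∃ u, m = 36 - k + u := ⟨m - 36 + k, by ring⟩
    have hu : 0 ≤ u := by linarith
    have h2 := pow_nonneg hu 2
    have : k < 18 := not_le.1 h
    interval_cases k <;> nlinarith

/-- the bound when at least three points lie off a largest block -/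
lemma Geo.far (H : Geo P B L) (hn : 36 ≤ P.card) {C : Finset α} (hC : C ∈ B)
    (hmax : ∀ β ∈ B, β.card ≤ C.card) (hk : C.card + 3 ≤ P.card) :
    ((P.card : ℤ) - 2) ^ 2 + 1 - 5 * ((P.card - 2) / 2 : ℕ) ≤ (B \ L).card := by
  have e := card_sdiff_add_card_eq_card (H.sub C hC)
  have h3 := H.three C hC
  have e' : (C.card : ℤ) + (P \ C).card = P.card := by omega
  by_cases hm : (P \ C).card ≤ C.card
  · have hA := H.boundA hC
    have hp := polyA2 C.card (P \ C).card (by omega) (by omega) (by omega)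
    rw [e'] at hp
    have : (3 : ℤ) * 3 ≤ C.card * (P \ C).card :=
      mul_le_mul (by omega) (by omega) (by norm_num) (by omega)
    have : 4 * ((P.card : ℤ) - 2) ^ 2 - 10 * (P.card - 3) < 4 * (B \ L).card := by
      split_ifs at hA <;> nlinarith
    omega
  have hM := H.boundM hC hmax
  by_cases h37 : 37 ≤ P.card
  · have hp := polyM C.card (P \ C).card (by omega) (by omega) (by omega)
    rw [e'] at hp
    have hD : (0 : ℤ) ≤ 36 * ((C.card : ℤ) + 2) := by positivity
    have : 2 * ((P.card : ℤ) - 2) ^ 2 - 5 * (P.card - 3) < 2 * (B \ L).card := by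
      apply lt_of_mul_lt_mul_left _ hD
      linarith
    omega
  · have h36 : P.card = 36 := by omega
    rw [h36]
    by_cases h8 : C.card ≤ 8
    · have hB := H.boundB (M := 8) (by norm_num) fun β hβ => (hmax β hβ).trans h8
      rw [h36] at hB
      norm_num at hB ⊢
      omega
    · have hk' : ((P \ C).card : ℤ) = 36 - C.card := by omega
      rw [hk'] at hM
      have h18 : C.card < 18 := by omega
      have h9 : 9 ≤ C.card := by omega
      unfold midR at hM
      generalize C.card = m at hM h18 h9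
      interval_cases m <;> norm_num at hM ⊢ <;> omega

end Pool.Agent.MP_1f1ca1_co
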