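import Pool.Agent.MP_1f1ca1_co.Gap1

/-! The exact count when two points lie off a circle. -/

set_option autoImplicit false
set_option linter.unusedSectionVars false

namespace Pool.Agent.MP_1f1ca1_co
open Finset

variable {α : Type} [DecidableEq α] {P : Finset α} {B L : Finset (Finset α)}

/-- points of `C` on a chord through `y` -/
def Ml (L : Finset (Finset α)) (C : Finset α) (y : α) : Finset α :=
  (L.filter fun β => y ∈ β ∧ (β ∩ C).card = 2).biUnion fun β => β ∩ C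

/-- points of `C` on a circle through `p`, `q` and two points of `C` -/
def Mc (B L : Finset (Finset α)) (C : Finset α) (p q : α) : Finset α :=
  ((B \ L).filter fun β => p ∈ β ∧ q ∈ β ∧ (β ∩ C).card = 2).biUnion fun β => β ∩ C

/-- points of `C` on the line through `p` and `q` -/
def Me (L : Finset (Finset α)) (C : Finset α) (p q : α) : Finset α :=
  (L.filter fun β => p ∈ β ∧ q ∈ β).biUnion fun β => β ∩ C

lemma mem_Ml {C : Finset α} {y u : α} :
    u ∈ Ml L C y ↔ ∃ β ∈ L, y ∈ β ∧ (β ∩ C).card = 2 ∧ u ∈ β ∧ u ∈ C := by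
  simp only [Ml, mem_biUnion, mem_filter, mem_inter]; tauto

lemma mem_Mc {C : Finset α} {p q u : α} :
    u ∈ Mc B L C p q ↔ ∃ β ∈ B, β ∉ L ∧ p ∈ β ∧ q ∈ β ∧ (β ∩ C).card = 2 ∧ u ∈ β ∧ u ∈ C := by
  simp only [Mc, mem_biUnion, mem_filter, mem_inter, mem_sdiff]; tauto

lemma mem_Me {C : Finset α} {p q u : α} :
    u ∈ Me L C p q ↔ ∃ β ∈ L, p ∈ β ∧ q ∈ β ∧ u ∈ β ∧ u ∈ C := by
  simp only [Me, mem_biUnion, mem_filter, mem_inter]; tauto

lemma Geo.card_Ml (H : Geo P B L) {C : Finset α} {y : α} (hy : y ∉ C) :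
    (Ml L C y).card = 2 * (L.filter fun β => y ∈ β ∧ (β ∩ C).card = 2).card := by
  rw [Ml, card_biUnion, sum_congr rfl (g := fun _ => 2) fun β hβ => (mem_filter.1 hβ).2.2,
    sum_const, smul_eq_mul, mul_comm]
  intro β hβ γ hγ hne
  rw [mem_coe, mem_filter] at hβ hγ
  refine disjoint_left.2 fun u h1 h2 => hne ?_
  rw [mem_inter] at h1 h2
  exact H.luniq hβ.1 hγ.1 (fun e : y = u => hy (e ▸ h1.2)) hβ.2.1 h1.1 hγ.2.1 h2.1

lemma Geo.card_Mc (H : Geo P B L) {C : Finset α} {p q : α} (hp : p ∉ C) (hq : q ∉ C)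
    (hpq : p ≠ q) : (Mc B L C p q).card =
      2 * ((B \ L).filter fun β => p ∈ β ∧ q ∈ β ∧ (β ∩ C).card = 2).card := by
  rw [Mc, card_biUnion, sum_congr rfl (g := fun _ => 2) fun β hβ => (mem_filter.1 hβ).2.2.2,
    sum_const, smul_eq_mul, mul_comm]
  intro β hβ γ hγ hne
  rw [mem_coe, mem_filter, mem_sdiff] at hβ hγ
  refine disjoint_left.2 fun u h1 h2 => hne ?_
  rw [mem_inter] at h1 h2
  exact H.uniq hβ.1.1 hγ.1.1 hpq (fun e : p = u => hp (e ▸ h1.2)) (fun e : q = u => hq (e ▸ h1.2))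
    hβ.2.1 hβ.2.2.1 h1.1 hγ.2.1 hγ.2.2.1 h2.1

lemma Geo.card_Me (H : Geo P B L) {C : Finset α} {p q : α} (hpq : p ≠ q) :
    (Me L C p q).card = ∑ β ∈ L.filter fun β => p ∈ β ∧ q ∈ β, (β ∩ C).card := by
  rw [Me, card_biUnion]
  intro β hβ γ hγ hne
  rw [mem_coe, mem_filter] at hβ hγ
  exact (hne (H.luniq hβ.1 hγ.1 hpq hβ.2.1 hβ.2.2 hγ.2.1 hγ.2.2)).elim

lemma sum_sub_filter {S : Finset (Finset α)} (hS : S ⊆ B) (R : Finset α → Prop) [DecidablePred R]
    (f : Finset α → ℤ) :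
    ∑ β ∈ S.filter R, f β = ∑ β ∈ B, if β ∈ S ∧ R β then f β else 0 := by
  rw [← sum_filter]
  refine sum_congr ?_ fun _ _ => rfl
  ext β
  simp only [mem_filter]
  exact ⟨fun h => ⟨hS h.1, h⟩, fun h => h.2⟩

/-- the exact count -/
lemma Geo.two (H : Geo P B L) {C : Finset α} (hC : C ∈ B) (hCL : C ∉ L) {p q : α} (hpq : p ≠ q)
    (hP : P \ C = {p, q}) :
    2 * (B \ L).card + (Ml L C p).card + (Ml L C q).card + 3 * (Mc B L C p q).card
      + 2 * (Me L C p q).card = 2 + 2 * C.card ^ 2 := by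
  have hp : p ∈ P \ C := by rw [hP]; simp
  have hq : q ∈ P \ C := by rw [hP]; simp
  rw [mem_sdiff] at hp hq
  have hCP := H.sub C hC
  have dd : ∀ y, y ∉ C → ∀ β : Finset α, Disjoint (β ∩ C) (β ∩ {y}) := fun y hy β =>
    (disjoint_singleton_right.2 hy).mono inter_subset_right inter_subset_right
  have t1 := H.N3_sum hCP hCP (singleton_subset_iff.2 hp.1)
  have t2 := H.N3_sum hCP hCP (singleton_subset_iff.2 hq.1)
  simp only [N3_AAB (dd p hp.2 _), N3_AAB (disjoint_singleton_right.2 hp.2), card_singleton] at t1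
  simp only [N3_AAB (dd q hq.2 _), N3_AAB (disjoint_singleton_right.2 hq.2), card_singleton] at t2
  have t3 := H.pair_sum hp.1 hq.1 hpq hCP hp.2 hq.2
  have t4 : ∑ β ∈ B, (if β = C then (1 : ℤ) else 0) = 1 := by
    rw [sum_ite_eq', if_pos hC]
  rw [H.card_Ml hp.2, H.card_Ml hq.2, H.card_Mc hp.2 hq.2 hpq, H.card_Me hpq]
  have c0 : ((B \ L).card : ℤ) = ∑ β ∈ B, if β ∈ L then 0 else 1 := by
    rw [sum_ite, sum_const_zero, zero_add, sum_const, sdiff_eq_filter]; simp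
  have cc : ∀ (S : Finset (Finset α)), (S.card : ℤ) = ∑ β ∈ S, 1 := fun S => by simp
  have c1 := cc (L.filter fun β => p ∈ β ∧ (β ∩ C).card = 2)
  have c2 := cc (L.filter fun β => q ∈ β ∧ (β ∩ C).card = 2)
  have c3 := cc ((B \ L).filter fun β => p ∈ β ∧ q ∈ β ∧ (β ∩ C).card = 2)
  have c4 := Nat.cast_sum (R := ℤ) (L.filter fun β => p ∈ β ∧ q ∈ β) fun β => (β ∩ C).card
  rw [sum_sub_filter H.lsub] at c1 c2 c4
  rw [sum_sub_filter (S := B \ L) sdiff_subset] at c3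
  have key : ∑ β ∈ B, (2 * (if β ∈ L then (0 : ℤ) else 1)
      + 2 * (if β ∈ L ∧ p ∈ β ∧ (β ∩ C).card = 2 then 1 else 0)
      + 2 * (if β ∈ L ∧ q ∈ β ∧ (β ∩ C).card = 2 then 1 else 0)
      + 3 * (2 * (if β ∈ B \ L ∧ p ∈ β ∧ q ∈ β ∧ (β ∩ C).card = 2 then 1 else 0))
      + 2 * (if β ∈ L ∧ p ∈ β ∧ q ∈ β then ((β ∩ C).card : ℤ) else 0)) =
      ∑ β ∈ B, (2 * (if β = C then (1 : ℤ) else 0)
      + ((β ∩ C).card : ℤ) * ((β ∩ C).card - 1) * (β ∩ {p}).card
      + ((β ∩ C).card : ℤ) * ((β ∩ C).card - 1) * (β ∩ {q}).card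
      + 2 * (if p ∈ β ∧ q ∈ β then ((β ∩ C).card : ℤ) else 0)) := by
    refine sum_congr rfl fun β hβ => ?_
    by_cases hβC : β = C
    · subst hβC
      simp [hCL, hp.2, hq.2]
    have h2 := H.inter_le_two hβ hC hβC
    have h3 := H.three β hβ
    have h4 := H.split hCP hβ
    rw [hP] at h4
    generalize (β ∩ C).card = i at h2 h4 ⊢
    by_cases a1 : p ∈ β <;> by_cases a2 : q ∈ β
    · have : (β ∩ {p, q}).card = 2 := by
        rw [inter_eq_right.2 (by simp [insert_subset_iff, a1, a2]), card_pair hpq]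
      have : i = 1 ∨ i = 2 := by omega
      by_cases a3 : β ∈ L <;> rcases this with rfl | rfl <;> simp [a1, a2, a3, hβC, hβ]
    · have : (β ∩ {p, q}).card = 1 := by simp [a1, a2]
      obtain rfl : i = 2 := by omega
      by_cases a3 : β ∈ L <;> simp [a1, a2, a3, hβC]
    · have : (β ∩ {p, q}).card = 1 := by simp [a1, a2]
      obtain rfl : i = 2 := by omega
      by_cases a3 : β ∈ L <;> simp [a1, a2, a3, hβC]
    · have : (β ∩ {p, q}).card = 0 := by simp [a1, a2]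
      omega
  simp only [sum_add_distrib, ← mul_sum] at key
  rw [t1, t2, t3, t4, ← c0, ← c1, ← c2, ← c3, ← c4] at key
  generalize (L.filter fun β => p ∈ β ∧ (β ∩ C).card = 2).card = x1 at key ⊢
  generalize (L.filter fun β => q ∈ β ∧ (β ∩ C).card = 2).card = x2 at key ⊢
  generalize ((B \ L).filter fun β => p ∈ β ∧ q ∈ β ∧ (β ∩ C).card = 2).card = x3 at key ⊢
  generalize (∑ β ∈ L.filter fun β => p ∈ β ∧ q ∈ β, (β ∩ C).card) = x4 at key ⊢
  zify
  push_cast at key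
  linear_combination key

lemma Geo.two_upper (H : Geo P B L) {C : Finset α} (hC : C ∈ B) (hCL : C ∉ L) {p q : α}
    (hpq : p ≠ q) (hP : P \ C = {p, q}) (h1 : C.card ≤ (Ml L C p).card + 1)
    (h2 : C.card ≤ (Ml L C q).card + 1) (h3 : C.card ≤ (Mc B L C p q).card + 1) :
    (B \ L).card + 5 * (C.card / 2) ≤ C.card ^ 2 + 1 := by
  have hp : p ∈ P \ C := by rw [hP]; simp
  have hq : q ∈ P \ C := by rw [hP]; simp
  rw [mem_sdiff] at hp hq
  have e := H.two hC hCL hpq hP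
  have e1 := H.card_Ml hp.2
  have e2 := H.card_Ml hq.2
  have e3 := H.card_Mc hp.2 hq.2 hpq
  omega

lemma Geo.two_lower (H : Geo P B L) {C : Finset α} (hC : C ∈ B) (hCL : C ∉ L) {p q : α}
    (hpq : p ≠ q) (hP : P \ C = {p, q})
    (hK : ∀ z ∈ C, Me L C p q = {z} → Ml L C p = C.erase z → Ml L C q = C.erase z →
      Mc B L C p q = C.erase z → False) :
    C.card ^ 2 + 1 ≤ (B \ L).card + 5 * (C.card / 2) := by
  have hp : p ∈ P \ C := by rw [hP]; simp
  have hq : q ∈ P \ C := by rw [hP]; simp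
  rw [mem_sdiff] at hp hq
  have e := H.two hC hCL hpq hP
  have e1 := H.card_Ml hp.2
  have e2 := H.card_Ml hq.2
  have e3 := H.card_Mc hp.2 hq.2 hpq
  have s1 : ∀ y, Ml L C y ⊆ C := fun y u hu => by
    obtain ⟨β, -, -, -, -, h⟩ := mem_Ml.1 hu; exact h
  have s3 : Mc B L C p q ⊆ C := fun u hu => by
    obtain ⟨β, -, -, -, -, -, -, h⟩ := mem_Mc.1 hu; exact h
  have s4 : Me L C p q ⊆ C := fun u hu => by
    obtain ⟨β, -, -, -, -, h⟩ := mem_Me.1 hu; exact h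
  have hd : Disjoint (Mc B L C p q) (Me L C p q) := by
    refine disjoint_left.2 fun u h1 h2 => ?_
    obtain ⟨β, a1, a2, a3, a4, -, a5, a6⟩ := mem_Mc.1 h1
    obtain ⟨γ, b1, b2, b3, b4, -⟩ := mem_Me.1 h2
    exact a2 (H.uniq a1 (H.lsub b1) hpq (fun e : p = u => hp.2 (e ▸ a6))
      (fun e : q = u => hq.2 (e ▸ a6)) a3 a4 a5 b2 b3 b4 ▸ b1)
  have l1 := card_le_card (s1 p)
  have l2 := card_le_card (s1 q)
  have l3 := card_le_card (union_subset s3 s4)
  rw [card_union_of_disjoint hd] at l3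
  by_contra hc
  have a4 : (Me L C p q).card = 1 := by omega
  obtain ⟨z, hz⟩ := card_eq_one.1 a4
  have hzm : z ∈ Me L C p q := by rw [hz]; exact mem_singleton_self z
  have hzC := s4 hzm
  have ce := card_erase_add_one hzC
  obtain ⟨γ, b1, b2, b3, b4, -⟩ := mem_Me.1 hzm
  have nz : ∀ y ∈ γ, y ∉ C → z ∉ Ml L C y := by
    intro y hy hyC h
    obtain ⟨β, a1, a2, a3, a5, -⟩ := mem_Ml.1 h
    have : β = γ := H.luniq a1 b1 (fun e : y = z => hyC (e ▸ hzC)) a2 a5 hy b4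
    subst this
    have : β ∩ C ⊆ Me L C p q := fun u hu =>
      mem_Me.2 ⟨β, b1, b2, b3, (mem_inter.1 hu).1, (mem_inter.1 hu).2⟩
    have := card_le_card this
    omega
  refine hK z hzC hz ?_ ?_ ?_
  · exact eq_of_subset_of_card_le (subset_erase.2 ⟨s1 p, nz p b2 hp.2⟩) (by omega)
  · exact eq_of_subset_of_card_le (subset_erase.2 ⟨s1 q, nz q b3 hq.2⟩) (by omega)
  · exact eq_of_subset_of_card_le (subset_erase.2 ⟨s3, fun h => disjoint_left.1 hd h hzm⟩)
      (by omega)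

lemma ext_mul {ι : Type} {A : Finset ι} (hA : A.Nonempty) (Y : ι → ℝ) :
    ∃ r : ℝ, ∀ c : ℝ, (∀ u ∈ A, ∃ u' ∈ A, Y u * Y u' = c) → |c| = r := by
  obtain ⟨a, ha, h1⟩ := exists_max_image A (fun u => |Y u|) hA
  obtain ⟨b, hb, h2⟩ := exists_min_image A (fun u => |Y u|) hA
  refine ⟨|Y a| * |Y b|, fun c hc => le_antisymm ?_ ?_⟩
  · obtain ⟨u, hu, rfl⟩ := hc b hb
    rw [abs_mul, mul_comm]
    exact mul_le_mul_of_nonneg_right (h1 u hu) (abs_nonneg _)
  · obtain ⟨u, hu, rfl⟩ := hc a ha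
    rw [abs_mul]
    exact mul_le_mul_of_nonneg_left (h2 u hu) (abs_nonneg _)

lemma ext_add {ι : Type} {A : Finset ι} (hA : A.Nonempty) (X : ι → ℝ) :
    ∃ r : ℝ, ∀ c : ℝ, (∀ u ∈ A, ∃ u' ∈ A, X u + X u' = c) → c = r := by
  obtain ⟨a, ha, h1⟩ := exists_max_image A X hA
  obtain ⟨b, hb, h2⟩ := exists_min_image A X hA
  refine ⟨X a + X b, fun c hc => le_antisymm ?_ ?_⟩
  · obtain ⟨u, hu, rfl⟩ := hc b hb
    linarith [h1 u hu]
  · obtain ⟨u, hu, rfl⟩ := hc a ha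
    linarith [h2 u hu]

/-- two points of a line on a circle through two points of the first axis -/
lemma chord_alg {a b d A Bc Cc D P₁ P₂ X Y X' Y' : ℝ} (hd : d ≠ 0)
    (l1 : a * X + b * Y + d = 0) (l2 : a * X' + b * Y' + d = 0)
    (c1 : A * (X ^ 2 + Y ^ 2) + Bc * X + Cc * Y + D = 0)
    (c2 : A * (X' ^ 2 + Y' ^ 2) + Bc * X' + Cc * Y' + D = 0)
    (r1 : A * P₁ ^ 2 + Bc * P₁ + D = 0) (r2 : A * P₂ ^ 2 + Bc * P₂ + D = 0) (hP : P₁ ≠ P₂)
    (hA : A ≠ 0) (hne : ¬ (X = X' ∧ Y = Y')) :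
    (a ≠ 0 → Y * Y' = (a * P₁ + d) * (a * P₂ + d) / (a ^ 2 + b ^ 2)) ∧
      (a = 0 → X + X' = P₁ + P₂) := by
  have hB : Bc = -A * (P₁ + P₂) := by
    apply mul_left_cancel₀ (sub_ne_zero.2 hP)
    linear_combination r1 - r2
  have hD : D = A * (P₁ * P₂) := by
    rw [hB] at r1
    linear_combination r1
  subst hB hD
  constructor
  · intro ha
    have hY : Y ≠ Y' := by
      rintro rfl
      exact hne ⟨mul_left_cancel₀ ha (by linear_combination l1 - l2), rfl⟩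
    have hpos : a ^ 2 + b ^ 2 ≠ 0 := by positivity
    rw [eq_div_iff hpos]
    apply mul_left_cancel₀ (mul_ne_zero hA (sub_ne_zero.2 hY))
    have e1 : X = -(b * Y + d) / a := by field_simp; linear_combination l1
    have e2 : X' = -(b * Y' + d) / a := by field_simp; linear_combination l2
    rw [e1] at c1
    rw [e2] at c2
    field_simp at c1 c2
    linear_combination Y' * c1 - Y * c2
  · rintro rfl
    have hb : b ≠ 0 := by
      rintro rfl
      exact hd (by linear_combination l1)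
    have hY : Y = Y' := mul_left_cancel₀ hb (by linear_combination l1 - l2)
    subst hY
    have hX : X ≠ X' := fun e => hne ⟨e, rfl⟩
    apply mul_left_cancel₀ (mul_ne_zero hA (sub_ne_zero.2 hX))
    linear_combination c1 - c2

end Pool.Agent.MP_1f1ca1_co
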