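import Pool.Agent.MP_1f1ca1_co.Gap2

/-! Three matchings of a circle with one common unmatched point cannot coexist. -/

set_option autoImplicit false

namespace Pool.Agent.MP_1f1ca1_co
open Finset

/-- squared distance -/
def iN (z u : Pt) : ℝ := (u 0 - z 0) ^ 2 + (u 1 - z 1) ^ 2

/-- first coordinate after inversion at `z`, along the direction of `p` -/
noncomputable def iX (z p u : Pt) : ℝ :=
  ((u 0 - z 0) * (p 0 - z 0) + (u 1 - z 1) * (p 1 - z 1)) / iN z u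

/-- second coordinate after inversion at `z` -/
noncomputable def iY (z p u : Pt) : ℝ :=
  ((u 0 - z 0) * (p 1 - z 1) - (u 1 - z 1) * (p 0 - z 0)) / iN z u

def cB (φ : Fin 4 → ℝ) (z p : Pt) : ℝ :=
  (φ 1 + 2 * φ 0 * z 0) * (p 0 - z 0) + (φ 2 + 2 * φ 0 * z 1) * (p 1 - z 1)

def cC (φ : Fin 4 → ℝ) (z p : Pt) : ℝ :=
  (φ 1 + 2 * φ 0 * z 0) * (p 1 - z 1) - (φ 2 + 2 * φ 0 * z 1) * (p 0 - z 0)

lemma iN_ne {z u : Pt} (h : u ≠ z) : iN z u ≠ 0 := (sq_pos_of_ne h).ne'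

lemma inv_ev (φ : Fin 4 → ℝ) {z p u : Pt} (hp : p ≠ z) (hu : u ≠ z) :
    ev φ z * (iX z p u ^ 2 + iY z p u ^ 2) + cB φ z p * iX z p u + cC φ z p * iY z p u
      + φ 0 * iN z p = 0 ↔ ev φ u = 0 := by
  have h1 := iN_ne hp
  have h2 := iN_ne hu
  have e : ev φ z * (iX z p u ^ 2 + iY z p u ^ 2) + cB φ z p * iX z p u + cC φ z p * iY z p u
      + φ 0 * iN z p = ev φ u * iN z p / iN z u := by
    unfold iX iY
    field_simp
    unfold iN cB cC ev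
    ring
  rw [e, div_eq_zero_iff, mul_eq_zero]
  tauto

lemma inv_norm {z p u : Pt} (hu : u ≠ z) :
    (iX z p u ^ 2 + iY z p u ^ 2) * iN z u = iN z p := by
  have h2 := iN_ne hu
  unfold iX iY
  field_simp
  unfold iN
  ring

lemma inv_inj {z p u v : Pt} (hp : p ≠ z) (hu : u ≠ z) (hv : v ≠ z) (h1 : iX z p u = iX z p v)
    (h2 : iY z p u = iY z p v) : u = v := by
  have n1 := inv_norm (p := p) hu
  have n2 := inv_norm (p := p) hv
  have hN : iN z u = iN z v := by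
    rw [h1, h2] at n1
    have : iX z p v ^ 2 + iY z p v ^ 2 ≠ 0 := fun h => iN_ne hp (by rw [← n2, h, zero_mul])
    exact mul_left_cancel₀ this (n1.trans n2.symm)
  unfold iX at h1
  unfold iY at h2
  rw [hN, div_left_inj' (iN_ne hv)] at h1 h2
  have hd := iN_ne hp
  unfold iN at hd
  apply pt_ext
  · apply mul_left_cancel₀ hd
    linear_combination (p 0 - z 0) * h1 + (p 1 - z 1) * h2
  · apply mul_left_cancel₀ hd
    linear_combination (p 1 - z 1) * h1 - (p 0 - z 0) * h2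

lemma iX_self {z p : Pt} (hp : p ≠ z) : iX z p p = 1 := by
  unfold iX
  rw [div_eq_one_iff_eq (iN_ne hp)]
  unfold iN
  ring

lemma iY_self (z p : Pt) : iY z p p = 0 := by
  unfold iY
  rw [div_eq_zero_iff]
  left
  ring

theorem klein {P C : Finset Pt} (hC : C ∈ Bl P) (hCL : C ∉ Ln P) {p q z : Pt} (hpq : p ≠ q)
    (hp : p ∈ P) (hpC : p ∉ C) (hq : q ∈ P) (hqC : q ∉ C) (hz : z ∈ C)
    (h0 : Me (Ln P) C p q = {z}) (h1 : Ml (Ln P) C p = C.erase z)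
    (h2 : Ml (Ln P) C q = C.erase z) (h3 : Mc (Bl P) (Ln P) C p q = C.erase z) : False := by
  have hpz : p ≠ z := fun e => hpC (e ▸ hz)
  have hqz : q ≠ z := fun e => hqC (e ▸ hz)
  obtain ⟨hC3, φ, hφ, hφC⟩ := mem_Bl.1 hC
  have hφ0 : φ 0 ≠ 0 := fun h => hCL ((Ln_iff hC hφ fun x hx => ((hφC x).1 hx).2).2 h)
  have hφz : ev φ z = 0 := ((hφC z).1 hz).2
  -- the line through `p`, `q`, `z`
  obtain ⟨γ, hγ, g1, g2, g3, -⟩ := mem_Me.1 (h0 ▸ mem_singleton_self z : z ∈ Me (Ln P) C p q)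
  obtain ⟨-, ψ, hψ, hψ0, hψγ⟩ := mem_Ln.1 hγ
  have eB : cB ψ z p = 0 := by
    have := (inv_ev ψ hpz hpz).2 (hψγ p g1)
    rw [hψγ z g3, hψ0, iX_self hpz, iY_self] at this
    linear_combination this
  have eC : cC ψ z p ≠ 0 := by
    intro eC
    have hd := iN_ne hpz
    unfold cB at eB
    unfold cC at eC
    unfold iN at hd
    apply fx_ne hψ (hψγ z g3)
    ext i
    fin_cases i
    · apply mul_left_cancel₀ hd
      simp only [fx, Fin.zero_eta, Matrix.cons_val_zero, Pi.zero_apply]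
      linear_combination (p 0 - z 0) * eB + (p 1 - z 1) * eC
    · apply mul_left_cancel₀ hd
      simp only [fx, Fin.mk_one, Matrix.cons_val_one, Matrix.cons_val_zero, Pi.zero_apply]
      linear_combination (p 1 - z 1) * eB - (p 0 - z 0) * eC
    · simp [fx, hψ0]
  have hYq : iY z p q = 0 := by
    have := (inv_ev ψ hpz hqz).2 (hψγ q g2)
    rw [hψγ z g3, hψ0, eB] at this
    exact mul_left_cancel₀ eC (by linear_combination this)
  set l := iX z p q with hl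
  have l0 : (0 : ℝ) ≠ l := by
    intro h
    have := inv_norm (p := p) hqz
    rw [hYq, ← hl, ← h] at this
    exact iN_ne hpz (by linear_combination -this)
  have l1 : (1 : ℝ) ≠ l := fun h =>
    hpq (inv_inj hpz hpz hqz (by rw [iX_self hpz, h]) (by rw [iY_self, hYq]))
  set a := cB φ z p with ha
  set b := cC φ z p with hb
  set d := φ 0 * iN z p with hd
  have d0 : d ≠ 0 := mul_ne_zero hφ0 (iN_ne hpz)
  have d1 : a * 1 + d ≠ 0 := by
    intro h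
    refine hpC ((hφC p).2 ⟨hp, (inv_ev φ hpz hpz).1 ?_⟩)
    rw [hφz, iX_self hpz, iY_self]
    linear_combination h
  have d2 : a * l + d ≠ 0 := by
    intro h
    refine hqC ((hφC q).2 ⟨hq, (inv_ev φ hpz hqz).1 ?_⟩)
    rw [hφz, hYq]
    linear_combination h
  have onC : ∀ u ∈ C.erase z, a * iX z p u + b * iY z p u + d = 0 := by
    intro u hu
    rw [mem_erase] at hu
    have := (inv_ev φ hpz hu.1).2 ((hφC u).1 hu.2).2
    rw [hφz] at this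
    linear_combination this
  let R : Pt → ℝ → ℝ → Prop := fun u P₁ P₂ => ∃ u' ∈ C.erase z, (a ≠ 0 → iY z p u * iY z p u' =
    (a * P₁ + d) * (a * P₂ + d) / (a ^ 2 + b ^ 2)) ∧ (a = 0 → iX z p u + iX z p u' = P₁ + P₂)
  have mat : ∀ (β : Finset Pt) (u : Pt) (P₁ P₂ : ℝ), β ∈ Bl P → (β ∩ C).card = 2 → u ∈ β → u ∈ C →
      (∀ v ∈ β, v ∈ C → v ∈ C.erase z) → P₁ ≠ P₂ →
      (∀ χ : Fin 4 → ℝ, χ ≠ 0 → (∀ x ∈ β, ev χ x = 0) →
        ev χ z * P₁ ^ 2 + cB χ z p * P₁ + χ 0 * iN z p = 0 ∧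
        ev χ z * P₂ ^ 2 + cB χ z p * P₂ + χ 0 * iN z p = 0) → R u P₁ P₂ := by
    intro β u P₁ P₂ hβ hc hu huC hs hP hr
    obtain ⟨v, hv, hvu⟩ := exists_mem_ne (s := β ∩ C) (by omega) u
    rw [mem_inter] at hv
    obtain ⟨-, χ, hχ, hχβ⟩ := mem_Bl.1 hβ
    have u1 := hs u hu huC
    have v1 := hs v hv.1 hv.2
    obtain ⟨r1, r2⟩ := hr χ hχ fun x hx => ((hχβ x).1 hx).2
    refine ⟨v, v1, chord_alg d0 (onC u u1) (onC v v1)
      ((inv_ev χ hpz (mem_erase.1 u1).1).2 ((hχβ u).1 hu).2)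
      ((inv_ev χ hpz (mem_erase.1 v1).1).2 ((hχβ v).1 hv.1).2) r1 r2 hP (fun h => ?_)
      fun h => hvu (inv_inj hpz (mem_erase.1 u1).1 (mem_erase.1 v1).1 h.1 h.2).symm⟩
    exact (mem_erase.1 (hs z ((hχβ z).2 ⟨((hφC z).1 hz).1, h⟩) hz)).1 rfl
  have rp : ∀ χ : Fin 4 → ℝ, ev χ p = 0 →
      ev χ z * 1 ^ 2 + cB χ z p * 1 + χ 0 * iN z p = 0 := by
    intro χ h
    have := (inv_ev χ hpz hpz).2 h
    rw [iX_self hpz, iY_self] at this
    linear_combination this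
  have rq : ∀ χ : Fin 4 → ℝ, ev χ q = 0 →
      ev χ z * l ^ 2 + cB χ z p * l + χ 0 * iN z p = 0 := by
    intro χ h
    have := (inv_ev χ hpz hqz).2 h
    rw [hYq] at this
    linear_combination this
  have m1 : ∀ u ∈ C.erase z, R u 0 1 := fun u hu => by
    obtain ⟨β, b1, b2, b3, b4, b5⟩ := mem_Ml.1 (h1 ▸ hu : u ∈ Ml (Ln P) C p)
    exact mat β u 0 1 (mem_Ln.1 b1).1 b3 b4 b5
      (fun v v1 v2 => h1 ▸ mem_Ml.2 ⟨β, b1, b2, b3, v1, v2⟩) zero_ne_one fun χ c1 c2 =>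
        ⟨by rw [(Ln_iff (mem_Ln.1 b1).1 c1 c2).1 b1]; ring, rp χ (c2 p b2)⟩
  have m2 : ∀ u ∈ C.erase z, R u 0 l := fun u hu => by
    obtain ⟨β, b1, b2, b3, b4, b5⟩ := mem_Ml.1 (h2 ▸ hu : u ∈ Ml (Ln P) C q)
    exact mat β u 0 l (mem_Ln.1 b1).1 b3 b4 b5
      (fun v v1 v2 => h2 ▸ mem_Ml.2 ⟨β, b1, b2, b3, v1, v2⟩) l0 fun χ c1 c2 =>
        ⟨by rw [(Ln_iff (mem_Ln.1 b1).1 c1 c2).1 b1]; ring, rq χ (c2 q b2)⟩
  have m3 : ∀ u ∈ C.erase z, R u 1 l := fun u hu => by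
    obtain ⟨β, b0, b1, b2, b2', b3, b4, b5⟩ := mem_Mc.1 (h3 ▸ hu : u ∈ Mc (Bl P) (Ln P) C p q)
    exact mat β u 1 l b0 b3 b4 b5
      (fun v v1 v2 => h3 ▸ mem_Mc.2 ⟨β, b0, b1, b2, b2', b3, v1, v2⟩) l1 fun χ _ c2 =>
        ⟨rp χ (c2 p b2), rq χ (c2 q b2')⟩
  have hne : (C.erase z).Nonempty := card_pos.1 (by have := card_erase_add_one hz; omega)
  by_cases a0 : a = 0
  · obtain ⟨r, hr⟩ := ext_add hne (iX z p)
    have e1 := hr _ fun u hu => (m1 u hu).imp fun _ h => ⟨h.1, h.2.2 a0⟩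
    have e2 := hr _ fun u hu => (m2 u hu).imp fun _ h => ⟨h.1, h.2.2 a0⟩
    exact l1 (by linarith)
  · obtain ⟨r, hr⟩ := ext_mul hne (iY z p)
    have e1 := hr _ fun u hu => (m1 u hu).imp fun _ h => ⟨h.1, h.2.1 a0⟩
    have e2 := hr _ fun u hu => (m2 u hu).imp fun _ h => ⟨h.1, h.2.1 a0⟩
    have e3 := hr _ fun u hu => (m3 u hu).imp fun _ h => ⟨h.1, h.2.1 a0⟩
    have hk : |a ^ 2 + b ^ 2| ≠ 0 := by positivity
    rw [abs_div, abs_mul, div_eq_iff hk, mul_zero, zero_add] at e1 e2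
    rw [abs_div, abs_mul, div_eq_iff hk] at e3
    have f1 : |a * 1 + d| = |a * l + d| :=
      mul_left_cancel₀ (abs_ne_zero.2 d0) (e1.trans e2.symm)
    have f2 : |d| = |a * 1 + d| := mul_right_cancel₀ (abs_ne_zero.2 d2) (e2.trans e3.symm)
    have n1 : a * 1 ≠ a * l := fun h => l1 (mul_left_cancel₀ a0 h)
    have n2 : a * 0 ≠ a * l := fun h => l0 (mul_left_cancel₀ a0 h)
    rcases abs_eq_abs.1 f1 with k1 | k1
    · exact n1 (by linarith)
    · rcases abs_eq_abs.1 f2 with k2 | k2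
      · exact a0 (by linarith)
      · exact n2 (by linarith)

end Pool.Agent.MP_1f1ca1_co
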