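import Pool.Agent.MP_1f1ca1_co.Gap3

/-! The second extremal value: lower bound and construction. -/

set_option autoImplicit false

namespace Pool.Agent.MP_1f1ca1_co
open Finset

theorem second_lower {P : Finset Pt} (H : Geo P (Bl P) (Ln P)) (hn : 36 ≤ P.card)
    (hb : ∀ β ∈ Bl P, β.card ≤ P.card - 2) :
    (P.card - 2) ^ 2 + 1 ≤ (Bl P \ Ln P).card + 5 * ((P.card - 2) / 2) := by
  obtain ⟨C, hC, hmax⟩ := H.exists_max
  by_cases hk : C.card + 3 ≤ P.card
  · have h := H.far hn hC hmax hk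
    have e : ((P.card - 2 : ℕ) : ℤ) = (P.card : ℤ) - 2 := by omega
    generalize (P.card - 2) / 2 = t at h ⊢
    zify
    rw [e]
    linarith
  have h1 := hb C hC
  have h2 := card_sdiff_add_card_eq_card (H.sub C hC)
  have e : P.card - 2 = C.card := by omega
  have e2 : (P \ C).card = 2 := by omega
  rw [e]
  by_cases hCL : C ∈ Ln P
  · have hA := H.boundA hC
    rw [if_pos hCL, e2] at hA
    have h3 : C.card ≤ 2 * (C.card / 2) + 1 := by omega
    have h4 : 34 ≤ C.card := by omega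
    generalize C.card / 2 = t at h3 ⊢
    zify at h3 h4 ⊢
    push_cast at hA
    nlinarith
  · obtain ⟨p, q, hpq, hP⟩ := card_eq_two.1 e2
    have hp : p ∈ P \ C := by rw [hP]; simp
    have hq : q ∈ P \ C := by rw [hP]; simp
    rw [mem_sdiff] at hp hq
    exact H.two_lower hC hCL hpq hP fun z hz => klein hC hCL hpq hp.1 hp.2 hq.1 hq.2 hz

lemma exists_roots (m : ℕ) (hm : 5 ≤ m) : ∃ (R : Finset ℂ) (ω : ℂ), R.card = m ∧
    (∀ w ∈ R, w.re ^ 2 + w.im ^ 2 = 1) ∧ ω.re ^ 2 + ω.im ^ 2 = 1 ∧ ω.im ≠ 0 ∧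
    ∀ o : ℂ, o = ω ∨ o = (starRingEnd ℂ) ω ∨ o = 1 → ∃ ξ : ℂ, ∀ w ∈ R, w ≠ ξ →
      o * (starRingEnd ℂ) w ∈ R ∧ o * (starRingEnd ℂ) w ≠ w := by
  classical
  obtain ⟨ζ, hζ⟩ : ∃ ζ : ℂ, IsPrimitiveRoot ζ m := ⟨_, Complex.isPrimitiveRoot_exp m (by omega)⟩
  have hm0 : 0 < m := by omega
  have nrm : ∀ w : ℂ, w ^ (2 * m) = 1 → w.re ^ 2 + w.im ^ 2 = 1 ∧ w * (starRingEnd ℂ) w = 1 := by
    intro w hw
    have h1 := Complex.norm_eq_one_of_pow_eq_one hw (by omega)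
    have h2 : Complex.normSq w = 1 := by rw [Complex.normSq_eq_norm_sq, h1]; norm_num
    refine ⟨by rw [← h2, Complex.normSq_apply]; ring, ?_⟩
    rw [Complex.mul_conj, h2]; simp
  have hR : ∀ w : ℂ, w ∈ Polynomial.nthRootsFinset m ((-1 : ℂ) ^ (m + 1)) ↔
      w ^ m = (-1) ^ (m + 1) := fun w => Polynomial.mem_nthRootsFinset hm0 _
  have hR2 : ∀ w : ℂ, w ^ m = (-1) ^ (m + 1) → w ^ (2 * m) = 1 := by
    intro w hw
    rw [mul_comm, pow_mul, hw, ← pow_mul, mul_comm, pow_mul]; simp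
  have hω : (ζ ^ 2) ^ (2 * m) = 1 := by
    rw [← pow_mul, ← mul_assoc, mul_comm, pow_mul, hζ.pow_eq_one, one_pow]
  have key : ∀ ξ : ℂ, ξ ^ m = 1 → ∀ w ∈ Polynomial.nthRootsFinset m ((-1 : ℂ) ^ (m + 1)),
      w ≠ ξ → ξ ^ 2 * (starRingEnd ℂ) w ∈ Polynomial.nthRootsFinset m ((-1 : ℂ) ^ (m + 1)) ∧
        ξ ^ 2 * (starRingEnd ℂ) w ≠ w := by
    intro ξ hξ w hw hne
    rw [hR] at hw ⊢
    constructor
    · rw [mul_pow, ← pow_mul, mul_comm 2 m, pow_mul, hξ, ← map_pow, hw]; simp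
    · intro h
      have h1 := (nrm w (hR2 w hw)).2
      have h2 : w ^ 2 = ξ ^ 2 := by linear_combination ξ ^ 2 * h1 - w * h
      rcases sq_eq_sq_iff_eq_or_eq_neg.1 h2 with h3 | h3
      · exact hne h3
      · rw [h3, neg_pow, hξ, pow_succ] at hw
        have h4 : ((-1 : ℂ) ^ m) ≠ 0 := pow_ne_zero _ (by norm_num)
        have := mul_left_cancel₀ h4 hw
        norm_num at this
  refine ⟨Polynomial.nthRootsFinset m ((-1 : ℂ) ^ (m + 1)), ζ ^ 2, ?_,
    fun w hw => (nrm w (hR2 w ((hR w).1 hw))).1, (nrm _ hω).1, fun h => ?_, ?_⟩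
  · rw [Polynomial.nthRootsFinset_def, Multiset.toFinset_card_of_nodup
      (hζ.nthRoots_nodup (pow_ne_zero _ (by norm_num))), hζ.card_nthRoots,
      if_pos (IsAlgClosed.exists_pow_nat_eq _ hm0)]
  · have h1 := (nrm _ hω).2
    rw [Complex.conj_eq_iff_im.2 h, ← pow_add] at h1
    have := Nat.le_of_dvd (by norm_num) (hζ.dvd_of_pow_eq_one _ h1)
    omega
  · rintro o (rfl | rfl | rfl)
    · exact ⟨ζ, key ζ hζ.pow_eq_one⟩
    · refine ⟨(starRingEnd ℂ) ζ, ?_⟩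
      rw [map_pow]
      exact key _ (by rw [← map_pow, hζ.pow_eq_one, map_one])
    · refine ⟨1, ?_⟩
      have := key 1 (one_pow m)
      rwa [one_pow] at this

/-- image of a point under the inversion with centre `(1, 0)`, translated to the origin -/
noncomputable def pt (x y : ℝ) : Pt :=
  !₂[(x - 1) / ((x - 1) ^ 2 + y ^ 2), y / ((x - 1) ^ 2 + y ^ 2)]

lemma ev_pt (φ : Fin 4 → ℝ) {x y : ℝ} (h : (x - 1) ^ 2 + y ^ 2 ≠ 0) :
    ev φ (pt x y) = 0 ↔ φ 0 + φ 1 * (x - 1) + φ 2 * y + φ 3 * ((x - 1) ^ 2 + y ^ 2) = 0 := by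
  have e : ev φ (pt x y) = (φ 0 + φ 1 * (x - 1) + φ 2 * y + φ 3 * ((x - 1) ^ 2 + y ^ 2)) /
      ((x - 1) ^ 2 + y ^ 2) := by
    simp only [ev, pt, Matrix.cons_val_zero, Matrix.cons_val_one]
    field_simp
  rw [e, div_eq_zero_iff]
  tauto

lemma pt_inj {x y x' y' : ℝ} (h : (x - 1) ^ 2 + y ^ 2 ≠ 0) (h' : (x' - 1) ^ 2 + y' ^ 2 ≠ 0)
    (e : pt x y = pt x' y') : x = x' ∧ y = y' := by
  have a := (ev_pt ![1, 0, 0, -1 / ((x - 1) ^ 2 + y ^ 2)] h).2 (by simp; field_simp; ring)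
  rw [e, ev_pt _ h'] at a
  have hD : (x - 1) ^ 2 + y ^ 2 = (x' - 1) ^ 2 + y' ^ 2 := by
    simp at a
    field_simp at a
    linear_combination a
  have e0 := congrArg (fun p : Pt => p 0) e
  have e1 := congrArg (fun p : Pt => p 1) e
  simp only [pt, Matrix.cons_val_zero, Matrix.cons_val_one] at e0 e1
  rw [hD, div_left_inj' h'] at e0 e1
  exact ⟨by linarith, e1⟩

lemma blk_of {P C : Finset Pt} (H : Geo P (Bl P) (Ln P)) (hC : C ∈ Bl P) {ψ : Fin 4 → ℝ}
    (hψ : ψ ≠ 0) {y u v : Pt} (hy : y ∈ P) (hyC : y ∉ C) (hu : u ∈ C) (hv : v ∈ C) (huv : v ≠ u)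
    (e1 : ev ψ y = 0) (e2 : ev ψ u = 0) (e3 : ev ψ v = 0) :
    ∃ β ∈ Bl P, (∀ x, x ∈ β ↔ x ∈ P ∧ ev ψ x = 0) ∧ (β ∩ C).card = 2 := by
  classical
  have hs := H.sub C hC
  have m1 : y ∈ P.filter fun x => ev ψ x = 0 := mem_filter.2 ⟨hy, e1⟩
  have m2 : u ∈ P.filter fun x => ev ψ x = 0 := mem_filter.2 ⟨hs hu, e2⟩
  have m3 : v ∈ P.filter fun x => ev ψ x = 0 := mem_filter.2 ⟨hs hv, e3⟩
  have hβ : (P.filter fun x => ev ψ x = 0) ∈ Bl P :=
    mem_Bl.2 ⟨two_lt_card_iff.2 ⟨y, u, v, m1, m2, m3, fun e => hyC (e ▸ hu),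
      fun e => hyC (e ▸ hv), huv.symm⟩, ψ, hψ, fun _ => mem_filter⟩
  refine ⟨_, hβ, fun _ => mem_filter, le_antisymm
    (H.inter_le_two hβ hC fun e => hyC (e ▸ m1)) ?_⟩
  exact one_lt_card.2 ⟨v, mem_inter.2 ⟨m3, hv⟩, u, mem_inter.2 ⟨m2, hu⟩, huv⟩

theorem second_upper (m : ℕ) (hm : 5 ≤ m) : ∃ P : Finset Pt, P.card = m + 2 ∧
    (∀ β ∈ Bl P, β.card ≤ m) ∧ (Bl P \ Ln P).card + 5 * (m / 2) ≤ m ^ 2 + 1 := by
  obtain ⟨R, ω, hR, hn, hω, hs, hinv⟩ := exists_roots m hm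
  have D1 : ∀ w ∈ R, (2 * w.re - 1) ^ 2 + (2 * w.im) ^ 2 ≠ 0 := fun w hw => by
    have := hn w hw
    nlinarith [sq_nonneg (w.re - 1), sq_nonneg w.im]
  have D2 : ∀ x y : ℝ, y ≠ 0 → (x - 1) ^ 2 + y ^ 2 ≠ 0 := fun x y hy => by positivity
  have hs' : -ω.im ≠ 0 := neg_ne_zero.2 hs
  set f : ℂ → Pt := fun w => pt (2 * w.re) (2 * w.im) with hf
  have finj : Set.InjOn f R := fun w hw w' hw' e => by
    have := pt_inj (D1 w hw) (D1 w' hw') e
    exact Complex.ext (by linarith [this.1]) (by linarith [this.2])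
  set C := R.image f with hCdef
  have hCc : C.card = m := by rw [hCdef, card_image_of_injOn finj, hR]
  set p := pt ω.re ω.im with hp
  set q := pt ω.re (-ω.im) with hq
  have hpq : p ≠ q := fun e => hs (by linarith [(pt_inj (D2 _ _ hs) (D2 _ _ hs') e).2])
  set φ : Fin 4 → ℝ := ![-3, 2, 0, 1] with hφdef
  have hφ : φ ≠ 0 := fun h => by simpa [hφdef] using congrFun h 1
  have onC : ∀ u ∈ C, ev φ u = 0 := by
    intro u hu
    obtain ⟨w, hw, rfl⟩ := mem_image.1 hu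
    rw [hf, ev_pt _ (D1 w hw)]
    simp only [hφdef, Matrix.cons_val_zero, Matrix.cons_val_one, Matrix.cons_val]
    linear_combination 4 * hn w hw
  have off : ∀ x y : ℝ, y ≠ 0 → x ^ 2 + y ^ 2 = 1 → ev φ (pt x y) ≠ 0 := by
    intro x y hy h
    rw [Ne, ev_pt _ (D2 x y hy)]
    simp only [hφdef, Matrix.cons_val_zero, Matrix.cons_val_one, Matrix.cons_val]
    intro h'
    have : (3 : ℝ) = 0 := by linear_combination h - h'
    norm_num at this
  have offp : ev φ p ≠ 0 := off _ _ hs hω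
  have offq : ev φ q ≠ 0 := off _ _ hs' (by rw [neg_sq]; exact hω)
  have hpC : p ∉ C := fun h => offp (onC p h)
  have hqC : q ∉ C := fun h => offq (onC q h)
  set P := insert p (insert q C) with hP
  have hPc : P.card = m + 2 := by
    rw [hP, card_insert_of_notMem (by simp [hpq, hpC]), card_insert_of_notMem hqC, hCc]
  have hCP : C ⊆ P := (subset_insert _ _).trans (subset_insert _ _)
  have hpP : p ∈ P := mem_insert_self _ _
  have hqP : q ∈ P := mem_insert_of_mem (mem_insert_self _ _)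
  have hC : C ∈ Bl P := by
    refine mem_Bl.2 ⟨by omega, φ, hφ, fun x => ⟨fun h => ⟨hCP h, onC x h⟩, fun h => ?_⟩⟩
    rcases mem_insert.1 h.1 with rfl | h'
    · exact (offp h.2).elim
    · rcases mem_insert.1 h' with rfl | h'
      · exact (offq h.2).elim
      · exact h'
  have hCL : C ∉ Ln P := by
    rw [Ln_iff hC hφ onC]
    simp [hφdef]
  have hPC : P \ C = {p, q} := by
    ext x
    simp only [hP, mem_sdiff, mem_insert, mem_singleton]
    constructor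
    · tauto
    · rintro (rfl | rfl) <;> tauto
  have H : Geo P (Bl P) (Ln P) := by
    obtain ⟨x, a, b, hx, ha, hb, hxa, hxb, hab⟩ := two_lt_card_iff.1 (show 2 < C.card by omega)
    have := admissible_of (S := (P : Set Pt)) (x := x) (a := a) (b := b) (c := p) (hCP hx)
      (hCP ha) (hCP hb) hpP fun hd => offp (by
        have := orth_of_det (φ := fx φ x) (crs_vv_ne (x := x) (a := some a) (b := some b)
          (by simpa using hab) (by simpa using hxa.symm) (by simpa using hxb.symm))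
          (by rw [dot_some, onC a ha, onC x hx, sub_zero])
          (by rw [dot_some, onC b hb, onC x hx, sub_zero]) hd
        rwa [dot_some, onC x hx, sub_zero] at this)
    exact geo_of (by omega) this.1 this.2
  have cnt : ∀ (M : Finset Pt) (ξ : ℂ), (∀ w ∈ R, w ≠ ξ → f w ∈ M) → C.card ≤ M.card + 1 := by
    classical
    intro M ξ h
    have h1 : (R.erase ξ).card ≤ M.card :=
      card_le_card_of_injOn f (fun w hw => h w (mem_erase.1 hw).2 (mem_erase.1 hw).1)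
        (finj.mono (coe_subset.2 (erase_subset _ _)))
    have h2 := pred_card_le_card_erase (s := R) (a := ξ)
    omega
  have line : ∀ o : ℂ, o.re ^ 2 + o.im ^ 2 = 1 → o.im ≠ 0 → pt o.re o.im ∈ P →
      pt o.re o.im ∉ C → (∃ ξ : ℂ, ∀ w ∈ R, w ≠ ξ →
        o * (starRingEnd ℂ) w ∈ R ∧ o * (starRingEnd ℂ) w ≠ w) →
      C.card ≤ (Ml (Ln P) C (pt o.re o.im)).card + 1 := by
    rintro o h1 h2 h3 h4 ⟨ξ, hξ⟩
    refine cnt _ ξ fun w hw hne => ?_
    obtain ⟨k1, k2⟩ := hξ w hw hne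
    set σ := -(o.im * (2 * w.re - 1) + (1 - o.re) * (2 * w.im)) with hσ
    set ψ : Fin 4 → ℝ := ![0, 3 * o.im + 2 * σ, 3 * (1 - o.re), σ] with hψdef
    have hψ : ψ ≠ 0 := fun h => by
      have h5 : 3 * (1 - o.re) = 0 := congrFun h 2
      have h6 : o.re = 1 := by linarith
      rw [h6] at h1
      exact h2 (pow_eq_zero_iff two_ne_zero |>.1 (by linarith))
    have e1 : ev ψ (pt o.re o.im) = 0 := by
      rw [ev_pt _ (D2 _ _ h2)]
      simp only [hψdef, Matrix.cons_val_zero, Matrix.cons_val_one, Matrix.cons_val]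
      linear_combination σ * h1
    have e2 : ev ψ (f w) = 0 := by
      rw [hf, ev_pt _ (D1 w hw)]
      simp only [hψdef, Matrix.cons_val_zero, Matrix.cons_val_one, Matrix.cons_val]
      linear_combination 4 * σ * hn w hw + 3 * hσ
    have e3 : ev ψ (f (o * (starRingEnd ℂ) w)) = 0 := by
      have k3 := hn _ k1
      rw [hf, ev_pt _ (D1 _ k1)]
      simp only [hψdef, Matrix.cons_val_zero, Matrix.cons_val_one, Matrix.cons_val]
      simp only [Complex.mul_re, Complex.mul_im, Complex.conj_re, Complex.conj_im] at k3 ⊢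
      linear_combination 4 * σ * k3 + 3 * hσ + 6 * w.im * h1
    obtain ⟨β, b1, b2, b3⟩ := blk_of H hC hψ h3 h4 (mem_image_of_mem f hw)
      (mem_image_of_mem f k1) (fun e => k2 (finj k1 hw e)) e1 e2 e3
    exact mem_Ml.2 ⟨β, (Ln_iff b1 hψ fun x hx => ((b2 x).1 hx).2).2 rfl, (b2 _).2 ⟨h3, e1⟩, b3,
      (b2 _).2 ⟨hCP (mem_image_of_mem f hw), e2⟩, mem_image_of_mem f hw⟩
  have u1 := line ω hω hs hpP hpC (hinv ω (Or.inl rfl))
  have u2 := line ((starRingEnd ℂ) ω) (by simpa using hω) (by simpa using hs) hqP hqC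
    (hinv _ (Or.inr (Or.inl rfl)))
  have u3 : C.card ≤ (Mc (Bl P) (Ln P) C p q).card + 1 := by
    obtain ⟨ξ, hξ⟩ := hinv 1 (Or.inr (Or.inr rfl))
    refine cnt _ ξ fun w hw hne => ?_
    obtain ⟨k1, k2⟩ := hξ w hw hne
    rw [one_mul] at k1 k2
    set σ := -(2 * w.re - ω.re) with hσ
    set ψ : Fin 4 → ℝ := ![3 * (1 - ω.re), 2 * σ + 3, 0, σ] with hψdef
    have hψ0 : ψ 0 ≠ 0 := fun h => by
      have h5 : 3 * (1 - ω.re) = 0 := h
      have h6 : ω.re = 1 := by linarith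
      rw [h6] at hω
      exact hs (pow_eq_zero_iff two_ne_zero |>.1 (by linarith))
    have hψ : ψ ≠ 0 := fun h => hψ0 (congrFun h 0)
    have e1 : ev ψ p = 0 := by
      rw [hp, ev_pt _ (D2 _ _ hs)]
      simp only [hψdef, Matrix.cons_val_zero, Matrix.cons_val_one, Matrix.cons_val]
      linear_combination σ * hω
    have e1' : ev ψ q = 0 := by
      rw [hq, ev_pt _ (D2 _ _ hs')]
      simp only [hψdef, Matrix.cons_val_zero, Matrix.cons_val_one, Matrix.cons_val]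
      linear_combination σ * hω
    have e2 : ev ψ (f w) = 0 := by
      rw [hf, ev_pt _ (D1 w hw)]
      simp only [hψdef, Matrix.cons_val_zero, Matrix.cons_val_one, Matrix.cons_val]
      linear_combination 4 * σ * hn w hw + 3 * hσ
    have e3 : ev ψ (f ((starRingEnd ℂ) w)) = 0 := by
      rw [hf, ev_pt _ (D1 _ k1)]
      simp only [hψdef, Matrix.cons_val_zero, Matrix.cons_val_one, Matrix.cons_val,
        Complex.conj_re, Complex.conj_im]
      linear_combination 4 * σ * hn w hw + 3 * hσ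
    obtain ⟨β, b1, b2, b3⟩ := blk_of H hC hψ hpP hpC (mem_image_of_mem f hw)
      (mem_image_of_mem f k1) (fun e => k2 (finj k1 hw e)) e1 e2 e3
    exact mem_Mc.2 ⟨β, b1, fun h => hψ0 ((Ln_iff b1 hψ fun x hx => ((b2 x).1 hx).2).1 h),
      (b2 _).2 ⟨hpP, e1⟩, (b2 _).2 ⟨hqP, e1'⟩, b3,
      (b2 _).2 ⟨hCP (mem_image_of_mem f hw), e2⟩, mem_image_of_mem f hw⟩
  refine ⟨P, hPc, fun β hβ => ?_, hCc ▸ H.two_upper hC hCL hpq hPC u1 u2 u3⟩
  by_cases e : β = C
  · rw [e, hCc]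
  · have h1 := H.inter_le_two hβ hC e
    have h2 := H.split hCP hβ
    have h3 : (β ∩ (P \ C)).card ≤ 2 := by
      rw [hPC]
      exact (card_le_card inter_subset_right).trans card_le_two
    omega

lemma few_iff {P : Finset Pt} {r : ℕ} (hr : 2 ≤ r) :
    (∀ Q ⊆ P, Collinear ℝ (Q : Set Pt) ∨ EuclideanGeometry.Cospherical (Q : Set Pt) →
      Q.card ≤ r) ↔ ∀ β ∈ Bl P, β.card ≤ r := by
  classical
  constructor
  · intro h β hβ
    obtain ⟨-, φ, hφ, e⟩ := mem_Bl.1 hβ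
    refine h β (fun x hx => ((e x).1 hx).1) ?_
    by_cases h0 : φ 0 = 0
    · exact Or.inl (collinear_of hφ h0 fun x hx => ((e x).1 hx).2)
    · exact Or.inr (cospherical_of h0 fun x hx => ((e x).1 hx).2)
  · intro h Q hQ hc
    by_contra hn
    obtain ⟨φ, hφ, e⟩ := hc.elim exists_of_collinear exists_of_cospherical
    have hs : Q ⊆ P.filter fun x => ev φ x = 0 := fun x hx => mem_filter.2 ⟨hQ hx, e x hx⟩
    have h1 := card_le_card hs
    have := h _ (mem_Bl.2 ⟨by omega, φ, hφ, fun _ => mem_filter⟩)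
    omega

end Pool.Agent.MP_1f1ca1_co
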