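import Pool.Agent.MP_1f1ca1_co.Melchior

/-! The combinatorial data of a planar point set: blocks (maximal concyclic or collinear subsets
with at least three points), and those blocks that are collinear. -/

set_option autoImplicit false
set_option linter.unusedSectionVars false

namespace Pool.Agent.MP_1f1ca1_co
open Finset

variable {α : Type} [DecidableEq α]

/-- points of the configuration derived at `x`, with a point at infinity -/
def Qx (P : Finset α) (x : α) : Finset (Option α) := insertNone (P.erase x)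
/-- the line of the derived configuration coming from a block -/
def Ex (L : Finset (Finset α)) (x : α) (β : Finset α) : Finset (Option α) :=
  if β ∈ L then insertNone (β.erase x) else (β.erase x).map Function.Embedding.some

@[simp] lemma none_mem_Qx (P : Finset α) (x : α) : none ∈ Qx P x := by simp [Qx]
@[simp] lemma some_mem_Qx (P : Finset α) (x y : α) : some y ∈ Qx P x ↔ y ≠ x ∧ y ∈ P := by simp [Qx]
@[simp] lemma none_mem_Ex (L : Finset (Finset α)) (x : α) (β : Finset α) : none ∈ Ex L x β ↔ β ∈ L := by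
  unfold Ex; split_ifs with h <;> simp [h]
@[simp] lemma some_mem_Ex (L : Finset (Finset α)) (x y : α) (β : Finset α) :
    some y ∈ Ex L x β ↔ y ≠ x ∧ y ∈ β := by
  unfold Ex; split_ifs with h <;> simp
lemma card_Ex (L : Finset (Finset α)) {x : α} {β : Finset α} (h : x ∈ β) :
    (Ex L x β).card + 1 = β.card + if β ∈ L then 1 else 0 := by
  have := card_erase_add_one h
  unfold Ex; split_ifs with h' <;> simp only [card_insertNone, card_map] <;> omega

structure Geo (P : Finset α) (B L : Finset (Finset α)) : Prop where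
  big : 3 ≤ P.card
  sub : ∀ β ∈ B, β ⊆ P
  three : ∀ β ∈ B, 3 ≤ β.card
  ex : ∀ a ∈ P, ∀ b ∈ P, ∀ c ∈ P, a ≠ b → a ≠ c → b ≠ c → ∃ β ∈ B, a ∈ β ∧ b ∈ β ∧ c ∈ β
  lsub : L ⊆ B
  proper : ∀ β ∈ B, ∃ x ∈ P, x ∉ β
  vec : ∀ x ∈ P, ∃ v : Option α → V3, ∀ β ∈ B, x ∈ β → ∀ a ∈ Ex L x β, ∀ b ∈ Ex L x β, a ≠ b →
    ∀ c ∈ Qx P x, (det3 (v a) (v b) (v c) = 0 ↔ c ∈ Ex L x β)
  dir : ∃ D : α → α → ℂ, (∀ a b, D a b = D b a) ∧ (∀ a b, a ≠ b → D a b ≠ 0) ∧
    (∀ β ∈ B, ∀ a ∈ β, ∀ b ∈ β, ∀ c ∈ β, ∀ d ∈ β, a ≠ b → b ≠ c → c ≠ d → d ≠ a →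
      D a b * D c d = D b c * D d a) ∧
    (∀ β ∈ B, ∀ a ∈ β, ∀ b ∈ β, ∀ c ∈ β, ∀ d ∈ P, a ≠ b → b ≠ c → a ≠ c → c ≠ d → d ≠ a →
      D a b * D c d = D b c * D d a → d ∈ β) ∧
    (∀ β ∈ L, ∀ a ∈ β, ∀ b ∈ β, ∀ c ∈ β, a ≠ b → a ≠ c → D a b = D a c) ∧
    (∀ β ∈ L, ∀ a ∈ β, ∀ b ∈ β, ∀ c ∈ P, a ≠ b → a ≠ c → D a b = D a c → c ∈ β)

variable {P : Finset α} {B L : Finset (Finset α)}

lemma Geo.eq_of_two (H : Geo P B L) {β γ : Finset α} (hβ : β ∈ B) (hγ : γ ∈ B) {x : α} (h1 : x ∈ β)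
    (h2 : x ∈ γ) {a b : Option α} (hab : a ≠ b) (ha : a ∈ Ex L x β) (hb : b ∈ Ex L x β)
    (ha' : a ∈ Ex L x γ) (hb' : b ∈ Ex L x γ) : β = γ := by
  obtain ⟨v, hv⟩ := H.vec x (H.sub β hβ h1)
  ext y
  by_cases hy : y = x
  · subst hy; simp [h1, h2]
  by_cases hP : y ∈ P
  · have e1 := hv β hβ h1 a ha b hb hab (some y) (by simp [hy, hP])
    have e2 := hv γ hγ h2 a ha' b hb' hab (some y) (by simp [hy, hP])
    have := e1.symm.trans e2
    simpa [hy] using this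
  · exact ⟨fun h => absurd (H.sub β hβ h) hP, fun h => absurd (H.sub γ hγ h) hP⟩

lemma Geo.uniq (H : Geo P B L) {β γ : Finset α} (hβ : β ∈ B) (hγ : γ ∈ B) {a b c : α} (hab : a ≠ b)
    (hac : a ≠ c) (hbc : b ≠ c) (h1 : a ∈ β) (h2 : b ∈ β) (h3 : c ∈ β) (h4 : a ∈ γ) (h5 : b ∈ γ)
    (h6 : c ∈ γ) : β = γ :=
  H.eq_of_two hβ hγ h1 h4 (a := some b) (b := some c) (by simpa using hbc) (by simp [hab.symm, h2])
    (by simp [hac.symm, h3]) (by simp [hab.symm, h5]) (by simp [hac.symm, h6])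

lemma Geo.luniq (H : Geo P B L) {β γ : Finset α} (hβ : β ∈ L) (hγ : γ ∈ L) {a b : α} (hab : a ≠ b)
    (h1 : a ∈ β) (h2 : b ∈ β) (h4 : a ∈ γ) (h5 : b ∈ γ) : β = γ :=
  H.eq_of_two (H.lsub hβ) (H.lsub hγ) h1 h4 (a := some b) (b := none) (by simp) (by simp [hab.symm, h2])
    (by simp [hβ]) (by simp [hab.symm, h5]) (by simp [hγ])

lemma Geo.inter_le_two (H : Geo P B L) {β γ : Finset α} (hβ : β ∈ B) (hγ : γ ∈ B) (h : β ≠ γ) :
    (β ∩ γ).card ≤ 2 := by
  by_contra hc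
  obtain ⟨a, b, c, ha, hb, hc, hab, hac, hbc⟩ := two_lt_card_iff.1 (not_le.1 hc)
  rw [mem_inter] at ha hb hc
  exact h (H.uniq hβ hγ hab hac hbc ha.1 hb.1 hc.1 ha.2 hb.2 hc.2)

lemma Geo.inter_le_one (H : Geo P B L) {β γ : Finset α} (hβ : β ∈ L) (hγ : γ ∈ L) (h : β ≠ γ) :
    (β ∩ γ).card ≤ 1 := by
  by_contra hc
  obtain ⟨a, ha, b, hb, hab⟩ := one_lt_card.1 (not_le.1 hc)
  rw [mem_inter] at ha hb
  exact h (H.luniq hβ hγ hab ha.1 hb.1 ha.2 hb.2)

lemma Geo.l11 (H : Geo P B L) {X Y : Finset α} (hd : Disjoint X Y) :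
    ∑ l ∈ L, (l ∩ X).card * (l ∩ Y).card ≤ X.card * Y.card := by
  have e : ∀ l : Finset α, (l ∩ X).card * (l ∩ Y).card =
      ∑ p ∈ X ×ˢ Y, if p.1 ∈ l ∧ p.2 ∈ l then 1 else 0 := by
    intro l
    rw [← card_filter, ← card_product]
    congr 1
    ext p; simp only [mem_product, mem_inter, mem_filter]; tauto
  simp only [e]
  rw [sum_comm, ← card_product, card_eq_sum_ones (X ×ˢ Y)]
  apply sum_le_sum
  intro p hp
  rw [← card_filter]
  apply card_le_one.2
  intro l hl l' hl'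
  rw [mem_filter] at hl hl'
  rw [mem_product] at hp
  exact H.luniq hl.1 hl'.1 (fun e : p.1 = p.2 => disjoint_left.1 hd hp.1 (e.symm ▸ hp.2)) hl.2.1 hl.2.2 hl'.2.1 hl'.2.2

lemma Geo.p2 (H : Geo P B L) {x : α} (hx : x ∈ P) :
    3 + ∑ β ∈ B.filter (fun β => x ∈ β), β.card ≤ 4 * (B.filter (fun β => x ∈ β)).card := by
  obtain ⟨v, hv⟩ := H.vec x hx
  have hinj : Set.InjOn (fun β : Finset α => β.erase x) (B.filter (fun β => x ∈ β)) := by
    intro β hβ γ hγ h
    have h1 := (mem_filter.1 (mem_coe.1 hβ)).2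
    have h2 := (mem_filter.1 (mem_coe.1 hγ)).2
    rw [← insert_erase h1, ← insert_erase h2]
    exact congrArg (insert x) h
  have M : LS (fun y => v (some y)) (P.erase x) ((B.filter (fun β => x ∈ β)).image (fun β => β.erase x)) := by
    refine ⟨?_, ?_, ?_, ?_, ?_, ?_⟩
    · intro l hl
      obtain ⟨β, hβ, rfl⟩ := mem_image.1 hl
      exact erase_subset_erase _ (H.sub β (mem_filter.1 hβ).1)
    · intro l hl
      obtain ⟨β, hβ, rfl⟩ := mem_image.1 hl
      have := H.three β (mem_filter.1 hβ).1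
      have := card_erase_add_one (mem_filter.1 hβ).2
      omega
    · intro a ha b hb hab
      rw [mem_erase] at ha hb
      obtain ⟨β, hβ, h1, h2, h3⟩ := H.ex x hx a ha.2 b hb.2 ha.1.symm hb.1.symm hab
      exact ⟨_, mem_image_of_mem _ (mem_filter.2 ⟨hβ, h1⟩), mem_erase.2 ⟨ha.1, h2⟩, mem_erase.2 ⟨hb.1, h3⟩⟩
    · intro l hl a ha b hb hab c hc
      obtain ⟨β, hβ, rfl⟩ := mem_image.1 hl
      rw [mem_filter] at hβ
      have := hv β hβ.1 hβ.2 (some a) (by simpa using ha) (some b) (by simpa using hb) (by simpa using hab)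
        (some c) (by simpa using hc)
      simpa using this
    · intro l hl
      obtain ⟨β, hβ, rfl⟩ := mem_image.1 hl
      rw [mem_filter] at hβ
      obtain ⟨y, hy, hy'⟩ := H.proper β hβ.1
      exact ⟨y, mem_erase.2 ⟨fun e => hy' (e ▸ hβ.2), hy⟩, fun h => hy' (mem_of_mem_erase h)⟩
    · have := H.big
      have := card_erase_add_one hx
      omega
  have h := M.melchior
  rw [sum_image hinj, card_image_of_injOn hinj] at h
  have e : ∑ β ∈ B.filter (fun β => x ∈ β), β.card = ∑ β ∈ B.filter (fun β => x ∈ β), (β.erase x).card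
      + (B.filter (fun β => x ∈ β)).card := by
    rw [card_eq_sum_ones (B.filter _), ← sum_add_distrib]
    exact sum_congr rfl fun β hβ => (card_erase_add_one (mem_filter.1 hβ).2).symm
  omega

lemma Geo.p3 (H : Geo P B L) {x : α} (hx : x ∈ P) :
    4 + ∑ β ∈ B.filter (fun β => x ∈ β), β.card + ∑ β ∈ L.filter (fun β => x ∈ β), β.card
      ≤ 4 * (B.filter (fun β => x ∈ β)).card + P.card := by
  obtain ⟨v, hv⟩ := H.vec x hx
  set Bx := B.filter (fun β => x ∈ β) with hBx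
  set Lx := L.filter (fun β => x ∈ β) with hLx
  set R := (P.erase x).filter (fun y => ∀ l ∈ L, x ∈ l → y ∉ l) with hR
  have hinj : Set.InjOn (Ex L x) Bx := by
    intro β hβ γ hγ h
    have h1 := (mem_filter.1 (mem_coe.1 hβ)).2
    have h2 := (mem_filter.1 (mem_coe.1 hγ)).2
    ext y
    by_cases hy : y = x
    · subst hy; simp [h1, h2]
    · have := congrArg (fun s => some y ∈ s) h
      simpa [hy] using this
  have hinj2 : Set.InjOn (fun y : α => ({none, some y} : Finset (Option α))) R := by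
    intro y _ z _ h
    have := congrArg (fun s => some y ∈ s) h
    simpa using this
  have hdis : Disjoint (Bx.image (Ex L x)) (R.image (fun y : α => ({none, some y} : Finset (Option α)))) := by
    rw [disjoint_left]
    intro l h1 h2
    obtain ⟨β, hβ, rfl⟩ := mem_image.1 h1
    obtain ⟨y, hy, e⟩ := mem_image.1 h2
    have a1 : none ∈ Ex L x β := by rw [← e]; simp
    have a2 : some y ∈ Ex L x β := by rw [← e]; simp
    exact (mem_filter.1 hy).2 β (by simpa using a1) (mem_filter.1 hβ).2 ((some_mem_Ex _ _ _ _).1 a2).2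
  have hR0 : ∀ y ∈ R, ∀ c ∈ Qx P x, (det3 (v none) (v (some y)) (v c) = 0 ↔
      c ∈ ({none, some y} : Finset (Option α))) := by
    intro y hy c hc
    rw [mem_filter, mem_erase] at hy
    cases c with
    | none => simp [det3_aba]
    | some z =>
      by_cases hz : z = y
      · subst hz; simp [det3_abb]
      · rw [some_mem_Qx] at hc
        obtain ⟨β, hβ, h1, h2, h3⟩ := H.ex x hx y hy.1.2 z hc.2 hy.1.1.symm hc.1.symm (Ne.symm hz)
        have := hv β hβ h1 (some y) (by simp [hy.1.1, h2]) (some z) (by simp [hc.1, h3])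
          (by simpa using Ne.symm hz) none (by simp)
        rw [det3_rot] at this
        rw [this]
        simp only [none_mem_Ex, mem_insert, reduceCtorEq, mem_singleton, Option.some.injEq, hz, or_self,
          iff_false]
        exact fun h => hy.2 β h h1 h2
  have M : LS v (Qx P x) (Bx.image (Ex L x) ∪ R.image (fun y : α => ({none, some y} : Finset (Option α)))) := by
    refine ⟨?_, ?_, ?_, ?_, ?_, ?_⟩
    · intro l hl
      rcases mem_union.1 hl with hl | hl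
      · obtain ⟨β, hβ, rfl⟩ := mem_image.1 hl
        intro c hc
        cases c with
        | none => simp
        | some z =>
          rw [some_mem_Ex] at hc
          exact (some_mem_Qx _ _ _).2 ⟨hc.1, H.sub β (mem_filter.1 hβ).1 hc.2⟩
      · obtain ⟨y, hy, rfl⟩ := mem_image.1 hl
        intro c hc
        rw [mem_insert, mem_singleton] at hc
        rcases hc with rfl | rfl
        · simp
        · simpa using (mem_filter.1 hy).1
    · intro l hl
      rcases mem_union.1 hl with hl | hl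
      · obtain ⟨β, hβ, rfl⟩ := mem_image.1 hl
        have := H.three β (mem_filter.1 hβ).1
        have := card_Ex L (mem_filter.1 hβ).2
        omega
      · obtain ⟨y, hy, rfl⟩ := mem_image.1 hl
        simp
    · have key : ∀ y ∈ P.erase x, ∃ l ∈ (Bx.image (Ex L x) ∪
          R.image (fun y : α => ({none, some y} : Finset (Option α)))), none ∈ l ∧ some y ∈ l := by
        intro y hy
        by_cases hyR : y ∈ R
        · exact ⟨_, mem_union_right _ (mem_image_of_mem _ hyR), by simp, by simp⟩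
        · rw [hR, mem_filter] at hyR
          push Not at hyR
          obtain ⟨l, hl, h1, h2⟩ := hyR hy
          exact ⟨_, mem_union_left _ (mem_image_of_mem _ (mem_filter.2 ⟨H.lsub hl, h1⟩)), by simpa using hl,
            by simp [h2, (mem_erase.1 hy).1]⟩
      intro a ha b hb hab
      cases a with
      | none =>
        cases b with
        | none => exact absurd rfl hab
        | some z => exact key z (by simpa using hb)
      | some y =>
        cases b with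
        | none =>
          obtain ⟨l, hl, h1, h2⟩ := key y (by simpa using ha)
          exact ⟨l, hl, h2, h1⟩
        | some z =>
          rw [some_mem_Qx] at ha hb
          obtain ⟨β, hβ, h1, h2, h3⟩ := H.ex x hx y ha.2 z hb.2 ha.1.symm hb.1.symm (by simpa using hab)
          exact ⟨_, mem_union_left _ (mem_image_of_mem _ (mem_filter.2 ⟨hβ, h1⟩)), by simp [ha.1, h2],
            by simp [hb.1, h3]⟩
    · intro l hl a ha b hb hab c hc
      rcases mem_union.1 hl with hl | hl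
      · obtain ⟨β, hβ, rfl⟩ := mem_image.1 hl
        exact hv β (mem_filter.1 hβ).1 (mem_filter.1 hβ).2 a ha b hb hab c hc
      · obtain ⟨y, hy, rfl⟩ := mem_image.1 hl
        rw [mem_insert, mem_singleton] at ha hb
        rcases ha with rfl | rfl <;> rcases hb with rfl | rfl
        · exact absurd rfl hab
        · exact hR0 y hy c hc
        · rw [det3_swap12, neg_eq_zero]; exact hR0 y hy c hc
        · exact absurd rfl hab
    · intro l hl
      rcases mem_union.1 hl with hl | hl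
      · obtain ⟨β, hβ, rfl⟩ := mem_image.1 hl
        rw [mem_filter] at hβ
        obtain ⟨y, hy, hy'⟩ := H.proper β hβ.1
        exact ⟨some y, by simpa using ⟨fun e => hy' (e ▸ hβ.2), hy⟩, by simp [hy']⟩
      · obtain ⟨y, hy, rfl⟩ := mem_image.1 hl
        have h1 := H.big
        have h2 := card_erase_add_one hx
        have h3 := card_erase_add_one (mem_filter.1 hy).1
        obtain ⟨z, hz⟩ := card_pos.1 (show 0 < ((P.erase x).erase y).card by omega)
        rw [mem_erase] at hz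
        exact ⟨some z, by simpa using hz.2, by simp [hz.1]⟩
    · have := H.big
      have := card_erase_add_one hx
      simp only [Qx, card_insertNone]
      omega
  have h := M.melchior
  rw [sum_union hdis, card_union_of_disjoint hdis, sum_image hinj, sum_image hinj2, card_image_of_injOn hinj,
    card_image_of_injOn hinj2] at h
  have e1 : ∑ y ∈ R, ({none, some y} : Finset (Option α)).card = 2 * R.card := by
    rw [mul_comm, ← smul_eq_mul, ← sum_const]
    exact sum_congr rfl fun y _ => by simp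
  have e2 : ∑ β ∈ Bx, (Ex L x β).card + Bx.card = ∑ β ∈ Bx, β.card + Lx.card := by
    have : Lx = Bx.filter (fun β => β ∈ L) := by
      ext β; simp only [hLx, hBx, mem_filter]
      exact ⟨fun h => ⟨⟨H.lsub h.1, h.2⟩, h.1⟩, fun h => ⟨h.2, h.1.2⟩⟩
    rw [this, card_eq_sum_ones Bx, card_filter, ← sum_add_distrib, ← sum_add_distrib]
    exact sum_congr rfl fun β hβ => card_Ex L (mem_filter.1 hβ).2
  have e3 : ∑ β ∈ Lx, β.card + R.card + 1 ≤ P.card + Lx.card := by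
    have hd : Disjoint ({x} : Finset α) (P.erase x \ R) := by simp
    have a1 := H.l11 hd
    have a2 : ∑ β ∈ Lx, β.card = ∑ l ∈ L, (l ∩ {x}).card * (l ∩ (P.erase x \ R)).card + Lx.card := by
      rw [hLx, sum_filter, card_filter, ← sum_add_distrib]
      apply sum_congr rfl
      intro l hl
      by_cases hxl : x ∈ l
      · have : l ∩ (P.erase x \ R) = l.erase x := by
          ext y
          simp only [hR, mem_inter, mem_sdiff, mem_erase, mem_filter]
          constructor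
          · tauto
          · rintro ⟨h1, h2⟩
            exact ⟨h2, ⟨h1, H.sub l (H.lsub hl) h2⟩, fun h => h.2 l hl hxl h2⟩
        rw [this, inter_singleton_of_mem hxl]
        simp only [hxl, if_true, card_singleton, one_mul, card_erase_add_one hxl]
      · simp [hxl]
    have a3 := card_sdiff_add_card_eq_card (show R ⊆ P.erase x from filter_subset _ _)
    have a4 := card_erase_add_one hx
    rw [card_singleton] at a1
    omega
  omega

/-- number of triples of distinct points -/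
def N3 (X Y Z : Finset α) : ℤ := ∑ a ∈ X, ∑ b ∈ Y.erase a, (((Z.erase a).erase b).card : ℤ)

lemma Geo.pair_sum (H : Geo P B L) {a b : α} (ha : a ∈ P) (hb : b ∈ P) (hab : a ≠ b) {W : Finset α}
    (hW : W ⊆ P) (haW : a ∉ W) (hbW : b ∉ W) :
    ∑ β ∈ B, (if a ∈ β ∧ b ∈ β then ((β ∩ W).card : ℤ) else 0) = W.card := by
  have e : ∀ β : Finset α, (if a ∈ β ∧ b ∈ β then ((β ∩ W).card : ℤ) else 0) =
      ∑ c ∈ W, if a ∈ β ∧ b ∈ β ∧ c ∈ β then (1 : ℤ) else 0 := by
    intro β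
    by_cases h : a ∈ β ∧ b ∈ β
    · simp only [h, and_self, if_true, true_and]
      rw [sum_boole, filter_mem_eq_inter, inter_comm]
    · rw [if_neg h]; symm; apply sum_eq_zero; intro c _; rw [if_neg]; tauto
  simp only [e]
  rw [sum_comm, card_eq_sum_ones W]
  push_cast
  apply sum_congr rfl
  intro c hc
  rw [sum_boole]
  have hac : a ≠ c := fun e => haW (e ▸ hc)
  have hbc : b ≠ c := fun e => hbW (e ▸ hc)
  obtain ⟨β, hβ, h1⟩ := H.ex a ha b hb c (hW hc) hab hac hbc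
  have : B.filter (fun β => a ∈ β ∧ b ∈ β ∧ c ∈ β) = {β} := by
    ext γ
    rw [mem_filter, mem_singleton]
    constructor
    · rintro ⟨hγ, h2⟩; exact H.uniq hγ hβ hab hac hbc h2.1 h2.2.1 h2.2.2 h1.1 h1.2.1 h1.2.2
    · rintro rfl; exact ⟨hβ, h1⟩
  rw [this]; simp

lemma Geo.N3_sum (H : Geo P B L) {X Y Z : Finset α} (hX : X ⊆ P) (hY : Y ⊆ P) (hZ : Z ⊆ P) :
    ∑ β ∈ B, N3 (β ∩ X) (β ∩ Y) (β ∩ Z) = N3 X Y Z := by
  have e : ∀ β : Finset α, N3 (β ∩ X) (β ∩ Y) (β ∩ Z) = ∑ a ∈ X, ∑ b ∈ Y.erase a,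
      (if a ∈ β ∧ b ∈ β then ((β ∩ (Z.erase a).erase b).card : ℤ) else 0) := by
    intro β
    unfold N3
    rw [inter_comm β X, ← filter_mem_eq_inter, sum_filter]
    apply sum_congr rfl
    intro a _
    by_cases ha : a ∈ β
    · simp only [ha, if_true, true_and]
      rw [← sum_filter]
      apply sum_congr
      · ext b; simp only [mem_erase, mem_inter, mem_filter]; tauto
      · intro b _
        congr 2
        ext c; simp only [mem_erase, mem_inter]; tauto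
    · simp [ha]
  simp only [e]
  rw [sum_comm]
  apply sum_congr rfl
  intro a ha
  rw [sum_comm]
  apply sum_congr rfl
  intro b hb
  rw [mem_erase] at hb
  exact H.pair_sum (hX ha) (hY hb.2) hb.1.symm
    (fun c hc => hZ (mem_of_mem_erase (mem_of_mem_erase hc))) (by simp) (by simp)

lemma card_erase_int {A : Finset α} {a : α} (h : a ∈ A) : ((A.erase a).card : ℤ) = A.card - 1 := by
  rw [← card_erase_add_one h]; push_cast; ring

lemma N3_AAB {A A' : Finset α} (h : Disjoint A A') : N3 A A A' = A.card * (A.card - 1) * A'.card := by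
  unfold N3
  rw [sum_congr rfl (g := fun _ => ((A.card : ℤ) - 1) * A'.card)]
  · simp; ring
  · intro a ha
    rw [sum_congr rfl (g := fun _ => (A'.card : ℤ))]
    · rw [sum_const, nsmul_eq_mul, card_erase_int ha]
    · intro b hb
      rw [erase_eq_of_notMem (disjoint_left.1 h ha), erase_eq_of_notMem (disjoint_left.1 h (mem_of_mem_erase hb))]

lemma N3_ABB {A A' : Finset α} (h : Disjoint A A') : N3 A A' A' = A.card * A'.card * (A'.card - 1) := by
  unfold N3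
  rw [sum_congr rfl (g := fun _ => (A'.card : ℤ) * (A'.card - 1))]
  · simp; ring
  · intro a ha
    rw [erase_eq_of_notMem (disjoint_left.1 h ha), sum_congr rfl (g := fun _ => (A'.card : ℤ) - 1)]
    · rw [sum_const, nsmul_eq_mul]
    · intro b hb; exact card_erase_int hb

lemma N3_AAA (A : Finset α) : N3 A A A = A.card * (A.card - 1) * (A.card - 2) := by
  unfold N3
  rw [sum_congr rfl (g := fun _ => ((A.card : ℤ) - 1) * (A.card - 2))]
  · simp; ring
  · intro a ha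
    rw [sum_congr rfl (g := fun _ => (A.card : ℤ) - 2)]
    · rw [sum_const, nsmul_eq_mul, card_erase_int ha]
    · intro b hb; rw [card_erase_int hb, card_erase_int ha]; ring

lemma Geo.p1 (H : Geo P B L) {x : α} (hx : x ∈ P) :
    ∑ β ∈ B.filter (fun β => x ∈ β), ((β.card : ℤ) - 1) * (β.card - 2) = (P.card - 1) * (P.card - 2) := by
  have h := H.N3_sum (X := {x}) (Y := P.erase x) (Z := P.erase x) (by simpa using hx) (erase_subset _ _)
    (erase_subset _ _)
  rw [N3_ABB (by simp), card_erase_int hx] at h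
  rw [sum_filter]
  have e : ((P.card : ℤ) - 1) * (P.card - 2) = (({x} : Finset α).card : ℤ) * (P.card - 1) * (P.card - 1 - 1) := by
    simp; left; ring
  rw [e, ← h]
  apply sum_congr rfl
  intro β hβ
  rw [N3_ABB (by rw [disjoint_left]; intro a h1 h2; simp at h1 h2; tauto)]
  by_cases hxβ : x ∈ β
  · have : β ∩ P.erase x = β.erase x := by
      ext y; simp only [mem_inter, mem_erase]
      exact ⟨fun h => ⟨h.2.1, h.1⟩, fun h => ⟨h.2, h.1, H.sub β hβ h.2⟩⟩
    rw [this, inter_singleton_of_mem hxβ, card_erase_int hxβ, if_pos hxβ]; simp; left; ring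
  · simp [hxβ]

lemma sum_point (B : Finset (Finset α)) (X : Finset α) (f : Finset α → ℤ) :
    ∑ x ∈ X, ∑ β ∈ B.filter (fun β => x ∈ β), f β = ∑ β ∈ B, ((β ∩ X).card : ℤ) * f β := by
  simp only [sum_filter]
  rw [sum_comm]
  apply sum_congr rfl
  intro β _
  rw [← sum_filter, sum_const, nsmul_eq_mul, filter_mem_eq_inter, inter_comm]

lemma Geo.sum_L (H : Geo P B L) (f : Finset α → ℤ) :
    ∑ β ∈ L, f β = ∑ β ∈ B, (if β ∈ L then 1 else 0) * f β := by
  simp only [ite_mul, one_mul, zero_mul]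
  rw [← sum_filter, filter_mem_eq_inter, inter_eq_right.2 H.lsub]

lemma Geo.mp (H : Geo P B L) {X : Finset α} (hX : X ⊆ P) :
    3 * (X.card : ℤ) ≤ ∑ β ∈ B, ((β ∩ X).card : ℤ) * (4 - β.card) := by
  rw [← sum_point, mul_comm, ← nsmul_eq_mul, ← sum_const]
  apply sum_le_sum
  intro x hx
  have := H.p2 (hX hx)
  rw [sum_sub_distrib, sum_const, nsmul_eq_mul]
  zify at this
  linarith

lemma Geo.mq (H : Geo P B L) {X : Finset α} (hX : X ⊆ P) :
    (X.card : ℤ) * (4 - P.card) ≤ ∑ β ∈ B, (((β ∩ X).card : ℤ) * (4 - β.card) -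
      (if β ∈ L then 1 else 0) * ((β ∩ X).card * β.card)) := by
  rw [sum_sub_distrib, ← H.sum_L, ← sum_point, ← sum_point, ← sum_sub_distrib, ← nsmul_eq_mul, ← sum_const]
  apply sum_le_sum
  intro x hx
  have := H.p3 (hX hx)
  rw [sum_sub_distrib, sum_const, nsmul_eq_mul]
  zify at this
  linarith

/-- the slack of one block in the linear programming bound -/
def FF (D y1 y2 y3 p q r s t i j e : ℤ) : ℤ :=
  D * (1 - e) - (y1 * (i * (i - 1) * j) + y2 * (i * j * (j - 1)) + y3 * (j * (j - 1) * (j - 2))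
    + p * (i * (4 - (i + j))) + q * (j * (4 - (i + j)))
    + r * (i * (4 - (i + j)) - e * (i * (i + j))) + s * (j * (4 - (i + j)) - e * (j * (i + j)))
    - t * (e * (i * j)))

def RR (y1 y2 y3 p q r s t m k : ℤ) : ℤ :=
  y1 * (m * (m - 1) * k) + y2 * (m * k * (k - 1)) + y3 * (k * (k - 1) * (k - 2))
    + p * (3 * m) + q * (3 * k) + r * (m * (4 - (m + k))) + s * (k * (4 - (m + k))) - t * (m * k)

lemma Geo.master (H : Geo P B L) {C : Finset α} (hC : C ⊆ P) (D y1 y2 y3 p q r s t : ℤ)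
    (hp : 0 ≤ p) (hq : 0 ≤ q) (hr : 0 ≤ r) (hs : 0 ≤ s) (ht : 0 ≤ t) :
    ∑ β ∈ B, FF D y1 y2 y3 p q r s t (β ∩ C).card (β ∩ (P \ C)).card (if β ∈ L then 1 else 0)
      + RR y1 y2 y3 p q r s t C.card (P \ C).card ≤ D * (B \ L).card := by
  have hd : Disjoint C (P \ C) := disjoint_sdiff
  have hd' : ∀ β : Finset α, Disjoint (β ∩ C) (β ∩ (P \ C)) := fun β =>
    hd.mono inter_subset_right inter_subset_right
  have hs' : P \ C ⊆ P := sdiff_subset
  have t1 := H.N3_sum hC hC hs'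
  have t2 := H.N3_sum hC hs' hs'
  have t3 := H.N3_sum hs' hs' hs'
  simp only [N3_AAB (hd' _), N3_AAB hd] at t1
  simp only [N3_ABB (hd' _), N3_ABB hd] at t2
  simp only [N3_AAA] at t3
  have m1 := H.mp hC
  have m2 := H.mp hs'
  have m3 := H.mq hC
  have m4 := H.mq hs'
  have m5 := H.l11 hd
  zify at m5
  rw [H.sum_L] at m5
  have hn : (P.card : ℤ) = C.card + (P \ C).card := by
    rw [← card_sdiff_add_card_eq_card hC]; push_cast; ring
  have hβ : ∀ β ∈ B, (β.card : ℤ) = (β ∩ C).card + (β ∩ (P \ C)).card := by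
    intro β hβ
    rw [← Nat.cast_add, ← card_union_of_disjoint (hd' β), ← inter_union_distrib_left,
      union_sdiff_of_subset hC, inter_eq_left.2 (H.sub β hβ)]
  have hc : ((B \ L).card : ℤ) = ∑ β ∈ B, (1 - (if β ∈ L then 1 else 0)) := by
    rw [sum_sub_distrib, sum_boole, filter_mem_eq_inter, inter_eq_right.2 H.lsub, sum_const,
      ← card_sdiff_add_card_eq_card H.lsub]
    simp
  have e : ∑ β ∈ B, FF D y1 y2 y3 p q r s t (β ∩ C).card (β ∩ (P \ C)).card (if β ∈ L then 1 else 0) =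
      D * ∑ β ∈ B, ((1 : ℤ) - (if β ∈ L then 1 else 0))
      - (y1 * ∑ β ∈ B, ((β ∩ C).card : ℤ) * ((β ∩ C).card - 1) * (β ∩ (P \ C)).card
        + y2 * ∑ β ∈ B, ((β ∩ C).card : ℤ) * (β ∩ (P \ C)).card * ((β ∩ (P \ C)).card - 1)
        + y3 * ∑ β ∈ B, ((β ∩ (P \ C)).card : ℤ) * ((β ∩ (P \ C)).card - 1) * ((β ∩ (P \ C)).card - 2)
        + p * ∑ β ∈ B, ((β ∩ C).card : ℤ) * (4 - β.card)
        + q * ∑ β ∈ B, ((β ∩ (P \ C)).card : ℤ) * (4 - β.card)
        + r * ∑ β ∈ B, (((β ∩ C).card : ℤ) * (4 - β.card) -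
          (if β ∈ L then 1 else 0) * ((β ∩ C).card * β.card))
        + s * ∑ β ∈ B, (((β ∩ (P \ C)).card : ℤ) * (4 - β.card) -
          (if β ∈ L then 1 else 0) * ((β ∩ (P \ C)).card * β.card))
        - t * ∑ β ∈ B, (if β ∈ L then 1 else 0) * (((β ∩ C).card : ℤ) * (β ∩ (P \ C)).card)) := by
    simp only [mul_sum, ← sum_add_distrib, ← sum_sub_distrib]
    apply sum_congr rfl
    intro β h
    rw [hβ β h]; unfold FF; ring
  rw [e, t1, t2, t3, ← hc]
  unfold RR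
  rw [hn] at m3 m4
  nlinarith [mul_le_mul_of_nonneg_left m1 hp, mul_le_mul_of_nonneg_left m2 hq,
    mul_le_mul_of_nonneg_left m3 hr, mul_le_mul_of_nonneg_left m4 hs, mul_le_mul_of_nonneg_left m5 ht]

lemma Geo.miquel (H : Geo P B L) {a1 a2 a3 a4 b1 b2 b3 b4 : α} {F0 F1 F2 F3 F4 F5 : Finset α}
    (h0 : F0 ∈ B) (h1 : F1 ∈ B) (h2 : F2 ∈ B) (h3 : F3 ∈ B) (h4 : F4 ∈ B) (h5 : F5 ∈ B)
    (m0 : a1 ∈ F0 ∧ a2 ∈ F0 ∧ a3 ∈ F0 ∧ a4 ∈ F0) (m1 : a1 ∈ F1 ∧ a2 ∈ F1 ∧ b2 ∈ F1 ∧ b1 ∈ F1)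
    (m2 : a2 ∈ F2 ∧ a3 ∈ F2 ∧ b3 ∈ F2 ∧ b2 ∈ F2) (m3 : a3 ∈ F3 ∧ a4 ∈ F3 ∧ b4 ∈ F3 ∧ b3 ∈ F3)
    (m4 : a4 ∈ F4 ∧ a1 ∈ F4 ∧ b1 ∈ F4 ∧ b4 ∈ F4) (m5 : b1 ∈ F5 ∧ b2 ∈ F5 ∧ b3 ∈ F5)
    (n1 : a1 ≠ a2) (n2 : a2 ≠ a3) (n3 : a3 ≠ a4) (n4 : a4 ≠ a1) (n5 : b1 ≠ b2) (n6 : b2 ≠ b3)
    (n7 : b1 ≠ b3) (n8 : a1 ≠ b1) (n9 : a2 ≠ b2) (n10 : a3 ≠ b3) (n11 : a4 ≠ b4) : b4 ∈ F5 := by
  by_contra hb
  obtain ⟨D, hs, hn, hf, hr, -, -⟩ := H.dir
  have n12 : b3 ≠ b4 := fun e => hb (e ▸ m5.2.2)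
  have n13 : b4 ≠ b1 := fun e => hb (e ▸ m5.1)
  have e0 := hf F0 h0 a1 m0.1 a2 m0.2.1 a3 m0.2.2.1 a4 m0.2.2.2 n1 n2 n3 n4
  have e1 := hf F1 h1 a1 m1.1 a2 m1.2.1 b2 m1.2.2.1 b1 m1.2.2.2 n1 n9 n5.symm n8.symm
  have e2 := hf F2 h2 a2 m2.1 a3 m2.2.1 b3 m2.2.2.1 b2 m2.2.2.2 n2 n10 n6.symm n9.symm
  have e3 := hf F3 h3 a3 m3.1 a4 m3.2.1 b4 m3.2.2.1 b3 m3.2.2.2 n3 n11 n12.symm n10.symm
  have e4 := hf F4 h4 a4 m4.1 a1 m4.2.1 b1 m4.2.2.1 b4 m4.2.2.2 n4 n8 n13.symm n11.symm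
  apply hb
  apply hr F5 h5 b1 m5.1 b2 m5.2.1 b3 m5.2.2 b4 (H.sub F3 h3 m3.2.2.1) n5 n6 n7 n12 n13
  rw [hs b2 b1, hs b1 a1] at e1
  rw [hs b3 b2, hs b2 a2] at e2
  rw [hs b4 b3, hs b3 a3] at e3
  rw [hs b1 b4, hs b4 a4] at e4
  apply mul_left_cancel₀ (mul_ne_zero (hn _ _ n1) (hn _ _ n3))
  linear_combination (D a3 a4 * D b3 b4) * e1 + (D a2 b2 * D a1 b1) * e3 - (D a4 a1 * D b4 b1) * e2
    - (D a3 b3 * D a2 b2) * e4 - (D b2 b3 * D b4 b1) * e0

lemma q7_core {f1 f2 f3 f4 : ℂ} (h2 : f2 ≠ 0) (h3 : f3 ≠ 0) (h4 : f4 ≠ 0)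
    (e1 : f1 * f2 = f3 * f4) (e2 : f1 * f3 = f2 * f4) (e3 : f1 * f4 = f2 * f3) :
    f1 = f2 ∨ f1 = f3 ∨ f1 = f4 ∨ f2 = f3 := by
  have a2 : (f1 - f2) * (f1 + f2) = 0 := by
    apply mul_left_cancel₀ (mul_ne_zero h3 h4)
    linear_combination (f1 * f4) * e2 + (f2 * f4) * e3
  have a3 : (f1 - f3) * (f1 + f3) = 0 := by
    apply mul_left_cancel₀ (mul_ne_zero h2 h4)
    linear_combination (f1 * f4) * e1 + (f3 * f4) * e3
  rcases mul_eq_zero.1 a2 with h | h
  · left; linear_combination h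
  rcases mul_eq_zero.1 a3 with h' | h'
  · right; left; linear_combination h'
  · right; right; right; linear_combination h - h'

/-- a block through `x`, or a line if `x` is the point at infinity -/
def Thru (L : Finset (Finset α)) (x : Option α) (β : Finset α) : Prop :=
  match x with
  | none => β ∈ L
  | some y => y ∈ β

lemma Geo.q7 (H : Geo P B L) {x : Option α} {a a' b b' c c' : α} {l1 l2 l3 l4 g1 g2 g3 : Finset α}
    (h1 : l1 ∈ B) (h2 : l2 ∈ B) (h3 : l3 ∈ B) (h4 : l4 ∈ B) (k1 : g1 ∈ B) (k2 : g2 ∈ B) (k3 : g3 ∈ B)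
    (t1 : Thru L x l1) (t2 : Thru L x l2) (t3 : Thru L x l3) (t4 : Thru L x l4)
    (m1 : a ∈ l1 ∧ b ∈ l1 ∧ c' ∈ l1) (m2 : a ∈ l2 ∧ b' ∈ l2 ∧ c ∈ l2)
    (m3 : a' ∈ l3 ∧ b ∈ l3 ∧ c ∈ l3) (m4 : a' ∈ l4 ∧ b' ∈ l4 ∧ c' ∈ l4)
    (n1 : b' ∉ l1) (n2 : c ∉ l1) (n3 : a' ∉ l1) (n4 : b ∉ l2)
    (r1 : b ∈ g1 ∧ b' ∈ g1 ∧ c ∈ g1 ∧ c' ∈ g1) (r2 : a ∈ g2 ∧ a' ∈ g2 ∧ c ∈ g2 ∧ c' ∈ g2)
    (r3 : a ∈ g3 ∧ a' ∈ g3 ∧ b ∈ g3 ∧ b' ∈ g3)
    (hd : List.Pairwise (· ≠ ·) [x, some a, some a', some b, some b', some c, some c']) : False := by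
  obtain ⟨D, hs, hn, hf, hr, lf, lr⟩ := H.dir
  obtain ⟨E, Es, En, Ef, Elf, Elr⟩ : ∃ E : α → α → ℂ, (∀ u w, E u w = E w u) ∧
      (∀ u w, u ≠ w → x ≠ some u → x ≠ some w → E u w ≠ 0) ∧
      (∀ β ∈ B, ∀ u ∈ β, ∀ w ∈ β, ∀ y ∈ β, ∀ z ∈ β, u ≠ w → w ≠ y → y ≠ z → z ≠ u →
        E u w * E y z = E w y * E z u) ∧
      (∀ β ∈ B, Thru L x β → ∀ u ∈ β, ∀ w ∈ β, ∀ y ∈ β, u ≠ w → u ≠ y → x ≠ some u → x ≠ some w →
        x ≠ some y → E u w = E u y) ∧
      (∀ β ∈ B, Thru L x β → ∀ u ∈ β, ∀ w ∈ β, ∀ y ∈ P, u ≠ w → u ≠ y → x ≠ some u → x ≠ some w →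
        x ≠ some y → E u w = E u y → y ∈ β) := by
    cases x with
    | none =>
      exact ⟨D, hs, fun u w h _ _ => hn u w h, hf, fun β _ t u hu w hw y hy h h' _ _ _ => lf β t u hu w hw y hy h h',
        fun β _ t u hu w hw y hy h h' _ _ _ => lr β t u hu w hw y hy h h'⟩
    | some o =>
      refine ⟨fun u w => D u w / (D u o * D w o), fun u w => by simp only [hs u w, mul_comm], ?_, ?_, ?_, ?_⟩
      · intro u w h hu hw
        simp only [ne_eq, Option.some.injEq] at hu hw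
        exact div_ne_zero (hn _ _ h) (mul_ne_zero (hn _ _ (Ne.symm hu)) (hn _ _ (Ne.symm hw)))
      · intro β hβ u hu w hw y hy z hz p1 p2 p3 p4
        have := hf β hβ u hu w hw y hy z hz p1 p2 p3 p4
        simp only
        rw [div_mul_div_comm, div_mul_div_comm, this]
        congr 1; ring
      · intro β hβ t u hu w hw y hy p1 p2 q1 q2 q3
        simp only [ne_eq, Option.some.injEq] at q1 q2 q3
        have := hf β hβ w hw u hu y hy o t p1.symm p2 (Ne.symm q3) q2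
        simp only
        rw [div_eq_div_iff (mul_ne_zero (hn _ _ (Ne.symm q1)) (hn _ _ (Ne.symm q2)))
          (mul_ne_zero (hn _ _ (Ne.symm q1)) (hn _ _ (Ne.symm q3)))]
        rw [hs w u, hs o w] at this
        linear_combination (D u o) * this
      · intro β hβ t u hu w hw y hy p1 p2 q1 q2 q3 e
        simp only [ne_eq, Option.some.injEq] at q1 q2 q3
        simp only at e
        rw [div_eq_div_iff (mul_ne_zero (hn _ _ (Ne.symm q1)) (hn _ _ (Ne.symm q2)))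
          (mul_ne_zero (hn _ _ (Ne.symm q1)) (hn _ _ (Ne.symm q3)))] at e
        apply hr β hβ o t w hw u hu y hy q2 p1.symm q1 p2 (Ne.symm q3)
        apply mul_left_cancel₀ (hn _ _ (Ne.symm q1))
        rw [hs o w, hs w u]
        linear_combination - e
  simp only [List.pairwise_cons, List.mem_cons, List.not_mem_nil, or_false, forall_eq_or_imp, forall_eq,
    ne_eq, Option.some.injEq] at hd
  obtain ⟨⟨xa, xa', xb, xb', xc, xc'⟩, ⟨aa', ab, ab', ac, ac'⟩, ⟨a'b, a'b', a'c, a'c'⟩, ⟨bb', bc, bc'⟩,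
    ⟨b'c, b'c'⟩, cc', -⟩ := hd
  have S := fun {u w : α} (h : ¬ u = w) => (Ne.symm h : w ≠ u)
  -- directions of the four lines
  have u1 : E b c' = E a b := by rw [Es a b]; exact Elf l1 h1 t1 b m1.2.1 c' m1.2.2 a m1.1 bc' (S ab) xb xc' xa
  have u2 : E a c' = E a b := Elf l1 h1 t1 a m1.1 c' m1.2.2 b m1.2.1 ac' ab xa xc' xb
  have v1 : E c b' = E a c := by rw [Es a c]; exact Elf l2 h2 t2 c m2.2.2 b' m2.2.1 a m2.1 (S b'c) (S ac) xc xb' xa
  have v2 : E a b' = E a c := Elf l2 h2 t2 a m2.1 b' m2.2.1 c m2.2.2 ab' ac xa xb' xc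
  have w1 : E c a' = E b c := by rw [Es b c]; exact Elf l3 h3 t3 c m3.2.2 a' m3.1 b m3.2.1 (S a'c) (S bc) xc xa' xb
  have w2 : E b a' = E b c := Elf l3 h3 t3 b m3.2.1 a' m3.1 c m3.2.2 (S a'b) bc xb xa' xc
  have z1 : E b' c' = E a' c' := by
    rw [Es b' c', Es a' c']; exact Elf l4 h4 t4 c' m4.2.2 b' m4.2.1 a' m4.1 (S b'c') (S a'c') xc' xb' xa'
  have z2 : E a' b' = E a' c' := Elf l4 h4 t4 a' m4.1 b' m4.2.1 c' m4.2.2 a'b' a'c' xa' xb' xc'
  have e1 := Ef g1 k1 b r1.1 c r1.2.2.1 b' r1.2.1 c' r1.2.2.2 bc (S b'c) b'c' (S bc')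
  have e2 := Ef g2 k2 a r2.1 c r2.2.2.1 a' r2.2.1 c' r2.2.2.2 ac (S a'c) a'c' (S ac')
  have e3 := Ef g3 k3 a r3.1 b r3.2.2.1 a' r3.2.1 b' r3.2.2.2 ab (S a'b) a'b' (S ab')
  rw [z1, v1, Es c' b, u1] at e1
  rw [w1, Es c' a, u2] at e2
  rw [z2, w2, Es b' a, v2] at e3
  rcases q7_core (f1 := E a b) (f2 := E a c) (f3 := E b c) (f4 := E a' c') (En _ _ ac xa xc) (En _ _ bc xb xc)
    (En _ _ a'c' xa' xc') (by linear_combination - e1) (by linear_combination - e2) (by linear_combination e3)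
    with h | h | h | h
  · exact n1 (Elr l1 h1 t1 a m1.1 b m1.2.1 b' (H.sub l2 h2 m2.2.1) ab ab' xa xb xb' (by rw [v2, h]))
  · exact n2 (Elr l1 h1 t1 b m1.2.1 a m1.1 c (H.sub l2 h2 m2.2.2) (S ab) bc xb xa xc (by rw [Es b a, h]))
  · exact n3 (Elr l1 h1 t1 c' m1.2.2 a m1.1 a' (H.sub l3 h3 m3.1) (S ac') (S a'c') xc' xa xa'
      (by rw [Es c' a, u2, h, Es]))
  · exact n4 (Elr l2 h2 t2 c m2.2.2 a m2.1 b (H.sub l1 h1 m1.2.1) (S ac) (S bc) xc xa xb
      (by rw [Es c a, h, Es]))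

end Pool.Agent.MP_1f1ca1_co
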