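import Pool.Agent.MP_1f1ca1_co.Geo

/-! Linear programming bounds for the number of non-collinear blocks. -/

set_option autoImplicit false
set_option linter.unusedSectionVars false

namespace Pool.Agent.MP_1f1ca1_co
open Finset

variable {α : Type} [DecidableEq α] {P : Finset α} {B L : Finset (Finset α)}

lemma Geo.split (H : Geo P B L) {C β : Finset α} (hC : C ⊆ P) (hβ : β ∈ B) :
    β.card = (β ∩ C).card + (β ∩ (P \ C)).card := by
  rw [← card_union_of_disjoint (disjoint_sdiff.mono inter_subset_right inter_subset_right),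
    ← inter_union_distrib_left, union_sdiff_of_subset hC, inter_eq_left.2 (H.sub β hβ)]

lemma Geo.masterC (H : Geo P B L) {C : Finset α} (hC : C ∈ B) {M : ℕ} (hM : ∀ β ∈ B, β.card ≤ M)
    (D y1 y2 y3 p q r s t : ℤ) (hp : 0 ≤ p) (hq : 0 ≤ q) (hr : 0 ≤ r) (hs : 0 ≤ s) (ht : 0 ≤ t)
    (h : ∀ i j e : ℕ, i ≤ 2 → e ≤ 1 → 3 ≤ i + j → i + j ≤ M → (C ∈ L → e = 1 → i ≤ 1) →
      0 ≤ FF D y1 y2 y3 p q r s t i j e) :
    FF D y1 y2 y3 p q r s t C.card 0 (if C ∈ L then 1 else 0)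
      + RR y1 y2 y3 p q r s t C.card (P \ C).card ≤ D * (B \ L).card := by
  refine le_trans ?_ (H.master (H.sub C hC) D y1 y2 y3 p q r s t hp hq hr hs ht)
  rw [← add_sum_erase B _ hC, inter_self, inter_sdiff_self, card_empty, Nat.cast_zero]
  have : 0 ≤ ∑ β ∈ B.erase C, FF D y1 y2 y3 p q r s t (β ∩ C).card (β ∩ (P \ C)).card
      (if β ∈ L then 1 else 0) := by
    apply sum_nonneg
    intro β hβ
    rw [mem_erase] at hβ
    have e := H.split (H.sub C hC) hβ.2
    have := h (β ∩ C).card (β ∩ (P \ C)).card (if β ∈ L then 1 else 0) (H.inter_le_two hβ.2 hC hβ.1)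
      (by split_ifs <;> omega) (by rw [← e]; exact H.three β hβ.2) (by rw [← e]; exact hM β hβ.2)
      (fun hCL he => H.inter_le_one (by by_contra hn; simp [hn] at he) hCL hβ.1)
    push_cast at this
    exact this
  linarith

lemma Geo.boundA (H : Geo P B L) {C : Finset α} (hC : C ∈ B) :
    4 * (1 - (if C ∈ L then 1 else 0)) + (C.card : ℤ) * (P \ C).card *
      (2 * C.card - (P \ C).card - 3 + 2 * (if C ∈ L then 1 else 0)) ≤ 4 * (B \ L).card := by
  have := H.masterC hC (M := P.card) (fun β hβ => card_le_card (H.sub β hβ)) 4 2 (-1) 0 0 0 0 0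
    (2 - 2 * (if C ∈ L then 1 else 0)) le_rfl le_rfl le_rfl le_rfl (by split_ifs <;> norm_num) (by
      intro i j e hi he h3 _ hL
      unfold FF
      have hj : (0 : ℤ) ≤ j := Nat.cast_nonneg j
      have h1 : (0 : ℤ) ≤ j * (j - 1) := by
        rcases Nat.eq_zero_or_pos j with h | h
        · simp [h]
        · have : (1 : ℤ) ≤ j := by exact_mod_cast h
          nlinarith
      have h2 : (0 : ℤ) ≤ (j - 1) * (j - 2) := by
        rcases le_or_gt (j : ℤ) 1 with h | h
        · nlinarith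
        · nlinarith
      by_cases hCL : C ∈ L
      · simp only [hCL, if_true]
        interval_cases i <;> interval_cases e <;> push_cast <;> first | nlinarith | (have := hL hCL rfl; omega)
      · simp only [hCL, if_false]
        interval_cases i <;> interval_cases e <;> push_cast <;> nlinarith)
  unfold FF RR at this
  linarith

lemma Geo.boundB (H : Geo P B L) {M : ℕ} (h4 : 4 ≤ M) (hM : ∀ β ∈ B, β.card ≤ M) :
    3 * ((M : ℤ) - 1) * (P.card * (P.card - 1) * (P.card - 2)) + 9 * (M ^ 2 + 2) * P.card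
      - M * (M + 2) * (P.card * (P.card - 1)) ≤ 9 * M * (M + 2) * (B \ L).card := by
  have h4' : (4 : ℤ) ≤ M := by exact_mod_cast h4
  have := H.master (C := ∅) (empty_subset _) (9 * M * (M + 2)) 0 0 (3 * ((M : ℤ) - 1)) 0
    (2 * M ^ 2 - 2 * M + 6) 0 (M * (M + 2)) 0 le_rfl (by nlinarith) le_rfl (by nlinarith) le_rfl
  have h0 : 0 ≤ ∑ β ∈ B, FF (9 * M * (M + 2)) 0 0 (3 * ((M : ℤ) - 1)) 0
      (2 * M ^ 2 - 2 * M + 6) 0 (M * (M + 2)) 0 (β ∩ ∅).card (β ∩ (P \ ∅)).card (if β ∈ L then 1 else 0) := by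
    apply sum_nonneg
    intro β hβ
    rw [inter_empty, sdiff_empty, inter_eq_left.2 (H.sub β hβ), card_empty]
    have a1 : (3 : ℤ) ≤ β.card := by exact_mod_cast H.three β hβ
    have a2 : (β.card : ℤ) ≤ M := by exact_mod_cast hM β hβ
    generalize (β.card : ℤ) = s at a1 a2
    have a3 : 0 ≤ 3 * (s - 3) * (M - s) * ((M - 1) * s - (M + 2)) :=
      mul_nonneg (mul_nonneg (by linarith) (by linarith)) (by nlinarith)
    have a4 : 0 ≤ (M : ℤ) * (M + 2) * (s ^ 2 - 9) := mul_nonneg (by nlinarith) (by nlinarith)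
    unfold FF
    split_ifs
    · push_cast; nlinarith
    · push_cast; nlinarith
  unfold RR at this
  rw [sdiff_empty, card_empty] at this
  rw [sdiff_empty] at h0
  push_cast at this h0
  nlinarith

/-- the claimed minimum -/
def tgt (n : ℕ) : ℕ :=
  if n = 6 then 8 else if n = 7 then 11 else if n = 8 then 17 else (n - 1).choose 2 + 1 - (n - 1) / 2

lemma tgt_le {n : ℕ} (h : 9 ≤ n) : 4 * (tgt n : ℤ) ≤ 2 * ((n : ℤ) - 2) ^ 2 + 4 := by
  obtain ⟨k, rfl⟩ : ∃ k, n = k + 2 := ⟨n - 2, by omega⟩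
  unfold tgt
  rw [if_neg (by omega), if_neg (by omega), if_neg (by omega)]
  have e : k + 2 - 1 = k + 1 := rfl
  rw [e, Nat.choose_two_right, Nat.add_sub_cancel]
  have h1 : 2 * ((k + 1) * k / 2) ≤ (k + 1) * k := Nat.mul_div_le _ _
  have h2 : k ≤ 2 * ((k + 1) / 2) := by omega
  have h3 : 4 * ((k + 1) * k / 2 + 1 - (k + 1) / 2) ≤ 2 * k ^ 2 + 4 := by
    have : 2 * ((k + 1) * k) = 2 * k ^ 2 + 2 * k := by ring
    omega
  have h4 : ((k + 2 : ℕ) : ℤ) - 2 = k := by push_cast; ring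
  rw [h4]
  exact_mod_cast h3

lemma polyA (m k : ℤ) (hk : 1 ≤ k) (hm : k ≤ m + 1) (hn : 23 ≤ m + k) :
    2 * (m + k - 2) ^ 2 < 4 + m * k * (2 * m - k - 3) := by
  by_cases h : 12 ≤ k
  · obtain ⟨u, rfl⟩ : ∃ u, k = 12 + u := ⟨k - 12, by ring⟩
    obtain ⟨t, rfl⟩ : ∃ t, m = 11 + u + t := ⟨m - 11 - u, by ring⟩
    have hu : 0 ≤ u := by linarith
    have ht : 0 ≤ t := by linarith
    have : 0 ≤ 264 * t + 125 * u + 22 * t * t + 57 * t * u + 22 * u * u + 2 * t * t * u + 3 * t * u * u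
      + u * u * u := by positivity
    nlinarith
  · obtain ⟨u, rfl⟩ : ∃ u, m = 23 - k + u := ⟨m - 23 + k, by ring⟩
    have hu : 0 ≤ u := by linarith
    have : k < 12 := not_le.1 h
    have := mul_nonneg hu hu
    interval_cases k <;> nlinarith

lemma polyB (M n : ℤ) (h : n = 2 * M + 2 ∨ n = 2 * M + 3) (hn : 23 ≤ n) :
    9 * M * (M + 2) * (n - 2) ^ 2 <
      2 * (3 * (M - 1) * (n * (n - 1) * (n - 2)) + 9 * (M ^ 2 + 2) * n - M * (M + 2) * (n * (n - 1))) := by
  rcases h with rfl | rfl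
  · obtain ⟨u, rfl⟩ : ∃ u, M = 11 + u := ⟨M - 11, by ring⟩
    have hu : 0 ≤ u := by omega
    have : 0 ≤ 5936 * u + 1544 * u * u + 136 * u * u * u + 4 * u * u * u * u := by positivity
    nlinarith
  · obtain ⟨u, rfl⟩ : ∃ u, M = 10 + u := ⟨M - 10, by ring⟩
    have hu : 0 ≤ u := by omega
    have : 0 ≤ 10514 * u + 1949 * u * u + 148 * u * u * u + 4 * u * u * u * u := by positivity
    nlinarith

lemma Geo.exists_max (H : Geo P B L) : ∃ C ∈ B, ∀ β ∈ B, β.card ≤ C.card := by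
  obtain ⟨a, b, c, ha, hb, hc, hab, hac, hbc⟩ := two_lt_card_iff.1 (show 2 < P.card from H.big)
  obtain ⟨β, hβ, -⟩ := H.ex a ha b hb c hc hab hac hbc
  exact exists_max_image B card ⟨β, hβ⟩

lemma Geo.card_lt (H : Geo P B L) {C : Finset α} (hC : C ∈ B) : C.card < P.card := by
  obtain ⟨x, hx, hx'⟩ := H.proper C hC
  exact card_lt_card ⟨H.sub C hC, fun h => hx' (h hx)⟩

lemma Geo.large (H : Geo P B L) (hn : 23 ≤ P.card) : tgt P.card ≤ (B \ L).card := by
  obtain ⟨C, hC, hmax⟩ := H.exists_max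
  have h1 := tgt_le (n := P.card) (by omega)
  have h2 := H.card_lt hC
  have h3 := card_sdiff_add_card_eq_card (H.sub C hC)
  have h5 := H.three C hC
  by_cases hm : 2 * C.card + 2 ≤ P.card
  · have hB := H.boundB (M := (P.card - 2) / 2) (by omega) (fun β hβ => (hmax β hβ).trans (by omega))
    have hp := polyB (((P.card - 2) / 2 : ℕ) : ℤ) P.card (by omega) (by omega)
    have hM : (10 : ℤ) ≤ ((P.card - 2) / 2 : ℕ) := by omega
    generalize (((P.card - 2) / 2 : ℕ) : ℤ) = M at hB hp hM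
    have hD : 0 < 9 * M * (M + 2) := by positivity
    have : ((P.card : ℤ) - 2) ^ 2 < 2 * (B \ L).card := by
      apply lt_of_mul_lt_mul_left _ hD.le
      linarith
    omega
  · have hA := H.boundA hC
    have hp := polyA C.card (P \ C).card (by omega) (by omega) (by omega)
    have e : (C.card : ℤ) + (P \ C).card = P.card := by omega
    rw [e] at hp
    have : (3 : ℤ) * 1 ≤ C.card * (P \ C).card := mul_le_mul (by omega) (by omega) (by norm_num) (by omega)
    have : 2 * ((P.card : ℤ) - 2) ^ 2 < 4 * (B \ L).card := by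
      split_ifs at hA <;> nlinarith
    omega

def lpOK (n m l : ℕ) (y : List ℤ) : Bool :=
  match y with
  | [D, y1, y2, y3, p, q, r, s] =>
    decide (0 < D ∧ 0 ≤ p ∧ 0 ≤ q) && decide (0 ≤ r ∧ 0 ≤ s) &&
      decide (D * ((tgt n : ℤ) - 1) < FF D y1 y2 y3 p q r s 0 m 0 l + RR y1 y2 y3 p q r s 0 m (n - m)) &&
      (List.range 3).all fun i => (List.range (m + 1)).all fun j => (List.range 2).all fun e =>
        decide (i + j < 3) || decide (m < i + j) || decide (l = 1 ∧ e = 1 ∧ 1 < i) ||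
        decide (0 ≤ FF D y1 y2 y3 p q r s 0 (i : ℕ) (j : ℕ) (e : ℕ))
  | _ => false

def lpTab : List (ℕ × ℕ × ℕ × List ℤ) :=
  [(13, 7, 0, [1764, 568, -127, 16, 0, 40, 276, 36]),
   (14, 7, 0, [252, 49, 14, 8, 15, 40, 28, 28]),
   (15, 6, 0, [144, 21, 15, 3, 14, 26, 16, 16]),
   (15, 6, 1, [144, 27, 9, 5, 18, 22, 8, 16]),
   (15, 7, 0, [108, 16, 11, 2, 10, 20, 12, 12]),
   (15, 7, 1, [252, 49, 14, 8, 30, 40, 13, 28]),
   (16, 7, 0, [108, 16, 11, 2, 10, 20, 12, 12]),
   (16, 7, 1, [252, 49, 14, 8, 30, 40, 13, 28]),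
   (16, 8, 0, [720, 144, 36, 21, 37, 118, 80, 80]),
   (17, 8, 0, [180, 27, 18, 3, 16, 34, 20, 20]),
   (17, 8, 1, [720, 144, 36, 21, 82, 118, 35, 80]),
   (18, 8, 0, [180, 27, 18, 3, 16, 34, 20, 20]),
   (18, 8, 1, [720, 144, 36, 21, 82, 118, 35, 80]),
   (18, 9, 0, [1188, 243, 54, 32, 53, 200, 132, 132]),
   (19, 9, 0, [1188, 243, 54, 32, 53, 200, 132, 132]),
   (20, 9, 0, [396, 60, 39, 6, 34, 76, 44, 44]),
   (20, 9, 1, [1188, 243, 54, 32, 130, 200, 55, 132]),
   (21, 10, 0, [360, 75, 15, 9, 14, 62, 40, 40]),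
   (22, 10, 0, [72, 11, 7, 1, 6, 14, 8, 8])]

def caseA (n m l : ℕ) : Bool :=
  decide (4 * ((tgt n : ℤ) - 1) < 4 * (1 - l) + (m : ℤ) * (n - m) * (2 * m - (n - m) - 3 + 2 * l))

def caseB (n M : ℕ) : Bool :=
  decide (9 * M * (M + 2) * ((tgt n : ℤ) - 1) < 3 * ((M : ℤ) - 1) * (n * (n - 1) * (n - 2))
    + 9 * (M ^ 2 + 2) * n - M * (M + 2) * (n * (n - 1)))

def caseOK (n m l : ℕ) : Bool :=
  decide (6 ≤ n ∧ n ≤ 14 ∧ m ≤ 6) || caseA n m l || caseB n (max m 4) ||
    lpTab.any (fun x => decide (x.1 = n ∧ x.2.1 = m ∧ x.2.2.1 = l) && lpOK n m l x.2.2.2)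

lemma cases_ok : ∀ n < 23, ∀ m < n, ∀ l < 2, 4 ≤ n → 3 ≤ m → caseOK n m l = true := by
  decide +kernel

lemma Geo.lp (H : Geo P B L) {C : Finset α} (hC : C ∈ B) (hmax : ∀ β ∈ B, β.card ≤ C.card) {y : List ℤ}
    (h : lpOK P.card C.card (if C ∈ L then 1 else 0) y = true) : tgt P.card ≤ (B \ L).card := by
  unfold lpOK at h
  split at h
  · rename_i D y1 y2 y3 p q r s
    simp only [Bool.and_eq_true, decide_eq_true_eq, List.all_eq_true, List.mem_range, Bool.or_eq_true] at h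
    obtain ⟨⟨⟨⟨hD, hp, hq⟩, hr, hs⟩, h1⟩, h2⟩ := h
    have := H.masterC hC hmax D y1 y2 y3 p q r s 0 hp hq hr hs le_rfl (fun i j e hi he h3 h4 h5 => by
      rcases h2 i (by omega) j (by omega) e (by omega) with ((h | h) | h) | h
      · omega
      · omega
      · have := h5 (by by_contra hn; simp [hn] at h) h.2.1
        omega
      · exact h)
    have e : ((P \ C).card : ℤ) = P.card - C.card := by
      have := card_sdiff_add_card_eq_card (H.sub C hC); omega
    rw [e] at this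
    push_cast at h1
    have : (tgt P.card : ℤ) - 1 < (B \ L).card := lt_of_mul_lt_mul_left (h1.trans_le this) hD.le
    omega
  · exact absurd h (by simp)

theorem Geo.lower (H : Geo P B L) (h4 : 4 ≤ P.card)
    (eng : 6 ≤ P.card → P.card ≤ 14 → (∀ β ∈ B, β.card ≤ 6) → tgt P.card ≤ (B \ L).card) :
    tgt P.card ≤ (B \ L).card := by
  by_cases hn : 23 ≤ P.card
  · exact H.large hn
  obtain ⟨C, hC, hmax⟩ := H.exists_max
  have h := cases_ok P.card (by omega) C.card (H.card_lt hC) (if C ∈ L then 1 else 0)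
    (by split_ifs <;> omega) h4 (H.three C hC)
  have e : ((P \ C).card : ℤ) = P.card - C.card := by
    have := card_sdiff_add_card_eq_card (H.sub C hC); omega
  unfold caseOK at h
  simp only [Bool.or_eq_true, List.any_eq_true, Bool.and_eq_true] at h
  rcases h with ((h | h) | h) | ⟨x, -, -, h⟩
  · have := of_decide_eq_true h
    exact eng this.1 this.2.1 (fun β hβ => (hmax β hβ).trans this.2.2)
  · have h1 := of_decide_eq_true h
    have h2 := H.boundA hC
    rw [e] at h2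
    push_cast at h1
    have : 4 * ((tgt P.card : ℤ) - 1) < 4 * (B \ L).card := h1.trans_le h2
    omega
  · have h1 := of_decide_eq_true h
    have h2 := H.boundB (M := max C.card 4) (le_max_right _ _) (fun β hβ => (hmax β hβ).trans (le_max_left _ _))
    have hM : (4 : ℤ) ≤ (max C.card 4 : ℕ) := by exact_mod_cast le_max_right _ _
    have : (tgt P.card : ℤ) - 1 < (B \ L).card := lt_of_mul_lt_mul_left (h1.trans_le h2) (by positivity)
    omega
  · exact H.lp hC hmax h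

end Pool.Agent.MP_1f1ca1_co
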