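import Pool.Agent.MP_1f1ca1_co.Large
import Pool.Agent.MP_1f1ca1_co.Cert.E6
import Pool.Agent.MP_1f1ca1_co.Cert.E7
import Pool.Agent.MP_1f1ca1_co.Cert.E8
import Pool.Agent.MP_1f1ca1_co.Cert.E9
import Pool.Agent.MP_1f1ca1_co.Cert.E10
import Pool.Agent.MP_1f1ca1_co.Cert.E11
import Pool.Agent.MP_1f1ca1_co.Cert.E12
import Pool.Agent.MP_1f1ca1_co.Cert.E13
import Pool.Agent.MP_1f1ca1_co.Cert.E14

/-! The lower bound for every configuration. -/

set_option autoImplicit false

namespace Pool.Agent.MP_1f1ca1_co

theorem Geo.lower_all {α : Type} [DecidableEq α] {P : Finset α} {B L : Finset (Finset α)} (G : Geo P B L)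
    (h4 : 4 ≤ P.card) : tgt P.card ≤ (B \ L).card := by
  refine G.lower h4 fun h6 h14 hs => ?_
  obtain ⟨n, hn⟩ : ∃ n, P.card = n := ⟨_, rfl⟩
  rw [hn] at h6 h14 ⊢
  interval_cases n
  · have := eng6 G hn hs
    have e : tgt 6 = 8 := by decide
    omega
  · have := eng7 G hn hs
    have e : tgt 7 = 11 := by decide
    omega
  · have := eng8 G hn hs
    have e : tgt 8 = 17 := by decide
    omega
  · have := eng9 G hn hs
    have e : tgt 9 = 25 := by decide
    omega
  · have := eng10 G hn hs
    have e : tgt 10 = 33 := by decide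
    omega
  · have := eng11 G hn hs
    have e : tgt 11 = 41 := by decide
    omega
  · have := eng12 G hn hs
    have e : tgt 12 = 51 := by decide
    omega
  · have := eng13 G hn hs
    have e : tgt 13 = 61 := by decide
    omega
  · have := eng14 G hn hs
    have e : tgt 14 = 73 := by decide
    omega

end Pool.Agent.MP_1f1ca1_co
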