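import Mathlib

/-! Melchior's inequality for rank three vector configurations, by counting sign vectors. -/

set_option autoImplicit false

namespace Pool.Agent.MP_1f1ca1_co
open Finset

abbrev V3 := Fin 3 → ℝ

def dot (u w : V3) : ℝ := u 0 * w 0 + u 1 * w 1 + u 2 * w 2
def det3 (a b c : V3) : ℝ :=
  a 0 * (b 1 * c 2 - b 2 * c 1) - a 1 * (b 0 * c 2 - b 2 * c 0) + a 2 * (b 0 * c 1 - b 1 * c 0)
def crs (a b : V3) : V3 := ![a 1 * b 2 - a 2 * b 1, a 2 * b 0 - a 0 * b 2, a 0 * b 1 - a 1 * b 0]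

lemma dot_add_smul (u φ ψ : V3) (t : ℝ) : dot u (φ + t • ψ) = dot u φ + t * dot u ψ := by
  simp [dot]; ring

lemma dot_comb (u φ ψ : V3) (s t : ℝ) : dot u (s • φ + t • ψ) = s * dot u φ + t * dot u ψ := by
  simp [dot]; ring

lemma dot_comb' (u w φ : V3) (s t : ℝ) : dot (s • u + t • w) φ = s * dot u φ + t * dot w φ := by
  simp [dot]; ring

lemma dot_neg (u φ : V3) : dot u (-φ) = - dot u φ := by
  simp [dot]; ring

lemma dot_zero (u : V3) : dot u 0 = 0 := by simp [dot]

lemma dot_crs (a b c : V3) : dot c (crs a b) = det3 a b c := by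
  simp [dot, crs, det3]; ring

lemma det3_aab (a b : V3) : det3 a a b = 0 := by simp [det3]; ring
lemma det3_aba (a b : V3) : det3 a b a = 0 := by simp [det3]; ring
lemma det3_abb (a b : V3) : det3 a b b = 0 := by simp [det3]; ring
lemma det3_swap12 (a b c : V3) : det3 b a c = - det3 a b c := by simp [det3]; ring
lemma det3_swap23 (a b c : V3) : det3 a c b = - det3 a b c := by simp [det3]; ring
lemma det3_rot (a b c : V3) : det3 b c a = det3 a b c := by simp [det3]; ring

lemma dot_self_pos {u : V3} (h : u ≠ 0) : 0 < dot u u := by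
  by_contra hc
  apply h
  have h0 : u 0 = 0 := by unfold dot at hc; nlinarith [sq_nonneg (u 0), sq_nonneg (u 1), sq_nonneg (u 2)]
  have h1 : u 1 = 0 := by unfold dot at hc; nlinarith [sq_nonneg (u 0), sq_nonneg (u 1), sq_nonneg (u 2)]
  have h2 : u 2 = 0 := by unfold dot at hc; nlinarith [sq_nonneg (u 0), sq_nonneg (u 1), sq_nonneg (u 2)]
  ext i; fin_cases i <;> simp [h0, h1, h2]

/-- a vector orthogonal to `a` and `b` is parallel to their cross product -/
lemma key_id (a b c φ : V3) (ha : dot a φ = 0) (hb : dot b φ = 0) :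
    dot (crs a b) (crs a b) * dot c φ = dot φ (crs a b) * det3 a b c := by
  simp only [dot, crs, det3] at *
  simp only [Matrix.cons_val_zero, Matrix.cons_val_one, Matrix.cons_val]
  linear_combination
    (((a 2 * b 0 - a 0 * b 2) * c 2 - (a 0 * b 1 - a 1 * b 0) * c 1) * b 0 +
      ((a 0 * b 1 - a 1 * b 0) * c 0 - (a 1 * b 2 - a 2 * b 1) * c 2) * b 1 +
      ((a 1 * b 2 - a 2 * b 1) * c 1 - (a 2 * b 0 - a 0 * b 2) * c 0) * b 2) * ha -
    (((a 2 * b 0 - a 0 * b 2) * c 2 - (a 0 * b 1 - a 1 * b 0) * c 1) * a 0 +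
      ((a 0 * b 1 - a 1 * b 0) * c 0 - (a 1 * b 2 - a 2 * b 1) * c 2) * a 1 +
      ((a 1 * b 2 - a 2 * b 1) * c 1 - (a 2 * b 0 - a 0 * b 2) * c 0) * a 2) * hb

lemma crs_ne_of_det {a b c : V3} (h : det3 a b c ≠ 0) : crs a b ≠ 0 := by
  intro h0; apply h; rw [← dot_crs, h0, dot_zero]

lemma perturb (F : Finset V3) (φ ψ : V3) (h : ∀ u ∈ F, dot u φ ≠ 0) :
    ∃ ε : ℝ, 0 < ε ∧ ∀ t : ℝ, |t| ≤ ε → ∀ u ∈ F, 0 < dot u φ * dot u (φ + t • ψ) := by
  have h1 : ∀ u ∈ F, ∀ᶠ t in nhds (0 : ℝ), 0 < dot u φ * dot u (φ + t • ψ) := by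
    intro u hu
    have hc : Continuous fun t : ℝ => dot u φ * dot u (φ + t • ψ) := by
      simp only [dot_add_smul]; fun_prop
    have h0 : 0 < dot u φ * dot u (φ + (0 : ℝ) • ψ) := by
      rw [dot_add_smul]; have := mul_self_pos.2 (h u hu); simpa using this
    exact hc.continuousAt.eventually (lt_mem_nhds h0)
  have h2 := (Filter.eventually_all_finset F).2 h1
  obtain ⟨ε, hε, h3⟩ := Metric.eventually_nhds_iff.1 h2
  refine ⟨ε / 2, by linarith, fun t ht u hu => h3 (y := t) ?_ u hu⟩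
  rw [Real.dist_eq, sub_zero]; linarith

lemma generic (F G : Finset V3) (φ : V3) (h : ∀ u ∈ F, dot u φ ≠ 0) (hG : ∀ g ∈ G, g ≠ 0) :
    ∃ φ', (∀ u ∈ F, 0 < dot u φ * dot u φ') ∧ ∀ g ∈ G, dot g φ' ≠ 0 := by
  classical
  induction G using Finset.induction_on with
  | empty => exact ⟨φ, fun u hu => mul_self_pos.2 (h u hu), by simp⟩
  | insert g G hg ih =>
    obtain ⟨φ', h1, h2⟩ := ih (fun x hx => hG x (mem_insert_of_mem hx))
    by_cases h0 : dot g φ' = 0
    · obtain ⟨ε, hε, h3⟩ := perturb (F ∪ G) φ' g (by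
        intro u hu
        rcases mem_union.1 hu with hu | hu
        · intro h0; have := h1 u hu; rw [h0] at this; simp at this
        · exact h2 u hu)
      have h4 := h3 ε (by rw [abs_of_pos hε])
      refine ⟨φ' + ε • g, fun u hu => ?_, fun x hx => ?_⟩
      · have a1 := h1 u hu
        have a2 := h4 u (mem_union_left _ hu)
        rcases lt_trichotomy (dot u φ') 0 with c | c | c
        · have b1 : dot u φ < 0 := by nlinarith
          have b2 : dot u (φ' + ε • g) < 0 := by nlinarith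
          nlinarith
        · rw [c] at a1; simp at a1
        · have b1 : 0 < dot u φ := by nlinarith
          have b2 : 0 < dot u (φ' + ε • g) := by nlinarith
          nlinarith
      · rcases mem_insert.1 hx with rfl | hx
        · rw [dot_add_smul, h0, zero_add]
          exact (mul_pos hε (dot_self_pos (hG x (mem_insert_self _ _)))).ne'
        · intro h0; have := h4 x (mem_union_right _ hx); rw [h0] at this; simp at this
    · refine ⟨φ', h1, fun x hx => ?_⟩
      rcases mem_insert.1 hx with rfl | hx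
      · exact h0
      · exact h2 x hx

section topes
variable {ι : Type} [DecidableEq ι] (v : ι → V3)

def Cone (Z S U : Finset ι) (φ : V3) : Prop :=
  (∀ z ∈ Z, dot (v z) φ = 0) ∧ (∀ a ∈ S, dot (v a) φ ≠ 0) ∧ ∀ a ∈ S, (a ∈ U ↔ 0 < dot (v a) φ)

open Classical in
noncomputable def Tope (Z S : Finset ι) : Finset (Finset ι) :=
  S.powerset.filter (fun U => ∃ φ, Cone v Z S U φ)

omit [DecidableEq ι] in
lemma mem_Tope {Z S U : Finset ι} : U ∈ Tope v Z S ↔ U ⊆ S ∧ ∃ φ, Cone v Z S U φ := by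
  simp [Tope]

omit [DecidableEq ι] in
lemma Cone.of_pos {Z S U : Finset ι} {φ φ' : V3} (h : Cone v Z S U φ)
    (hz : ∀ z ∈ Z, dot (v z) φ' = 0) (hp : ∀ a ∈ S, 0 < dot (v a) φ * dot (v a) φ') :
    Cone v Z S U φ' := by
  refine ⟨hz, fun a ha h0 => ?_, fun a ha => ?_⟩
  · have := hp a ha; rw [h0] at this; simp at this
  · rw [h.2.2 a ha]
    have := hp a ha
    constructor
    · intro h1; nlinarith
    · intro h1; nlinarith

omit [DecidableEq ι] in
lemma Cone.perturb {Z S U : Finset ι} {φ ψ : V3} (h : Cone v Z S U φ)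
    (hz : ∀ z ∈ Z, dot (v z) ψ = 0) :
    ∃ ε : ℝ, 0 < ε ∧ ∀ t : ℝ, |t| ≤ ε → Cone v Z S U (φ + t • ψ) := by
  classical
  obtain ⟨ε, hε, h1⟩ := Pool.Agent.MP_1f1ca1_co.perturb (S.image v) φ ψ (by
    intro u hu; obtain ⟨a, ha, rfl⟩ := mem_image.1 hu; exact h.2.1 a ha)
  refine ⟨ε, hε, fun t ht => h.of_pos v (fun z hz' => ?_) (fun a ha => h1 t ht _ (mem_image_of_mem v ha))⟩
  rw [dot_add_smul, h.1 z hz', hz z hz']; simp

lemma del_res {Z S : Finset ι} {a : ι} (ha : a ∉ S) {ψ : V3} (hz : ∀ z ∈ Z, dot (v z) ψ = 0)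
    (hψ : dot (v a) ψ ≠ 0) :
    (Tope v Z (insert a S)).card = (Tope v Z S).card + (Tope v (insert a Z) S).card := by
  classical
  set Up := S.powerset.filter (fun U => ∃ φ, Cone v Z S U φ ∧ 0 < dot (v a) φ) with hUp
  set Um := S.powerset.filter (fun U => ∃ φ, Cone v Z S U φ ∧ dot (v a) φ < 0) with hUm
  have e1 : (Tope v Z (insert a S)).filter (fun T => a ∉ T) = Um := by
    ext T
    simp only [hUm, mem_filter, mem_Tope, mem_powerset]
    constructor
    · rintro ⟨⟨h1, φ, h2⟩, h3⟩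
      refine ⟨fun x hx => ?_, φ, ⟨h2.1, fun b hb => h2.2.1 b (mem_insert_of_mem hb),
        fun b hb => h2.2.2 b (mem_insert_of_mem hb)⟩, ?_⟩
      · rcases mem_insert.1 (h1 hx) with rfl | h
        · exact absurd hx h3
        · exact h
      · have b1 := h2.2.1 a (mem_insert_self _ _)
        have b2 := h2.2.2 a (mem_insert_self _ _)
        rcases lt_trichotomy (dot (v a) φ) 0 with c | c | c
        · exact c
        · exact absurd c b1
        · exact absurd (b2.2 c) h3
    · rintro ⟨h1, φ, h2, h3⟩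
      refine ⟨⟨h1.trans (subset_insert _ _), φ, h2.1, fun b hb => ?_, fun b hb => ?_⟩, fun h => ha (h1 h)⟩
      · rcases mem_insert.1 hb with rfl | hb
        · exact h3.ne
        · exact h2.2.1 b hb
      · rcases mem_insert.1 hb with rfl | hb
        · exact ⟨fun h => absurd (h1 h) ha, fun h => absurd h (by linarith)⟩
        · exact h2.2.2 b hb
  have e2 : (Tope v Z (insert a S)).filter (fun T => a ∈ T) = Up.image (insert a) := by
    ext T
    simp only [hUp, mem_filter, mem_Tope, mem_powerset, mem_image]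
    constructor
    · rintro ⟨⟨h1, φ, h2⟩, h3⟩
      refine ⟨T.erase a, ⟨fun x hx => ?_, φ, ⟨h2.1, fun b hb => h2.2.1 b (mem_insert_of_mem hb),
        fun b hb => ?_⟩, (h2.2.2 a (mem_insert_self _ _)).1 h3⟩, insert_erase h3⟩
      · rcases mem_insert.1 (h1 (mem_of_mem_erase hx)) with rfl | h
        · simp at hx
        · exact h
      · rw [← h2.2.2 b (mem_insert_of_mem hb), mem_erase]
        exact ⟨fun h => h.2, fun h => ⟨fun e => ha (e ▸ hb), h⟩⟩
    · rintro ⟨U, ⟨h1, φ, h2, h3⟩, rfl⟩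
      refine ⟨⟨insert_subset_insert _ h1, φ, h2.1, fun b hb => ?_, fun b hb => ?_⟩, mem_insert_self _ _⟩
      · rcases mem_insert.1 hb with rfl | hb
        · exact h3.ne'
        · exact h2.2.1 b hb
      · rcases mem_insert.1 hb with rfl | hb
        · exact ⟨fun _ => h3, fun _ => mem_insert_self _ _⟩
        · rw [← h2.2.2 b hb, mem_insert]
          exact ⟨fun h => h.resolve_left (fun e => ha (e ▸ hb)), Or.inr⟩
  have e3 : (Up.image (insert a)).card = Up.card := by
    apply card_image_of_injOn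
    intro U hU U' hU' h
    have b1 : a ∉ U := fun h => ha ((mem_powerset.1 (mem_filter.1 hU).1) h)
    have b2 : a ∉ U' := fun h => ha ((mem_powerset.1 (mem_filter.1 hU').1) h)
    rw [← erase_insert b1, ← erase_insert b2, h]
  have e4 : Up ∪ Um = Tope v Z S := by
    ext U
    simp only [hUp, hUm, mem_union, mem_filter, mem_Tope, mem_powerset]
    constructor
    · rintro (⟨h1, φ, h2, -⟩ | ⟨h1, φ, h2, -⟩) <;> exact ⟨h1, φ, h2⟩
    · rintro ⟨h1, φ, h2⟩
      rcases lt_trichotomy (dot (v a) φ) 0 with c | c | c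
      · exact Or.inr ⟨h1, φ, h2, c⟩
      · obtain ⟨ε, hε, h3⟩ := h2.perturb v hz
        have h4 := h3 ε (by rw [abs_of_pos hε])
        rcases lt_or_gt_of_ne hψ with d | d
        · refine Or.inr ⟨h1, _, h4, ?_⟩
          rw [dot_add_smul, c]; nlinarith
        · refine Or.inl ⟨h1, _, h4, ?_⟩
          rw [dot_add_smul, c]; nlinarith
      · exact Or.inl ⟨h1, φ, h2, c⟩
  have e5 : Up ∩ Um = Tope v (insert a Z) S := by
    ext U
    simp only [hUp, hUm, mem_inter, mem_filter, mem_Tope, mem_powerset]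
    constructor
    · rintro ⟨⟨h1, φ, h2, h3⟩, ⟨-, φ', h2', h3'⟩⟩
      refine ⟨h1, (- dot (v a) φ') • φ + (dot (v a) φ) • φ', fun z hz' => ?_, fun b hb => ?_, fun b hb => ?_⟩
      · rw [dot_comb]
        rcases mem_insert.1 hz' with rfl | hz'
        · ring
        · rw [h2.1 z hz', h2'.1 z hz']; ring
      · rw [dot_comb]
        have c1 := h2.2.1 b hb
        have c2 := h2'.2.1 b hb
        have c3 := (h2.2.2 b hb).symm.trans (h2'.2.2 b hb)
        rcases lt_or_gt_of_ne c1 with d | d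
        · have : dot (v b) φ' < 0 := lt_of_le_of_ne (not_lt.1 fun h => absurd (c3.2 h) (by linarith)) c2
          nlinarith
        · have := c3.1 d
          nlinarith
      · rw [dot_comb]
        have c1 := h2.2.1 b hb
        have c2 := h2'.2.1 b hb
        have c3 := (h2.2.2 b hb).symm.trans (h2'.2.2 b hb)
        rw [h2.2.2 b hb]
        rcases lt_or_gt_of_ne c1 with d | d
        · have : dot (v b) φ' < 0 := lt_of_le_of_ne (not_lt.1 fun h => absurd (c3.2 h) (by linarith)) c2
          constructor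
          · intro h; linarith
          · intro h; nlinarith
        · have := c3.1 d
          constructor
          · intro h; nlinarith
          · intro h; exact d
    · rintro ⟨h1, φ, h2⟩
      have h3 : Cone v Z S U φ := ⟨fun z hz' => h2.1 z (mem_insert_of_mem hz'), h2.2⟩
      have c := h2.1 a (mem_insert_self _ _)
      obtain ⟨ε, hε, h4⟩ := h3.perturb v hz
      have h5 := h4 ε (by rw [abs_of_pos hε])
      have h6 := h4 (-ε) (by rw [abs_neg, abs_of_pos hε])
      rcases lt_or_gt_of_ne hψ with d | d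
      · refine ⟨⟨h1, _, h6, ?_⟩, ⟨h1, _, h5, ?_⟩⟩ <;> (rw [dot_add_smul, c]; nlinarith)
      · refine ⟨⟨h1, _, h5, ?_⟩, ⟨h1, _, h6, ?_⟩⟩ <;> (rw [dot_add_smul, c]; nlinarith)
  have := card_filter_add_card_filter_not (s := Tope v Z (insert a S)) (fun T => a ∈ T)
  rw [e1, e2, e3] at this
  rw [← this, ← e4, ← e5, card_union_add_card_inter]

lemma tope_empty (Z : Finset ι) : (Tope v Z ∅).card = 1 := by
  have : Tope v Z ∅ = {∅} := by
    ext U
    simp only [mem_Tope, subset_empty, mem_singleton]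
    constructor
    · exact fun h => h.1
    · rintro rfl; exact ⟨rfl, 0, fun z _ => dot_zero _, by simp, by simp⟩
  rw [this]; simp

lemma tope_1d_zero {a b c : ι} {S : Finset ι} (hn : crs (v a) (v b) ≠ 0) (hc : c ∈ S)
    (h0 : det3 (v a) (v b) (v c) = 0) : (Tope v (insert b {a}) S).card = 0 := by
  rw [card_eq_zero, eq_empty_iff_forall_notMem]
  intro U hU
  obtain ⟨-, φ, h1, h2, -⟩ := (mem_Tope v).1 hU
  have := key_id (v a) (v b) (v c) φ (h1 a (by simp)) (h1 b (by simp))
  rw [h0, mul_zero] at this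
  rcases mul_eq_zero.1 this with h | h
  · exact (dot_self_pos hn).ne' h
  · exact h2 c hc h

lemma tope_1d_two {a b : ι} {S : Finset ι} (hS : S.Nonempty)
    (h0 : ∀ c ∈ S, det3 (v a) (v b) (v c) ≠ 0) : (Tope v (insert b {a}) S).card = 2 := by
  classical
  obtain ⟨c0, hc0⟩ := hS
  have hn := dot_self_pos (crs_ne_of_det (h0 c0 hc0))
  have : Tope v (insert b {a}) S =
      {S.filter (fun c => 0 < det3 (v a) (v b) (v c)), S.filter (fun c => det3 (v a) (v b) (v c) < 0)} := by
    ext U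
    simp only [mem_Tope, mem_insert, mem_singleton]
    constructor
    · rintro ⟨h1, φ, h2, h3, h4⟩
      have k : ∀ c, dot (crs (v a) (v b)) (crs (v a) (v b)) * dot (v c) φ
          = dot φ (crs (v a) (v b)) * det3 (v a) (v b) (v c) :=
        fun c => key_id (v a) (v b) (v c) φ (h2 a (by simp)) (h2 b (by simp))
      rcases lt_trichotomy (dot φ (crs (v a) (v b))) 0 with d | d | d
      · right
        ext c
        rw [mem_filter]
        constructor
        · intro hc
          have := (h4 c (h1 hc)).1 hc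
          have := k c
          exact ⟨h1 hc, by nlinarith⟩
        · rintro ⟨hc, hc'⟩
          have := k c
          exact (h4 c hc).2 (by nlinarith)
      · exfalso
        have := k c0
        rw [d, zero_mul] at this
        rcases mul_eq_zero.1 this with h | h
        · exact hn.ne' h
        · exact h3 c0 hc0 h
      · left
        ext c
        rw [mem_filter]
        constructor
        · intro hc
          have := (h4 c (h1 hc)).1 hc
          have := k c
          exact ⟨h1 hc, by nlinarith⟩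
        · rintro ⟨hc, hc'⟩
          have := k c
          exact (h4 c hc).2 (by nlinarith)
    · rintro (rfl | rfl)
      · refine ⟨filter_subset _ _, crs (v a) (v b), fun z hz => ?_, fun c hc => ?_, fun c hc => ?_⟩
        · rw [dot_crs]
          rcases mem_insert.1 hz with rfl | hz
          · exact det3_abb _ _
          · rw [mem_singleton.1 hz]; exact det3_aba _ _
        · rw [dot_crs]; exact h0 c hc
        · rw [dot_crs, mem_filter]; tauto
      · refine ⟨filter_subset _ _, -crs (v a) (v b), fun z hz => ?_, fun c hc => ?_, fun c hc => ?_⟩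
        · rw [dot_neg, dot_crs]
          rcases mem_insert.1 hz with rfl | hz
          · simp [det3_abb]
          · rw [mem_singleton.1 hz]; simp [det3_aba]
        · rw [dot_neg, dot_crs]; exact neg_ne_zero.2 (h0 c hc)
        · rw [dot_neg, dot_crs, mem_filter, neg_pos]; tauto
  rw [this, card_pair]
  intro h
  have h1 := congrArg (fun U => c0 ∈ U) h
  simp only [mem_filter, hc0, true_and, eq_iff_iff] at h1
  rcases lt_or_gt_of_ne (h0 c0 hc0) with d | d
  · have := h1.2 d; linarith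
  · have := h1.1 d; linarith

structure LS (S : Finset ι) (𝓛 : Finset (Finset ι)) : Prop where
  sub : ∀ l ∈ 𝓛, l ⊆ S
  two : ∀ l ∈ 𝓛, 2 ≤ l.card
  ex : ∀ a ∈ S, ∀ b ∈ S, a ≠ b → ∃ l ∈ 𝓛, a ∈ l ∧ b ∈ l
  zero : ∀ l ∈ 𝓛, ∀ a ∈ l, ∀ b ∈ l, a ≠ b → ∀ c ∈ S, (det3 (v a) (v b) (v c) = 0 ↔ c ∈ l)
  proper : ∀ l ∈ 𝓛, ∃ c ∈ S, c ∉ l
  big : 2 ≤ S.card

variable {v} {S : Finset ι} {𝓛 : Finset (Finset ι)}

omit [DecidableEq ι] in
lemma LS.uniq (H : LS v S 𝓛) {l l' : Finset ι} (hl : l ∈ 𝓛) (hl' : l' ∈ 𝓛) {a b : ι} (hab : a ≠ b)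
    (ha : a ∈ l) (hb : b ∈ l) (ha' : a ∈ l') (hb' : b ∈ l') : l = l' := by
  ext c
  constructor
  · intro hc; exact (H.zero l' hl' a ha' b hb' hab c (H.sub l hl hc)).1 ((H.zero l hl a ha b hb hab c (H.sub l hl hc)).2 hc)
  · intro hc; exact (H.zero l hl a ha b hb hab c (H.sub l' hl' hc)).1 ((H.zero l' hl' a ha' b hb' hab c (H.sub l' hl' hc)).2 hc)

omit [DecidableEq ι] in
lemma LS.third (H : LS v S 𝓛) {a b : ι} (ha : a ∈ S) (hb : b ∈ S) (hab : a ≠ b) :
    ∃ c ∈ S, det3 (v a) (v b) (v c) ≠ 0 := by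
  obtain ⟨l, hl, h1, h2⟩ := H.ex a ha b hb hab
  obtain ⟨c, hc, h3⟩ := H.proper l hl
  exact ⟨c, hc, fun h => h3 ((H.zero l hl a h1 b h2 hab c hc).1 h)⟩

omit [DecidableEq ι] in
lemma LS.other (H : LS v S 𝓛) (a : ι) : ∃ b ∈ S, a ≠ b := by
  obtain ⟨x, hx, y, hy, hxy⟩ := one_lt_card.1 (show 1 < S.card from H.big)
  by_cases h : a = x
  · exact ⟨y, hy, h ▸ hxy⟩
  · exact ⟨x, hx, h⟩

lemma LS.count2 (H : LS v S 𝓛) {a : ι} (ha : a ∈ S) (S' : Finset ι) (hS : S' ⊆ S.erase a) :
    (Tope v {a} S').card =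
      if S' = ∅ then 1 else 2 * (𝓛.filter (fun l => a ∈ l ∧ (l ∩ S').Nonempty)).card := by
  induction S' using Finset.induction_on with
  | empty => simp [tope_empty]
  | insert b S' hb ih =>
    have hS' : S' ⊆ S.erase a := (subset_insert _ _).trans hS
    have hbS := hS (mem_insert_self _ _)
    have hab : a ≠ b := (mem_erase.1 hbS).1.symm
    have hbS' : b ∈ S := mem_of_mem_erase hbS
    obtain ⟨c, hc, hdet⟩ := H.third ha hbS' hab
    obtain ⟨l0, hl0, h1, h2⟩ := H.ex a ha b hbS' hab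
    rw [del_res v hb (ψ := crs (v a) (v c)) (by simp [dot_crs, det3_aba])
      (by rw [dot_crs, det3_swap23]; exact neg_ne_zero.2 hdet), ih hS', if_neg (insert_ne_empty _ _)]
    have hset : 𝓛.filter (fun l => a ∈ l ∧ (l ∩ insert b S').Nonempty) =
        insert l0 (𝓛.filter (fun l => a ∈ l ∧ (l ∩ S').Nonempty)) := by
      ext l
      simp only [mem_filter, mem_insert]
      constructor
      · rintro ⟨hl, hal, x, hx⟩
        rw [mem_inter, mem_insert] at hx
        rcases hx with ⟨hx, rfl | hx'⟩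
        · exact Or.inl (H.uniq hl hl0 hab hal hx h1 h2)
        · exact Or.inr ⟨hl, hal, x, mem_inter.2 ⟨hx, hx'⟩⟩
      · rintro (rfl | ⟨hl, hal, x, hx⟩)
        · exact ⟨hl0, h1, b, mem_inter.2 ⟨h2, mem_insert_self _ _⟩⟩
        · exact ⟨hl, hal, x, mem_inter.2 ⟨(mem_inter.1 hx).1, mem_insert_of_mem (mem_inter.1 hx).2⟩⟩
    rw [hset]
    by_cases he : S' = ∅
    · subst he; simp [tope_empty]
    · rw [if_neg he]
      by_cases hx : (l0 ∩ S').Nonempty
      · obtain ⟨x, hx'⟩ := id hx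
        rw [mem_inter] at hx'
        rw [tope_1d_zero v (crs_ne_of_det hdet) hx'.2
          ((H.zero l0 hl0 a h1 b h2 hab x (mem_of_mem_erase (hS' hx'.2))).2 hx'.1),
          insert_eq_of_mem (mem_filter.2 ⟨hl0, h1, hx⟩), add_zero]
      · rw [tope_1d_two v (nonempty_iff_ne_empty.2 he) (fun x hx' h0 => hx ⟨x, mem_inter.2
          ⟨(H.zero l0 hl0 a h1 b h2 hab x (mem_of_mem_erase (hS' hx'))).1 h0, hx'⟩⟩),
          card_insert_of_notMem (fun h => hx (mem_filter.1 h).2.2)]
        ring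

lemma LS.count3 (H : LS v S 𝓛) (S' : Finset ι) (hS : S' ⊆ S) :
    (Tope v ∅ S').card = if S' = ∅ then 1 else 2 + 2 * ∑ l ∈ 𝓛, ((l ∩ S').card - 1) := by
  induction S' using Finset.induction_on with
  | empty => simp [tope_empty]
  | insert a S' ha ih =>
    have hS' : S' ⊆ S := (subset_insert _ _).trans hS
    have haS := hS (mem_insert_self _ _)
    obtain ⟨b, hb, hab⟩ := H.other a
    obtain ⟨c, hc, hdet⟩ := H.third haS hb hab
    rw [del_res v ha (ψ := crs (v b) (v c)) (by simp) (by rw [dot_crs, det3_rot]; exact hdet), ih hS',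
      if_neg (insert_ne_empty _ _)]
    have e : (insert a ∅ : Finset ι) = {a} := rfl
    rw [e, H.count2 haS S' (fun x hx => mem_erase.2 ⟨fun e => ha (e ▸ hx), hS' hx⟩)]
    have hsum : ∑ l ∈ 𝓛, ((l ∩ insert a S').card - 1) = ∑ l ∈ 𝓛, ((l ∩ S').card - 1) +
        (𝓛.filter (fun l => a ∈ l ∧ (l ∩ S').Nonempty)).card := by
      rw [card_filter, ← sum_add_distrib]
      apply sum_congr rfl
      intro l _
      by_cases hal : a ∈ l
      · rw [inter_insert_of_mem hal, card_insert_of_notMem (fun h => ha (mem_inter.1 h).2)]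
        by_cases hn : (l ∩ S').Nonempty
        · have := card_pos.2 hn
          simp only [hal, hn, and_self, if_true]; omega
        · have := not_nonempty_iff_eq_empty.1 hn
          simp [this]
      · rw [inter_insert_of_notMem hal]; simp [hal]
    rw [hsum]
    by_cases he : S' = ∅
    · subst he; simp
    · rw [if_neg he, if_neg he]; ring

lemma LS.walls (H : LS v S 𝓛) {T : Finset ι} (hT : T ∈ Tope v ∅ S) :
    3 ≤ (S.filter (fun a => T.erase a ∈ Tope v {a} (S.erase a))).card := by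
  classical
  by_contra hlt
  set Wl := S.filter (fun a => T.erase a ∈ Tope v {a} (S.erase a)) with hWl
  -- two distinct elements of `S` covering the walls
  obtain ⟨a, ha, b, hb, hab, hcov⟩ : ∃ a ∈ S, ∃ b ∈ S, a ≠ b ∧ ∀ c ∈ Wl, c = a ∨ c = b := by
    obtain ⟨U, h1, h2, h3⟩ := exists_subsuperset_card_eq (n := 2) (show Wl ⊆ S from filter_subset _ S)
      (show Wl.card ≤ 2 by omega) H.big
    obtain ⟨a, b, hab, rfl⟩ := card_eq_two.1 h3
    refine ⟨a, h2 (by simp), b, h2 (by simp), hab, fun c hc => ?_⟩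
    simpa using h1 hc
  obtain ⟨hTS, φ0, hφ0⟩ := (mem_Tope v).1 hT
  obtain ⟨c0, hc0, hdet⟩ := H.third ha hb hab
  -- direction
  obtain ⟨d, hda, hdb, hd⟩ : ∃ d : V3, dot (v a) d = 0 ∧ dot (v b) d = 0 ∧
      dot (v c0) φ0 * dot (v c0) d < 0 := by
    have h0 := hφ0.2.1 c0 hc0
    rcases lt_or_gt_of_ne (mul_ne_zero h0 hdet) with h | h
    · exact ⟨crs (v a) (v b), by rw [dot_crs, det3_aba], by rw [dot_crs, det3_abb], by rwa [dot_crs]⟩
    · exact ⟨-crs (v a) (v b), by rw [dot_neg, dot_crs, det3_aba, neg_zero],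
        by rw [dot_neg, dot_crs, det3_abb, neg_zero], by rw [dot_neg, dot_crs]; linarith⟩
  -- generic point
  set G := ((S ×ˢ S).filter (fun p => p.1 ≠ p.2 ∧ dot (v p.1) d ≠ 0)).image
    (fun p => (dot (v p.2) d) • v p.1 + (- dot (v p.1) d) • v p.2) with hG
  obtain ⟨φ, hφ1, hφ2⟩ := generic (S.image v) G φ0 (by
      intro u hu; obtain ⟨x, hx, rfl⟩ := mem_image.1 hu; exact hφ0.2.1 x hx) (by
      intro g hg
      obtain ⟨p, hp, rfl⟩ := mem_image.1 hg
      rw [mem_filter, mem_product] at hp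
      obtain ⟨e, he, hdet'⟩ := H.third hp.1.1 hp.1.2 hp.2.1
      intro h0
      have := dot_comb' (v p.1) (v p.2) (crs (v p.1) (v e)) (dot (v p.2) d) (- dot (v p.1) d)
      rw [h0, dot_crs, dot_crs, dot_crs, det3_aba, det3_swap23 (v p.1) (v p.2) (v e)] at this
      simp only [det3, Pi.zero_apply, mul_zero, sub_self, add_zero] at this
      apply mul_ne_zero hp.2.2 hdet'
      simp only [det3]; linarith)
  have hφ : Cone v ∅ S T φ := hφ0.of_pos v (by simp) (fun x hx => hφ1 _ (mem_image_of_mem v hx))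
  set Ng := S.filter (fun c => dot (v c) φ * dot (v c) d < 0) with hNg
  have hc0N : c0 ∈ Ng := by
    refine mem_filter.2 ⟨hc0, ?_⟩
    have := hφ1 _ (mem_image_of_mem v hc0)
    have h0 := hφ0.2.1 c0 hc0
    rcases lt_or_gt_of_ne h0 with h | h
    · have b1 : dot (v c0) φ < 0 := by nlinarith
      have b2 : 0 < dot (v c0) d := by nlinarith
      nlinarith
    · have b1 : 0 < dot (v c0) φ := by nlinarith
      have b2 : dot (v c0) d < 0 := by nlinarith
      nlinarith
  obtain ⟨c, hcN, hmin⟩ := exists_min_image Ng (fun c => - dot (v c) φ / dot (v c) d) ⟨c0, hc0N⟩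
  obtain ⟨hcS, hcneg⟩ := mem_filter.1 hcN
  have hcd : dot (v c) d ≠ 0 := by intro h; rw [h] at hcneg; simp at hcneg
  set t := - dot (v c) φ / dot (v c) d with ht
  have htc : t * dot (v c) d = - dot (v c) φ := by rw [ht]; field_simp
  have htpos : 0 < t := by
    by_contra h
    have h' : t ≤ 0 := not_lt.1 h
    have : t * (dot (v c) d * dot (v c) d) = - (dot (v c) φ * dot (v c) d) := by
      rw [← mul_assoc, htc]; ring
    nlinarith [mul_self_nonneg (dot (v c) d)]
  have hwall : c ∈ Wl := by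
    refine mem_filter.2 ⟨hcS, (mem_Tope v).2 ⟨erase_subset_erase _ hTS, φ + t • d, ?_⟩⟩
    have hC : Cone v ∅ (S.erase c) (T.erase c) φ := by
      refine ⟨by simp, fun x hx => hφ.2.1 x (mem_of_mem_erase hx), fun x hx => ?_⟩
      rw [← hφ.2.2 x (mem_of_mem_erase hx), mem_erase]
      exact ⟨fun h => h.2, fun h => ⟨(mem_erase.1 hx).1, h⟩⟩
    have hP : ∀ x ∈ S.erase c, 0 < dot (v x) φ * dot (v x) (φ + t • d) := by
      intro x hx
      have hxS := mem_of_mem_erase hx
      have hx0 := mul_self_pos.2 (hφ.2.1 x hxS)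
      rw [dot_add_smul]
      by_cases hxn : dot (v x) φ * dot (v x) d < 0
      · have hxd : dot (v x) d ≠ 0 := by intro h; rw [h] at hxn; simp at hxn
        have h1 := hmin x (mem_filter.2 ⟨hxS, hxn⟩)
        have h2 := hφ2 _ (mem_image_of_mem _ (show (c, x) ∈ (S ×ˢ S).filter
          (fun p => p.1 ≠ p.2 ∧ dot (v p.1) d ≠ 0) from
            mem_filter.2 ⟨mem_product.2 ⟨hcS, hxS⟩, (mem_erase.1 hx).1.symm, hcd⟩))
        rw [dot_comb'] at h2
        simp only at h2
        set s := - dot (v x) φ / dot (v x) d with hs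
        have hsx : s * dot (v x) d = - dot (v x) φ := by rw [hs]; field_simp
        have hne : t ≠ s := by
          intro e
          apply h2
          have e1 : dot (v c) φ = - (t * dot (v c) d) := by linarith
          have e2 : dot (v x) φ = - (t * dot (v x) d) := by rw [e]; linarith
          rw [e1, e2]; ring
        have hlt' : t < s := lt_of_le_of_ne h1 hne
        have e3 : dot (v x) φ * (dot (v x) φ + t * dot (v x) d) =
            (s - t) * (-(dot (v x) φ * dot (v x) d)) := by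
          have e2 : dot (v x) φ = - (s * dot (v x) d) := by linarith
          rw [e2]; ring
        rw [e3]
        exact mul_pos (by linarith) (by linarith)
      · have := mul_nonneg htpos.le (not_lt.1 hxn)
        nlinarith
    refine ⟨fun z hz => ?_, (hC.of_pos v (by simp) hP).2⟩
    rw [mem_singleton.1 hz, dot_add_smul]; linarith
  rcases hcov c hwall with rfl | rfl
  · exact hcd hda
  · exact hcd hdb

theorem LS.melchior (H : LS v S 𝓛) : 3 + ∑ l ∈ 𝓛, l.card ≤ 3 * 𝓛.card := by
  classical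
  have hne : S ≠ ∅ := by intro h; have := H.big; rw [h] at this; simp at this
  have h3 := H.count3 S subset_rfl
  rw [if_neg hne] at h3
  have h4 : ∑ l ∈ 𝓛, ((l ∩ S).card - 1) + 𝓛.card = ∑ l ∈ 𝓛, l.card := by
    rw [card_eq_sum_ones 𝓛, ← sum_add_distrib]
    apply sum_congr rfl
    intro l hl
    rw [inter_eq_left.2 (H.sub l hl)]
    have := H.two l hl; omega
  have h5 : 3 * (Tope v ∅ S).card ≤ ∑ T ∈ Tope v ∅ S,
      (S.filter (fun a => T.erase a ∈ Tope v {a} (S.erase a))).card := by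
    rw [mul_comm, ← smul_eq_mul, ← sum_const]
    exact sum_le_sum fun T hT => H.walls hT
  have h6 : ∑ T ∈ Tope v ∅ S, (S.filter (fun a => T.erase a ∈ Tope v {a} (S.erase a))).card =
      ∑ a ∈ S, ((Tope v ∅ S).filter (fun T => T.erase a ∈ Tope v {a} (S.erase a))).card := by
    simp only [card_filter]; rw [sum_comm]
  have h7 : ∀ a ∈ S, ((Tope v ∅ S).filter (fun T => T.erase a ∈ Tope v {a} (S.erase a))).card ≤
      4 * (𝓛.filter (fun l => a ∈ l)).card := by
    intro a ha
    have b1 : ((Tope v ∅ S).filter (fun T => T.erase a ∈ Tope v {a} (S.erase a))) ⊆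
        Tope v {a} (S.erase a) ∪ (Tope v {a} (S.erase a)).image (insert a) := by
      intro T hT
      have hT' := (mem_filter.1 hT).2
      by_cases haT : a ∈ T
      · exact mem_union_right _ (mem_image.2 ⟨_, hT', insert_erase haT⟩)
      · rw [erase_eq_of_notMem haT] at hT'; exact mem_union_left _ hT'
    have b2 := (card_le_card b1).trans (card_union_le _ _)
    have b3 : ((Tope v {a} (S.erase a)).image (insert a)).card ≤ _ := card_image_le
    have b4 := H.count2 ha (S.erase a) subset_rfl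
    obtain ⟨b, hb, hab⟩ := H.other a
    rw [if_neg (ne_empty_of_mem (mem_erase.2 ⟨hab.symm, hb⟩))] at b4
    have b5 : (𝓛.filter (fun l => a ∈ l ∧ (l ∩ S.erase a).Nonempty)).card ≤
        (𝓛.filter (fun l => a ∈ l)).card :=
      card_le_card (fun l hl => mem_filter.2 ⟨(mem_filter.1 hl).1, (mem_filter.1 hl).2.1⟩)
    omega
  have h8 : ∑ a ∈ S, (𝓛.filter (fun l => a ∈ l)).card = ∑ l ∈ 𝓛, l.card := by
    simp only [card_filter]; rw [sum_comm]
    apply sum_congr rfl
    intro l hl
    rw [← card_filter, filter_mem_eq_inter, inter_eq_right.2 (H.sub l hl)]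
  have h9 := sum_le_sum h7
  rw [← mul_sum, h8] at h9
  omega

end topes

end Pool.Agent.MP_1f1ca1_co
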