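import Pool.Agent.MP_1f1ca1_co.Tree
import Pool.Agent.MP_1f1ca1_co.Geo

/-! Soundness of the checker, first part: weights, tables, labelings. -/

set_option autoImplicit false
set_option linter.unusedSectionVars false

namespace Pool.Agent.MP_1f1ca1_co
open Finset

variable {α : Type} [DecidableEq α]

noncomputable def KK (Kn : Finset (Finset α)) (p : α) : ℕ := 16 + ∑ β ∈ Kn.filter (fun β => p ∈ β), dl β.card
noncomputable def WW (Kn : Finset (Finset α)) (p : α) : ℕ := ∑ β ∈ Kn.filter (fun β => p ∈ β), wt β.card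

lemma KK_insert {Kn : Finset (Finset α)} {β : Finset α} (h : β ∉ Kn) (p : α) :
    KK (insert β Kn) p = if p ∈ β then KK Kn p + dl β.card else KK Kn p := by
  unfold KK
  rw [filter_insert]
  split_ifs with hp
  · rw [sum_insert (fun h' => h (mem_filter.1 h').1)]; ring
  · rfl

lemma WW_insert {Kn : Finset (Finset α)} {β : Finset α} (h : β ∉ Kn) (p : α) :
    WW (insert β Kn) p = if p ∈ β then WW Kn p + wt β.card else WW Kn p := by
  unfold WW
  rw [filter_insert]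
  split_ifs with hp
  · rw [sum_insert (fun h' => h (mem_filter.1 h').1)]; ring
  · rfl

lemma tabOK_spec {n off kt mx T rows : ℕ} (h : tabOK n off kt mx T rows = true) {key : ℕ}
    (hk : key < 128 * rows) :
    (∀ s, 3 ≤ s → s ≤ 6 → s ≤ mx + 1 → key + dl s < 128 * rows → tab T key ≤ wt s + tab T (key + dl s)) ∧
    (kt ≤ key → tab T key + 20 * min ((n - 1 + (key - kt)) / 3) ((n - 1) / 2) ≤ off) := by
  have h1 := allLt_spec _ _ h (key / 128) (by omega)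
  rw [force_eq] at h1
  have h2 := allLt_spec _ _ h1 (key % 128) (by omega)
  rw [force_eq] at h2
  have e : Nat.add (Nat.mul 128 (key / 128)) (key % 128) = key := Nat.div_add_mod key 128
  rw [e] at h2
  simp only [tabKey, tabStep, band_eq, bor_eq, ble_dec, blt_dec, Bool.and_eq_true, Bool.or_eq_true,
    decide_eq_true_eq, Nat.add_eq, Nat.mul_eq, mn2_eq, div_eq', Nat.sub_eq, Nat.pred_eq_sub_one] at h2
  obtain ⟨a3, a4, a5, a6, a7⟩ := h2
  refine ⟨fun s h3 h6 hm hs => ?_, fun hkt => a7.resolve_left (by omega)⟩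
  interval_cases s
  · exact a3.resolve_left (by omega)
  · exact a4.resolve_left (by omega)
  · exact (a5.resolve_left (by omega)).resolve_left (by omega)
  · exact (a6.resolve_left (by omega)).resolve_left (by omega)

lemma tab_chain {n off kt mx T rows : ℕ} (h : tabOK n off kt mx T rows = true) (R : Finset (Finset α)) :
    (∀ β ∈ R, 3 ≤ β.card ∧ β.card ≤ 6 ∧ β.card ≤ mx + 1) → ∀ key, key + ∑ β ∈ R, dl β.card < 128 * rows →
      tab T key ≤ ∑ β ∈ R, wt β.card + tab T (key + ∑ β ∈ R, dl β.card) := by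
  induction R using Finset.induction_on with
  | empty => simp
  | insert β R hβ ih =>
    intro hR key hk
    rw [sum_insert hβ] at hk ⊢
    rw [sum_insert hβ]
    obtain ⟨a1, a2, a3⟩ := hR β (mem_insert_self _ _)
    have b1 := (tabOK_spec h (key := key) (by omega)).1 β.card a1 a2 a3 (by omega)
    have b2 := ih (fun γ hγ => hR γ (mem_insert_of_mem hγ)) (key + dl β.card) (by omega)
    rw [← add_assoc]
    omega

structure Ctx (α : Type) [DecidableEq α] where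
  Pr : Par
  rows : ℕ
  P : Finset α
  B : Finset (Finset α)
  L : Finset (Finset α)
  p0 : α
  geo : Geo P B L
  card : P.card = Pr.n
  six : ∀ β ∈ B, β.card ≤ 6
  lim : 60 * (B \ L).card ≤ Pr.lim
  min : ∀ p ∈ P, WW (B \ L) p0 ≤ WW (B \ L) p
  n15 : Pr.n ≤ 15
  full : Pr.full = 2 ^ Pr.n - 1
  kt : Pr.kt = 64 * ((Pr.n - 1) * (Pr.n - 2)) + 19
  hrows : 128 * rows = 64 * ((Pr.n - 1) * (Pr.n - 2)) + 128
  t3 : tabOK Pr.n Pr.off Pr.kt 3 Pr.T3 rows = true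
  t4 : tabOK Pr.n Pr.off Pr.kt 4 Pr.T4 rows = true
  t5 : tabOK Pr.n Pr.off Pr.kt 5 Pr.T5 rows = true
  pats : ∀ i, PatBad (Pr.pl.get i)

variable (X : Ctx α)

lemma Ctx.n3 : 3 ≤ X.Pr.n := X.card ▸ X.geo.big

lemma Ctx.key_facts {p : α} (hp : p ∈ X.P) :
    X.Pr.kt ≤ KK X.B p ∧ KK X.B p < 128 * X.rows ∧ (X.L.filter (fun β => p ∈ β)).card ≤
      Min.min ((X.Pr.n - 1 + (KK X.B p - X.Pr.kt)) / 3) ((X.Pr.n - 1) / 2) := by
  have h1 := X.geo.p1 hp
  have h2 := X.geo.p2 hp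
  have h3 := X.geo.p3 hp
  have hn := X.n3
  have hn' := X.n15
  rw [X.card] at h1 h3
  have e1 : (KK X.B p : ℤ) = 16 + (64 * (((X.Pr.n : ℤ) - 1) * (X.Pr.n - 2)) +
      (4 * (X.B.filter (fun β => p ∈ β)).card - ∑ β ∈ X.B.filter (fun β => p ∈ β), (β.card : ℤ))) := by
    unfold KK
    push_cast
    rw [sum_congr rfl (fun β hβ => dl_int (X.geo.three β (mem_filter.1 hβ).1) (X.six β (mem_filter.1 hβ).1)),
      sum_add_distrib, ← mul_sum, h1, sum_sub_distrib, sum_const, nsmul_eq_mul, mul_comm _ (4 : ℤ)]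
  have e2 : 2 * (4 * ((X.B.filter (fun β => p ∈ β)).card : ℤ) - ∑ β ∈ X.B.filter (fun β => p ∈ β), (β.card : ℤ))
      ≤ ((X.Pr.n : ℤ) - 1) * (X.Pr.n - 2) := by
    rw [← h1, mul_comm (4 : ℤ), ← nsmul_eq_mul, ← sum_const, ← sum_sub_distrib, mul_sum]
    apply sum_le_sum
    intro β hβ
    have a1 : (3 : ℤ) ≤ β.card := by exact_mod_cast X.geo.three β (mem_filter.1 hβ).1
    nlinarith
  have e3 : (((X.Pr.n - 1) * (X.Pr.n - 2) : ℕ) : ℤ) = ((X.Pr.n : ℤ) - 1) * (X.Pr.n - 2) := by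
    rw [Nat.cast_mul, Nat.cast_sub (by omega), Nat.cast_sub (by omega)]; rfl
  have e4 : (X.Pr.n - 1) * (X.Pr.n - 2) ≤ 14 * 13 := Nat.mul_le_mul (by omega) (by omega)
  have e5 : 3 * (X.L.filter (fun β => p ∈ β)).card ≤ ∑ β ∈ X.L.filter (fun β => p ∈ β), β.card := by
    rw [mul_comm, ← smul_eq_mul, ← sum_const]
    exact sum_le_sum fun β hβ => X.geo.three β (X.geo.lsub (mem_filter.1 hβ).1)
  have e6 : 2 * (X.L.filter (fun β => p ∈ β)).card ≤ X.Pr.n - 1 := by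
    have a1 := X.geo.l11 (X := {p}) (Y := X.P.erase p) (by simp)
    rw [card_singleton, one_mul, card_erase_of_mem hp, X.card] at a1
    refine le_trans ?_ a1
    rw [card_filter, mul_sum]
    apply sum_le_sum
    intro l hl
    split_ifs with hpl
    · have : l ∩ X.P.erase p = l.erase p := by
        ext y; simp only [mem_inter, mem_erase]
        exact ⟨fun h => ⟨h.2.1, h.1⟩, fun h => ⟨h.2, h.1, X.geo.sub l (X.geo.lsub hl) h.2⟩⟩
      rw [this, inter_singleton_of_mem hpl, card_singleton, card_erase_of_mem hpl]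
      have := X.geo.three l (X.geo.lsub hl)
      omega
    · simp
  have e7 := X.kt
  have e8 := X.hrows
  rw [← e3, ← Nat.cast_sum] at e1 e2
  generalize (X.Pr.n - 1) * (X.Pr.n - 2) = N at *
  refine ⟨by omega, by omega, le_min (by omega) (by omega)⟩

lemma Ctx.WW_split (p : α) :
    WW X.B p = WW (X.B \ X.L) p + ∑ β ∈ X.L.filter (fun β => p ∈ β), wt β.card := by
  unfold WW
  rw [← sum_union (disjoint_filter_filter sdiff_disjoint), ← filter_union, sdiff_union_of_subset X.geo.lsub]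

lemma Ctx.lb {mx T : ℕ} (h : tabOK X.Pr.n X.Pr.off X.Pr.kt mx T X.rows = true) {Kn : Finset (Finset α)}
    (hK : Kn ⊆ X.B) {p : α} (hp : p ∈ X.P) (hm : ∀ β ∈ X.B, p ∈ β → β ∉ Kn → β.card ≤ mx + 1) :
    lb1 T X.Pr.off (KK Kn p) (WW Kn p) ≤ WW (X.B \ X.L) p := by
  obtain ⟨a1, a2, a3⟩ := X.key_facts hp
  have hs : Kn.filter (fun β => p ∈ β) ⊆ X.B.filter (fun β => p ∈ β) := filter_subset_filter _ hK
  have e1 : KK X.B p = KK Kn p + ∑ β ∈ X.B.filter (fun β => p ∈ β) \ Kn.filter (fun β => p ∈ β), dl β.card := by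
    unfold KK; rw [← sum_sdiff hs]; ring
  have e2 : WW X.B p = WW Kn p + ∑ β ∈ X.B.filter (fun β => p ∈ β) \ Kn.filter (fun β => p ∈ β), wt β.card := by
    unfold WW; rw [← sum_sdiff hs]; ring
  have b1 := tab_chain h (X.B.filter (fun β => p ∈ β) \ Kn.filter (fun β => p ∈ β)) (fun β hβ => by
    rw [mem_sdiff, mem_filter, mem_filter] at hβ
    exact ⟨X.geo.three β hβ.1.1, X.six β hβ.1.1, hm β hβ.1.1 hβ.1.2 (fun h => hβ.2 ⟨h, hβ.1.2⟩)⟩)
    (KK Kn p) (by omega)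
  rw [← e1] at b1
  have b2 := (tabOK_spec h a2).2 a1
  have b3 := X.WW_split p
  have b4 : ∑ β ∈ X.L.filter (fun β => p ∈ β), wt β.card ≤ 20 * (X.L.filter (fun β => p ∈ β)).card := by
    rw [mul_comm, ← smul_eq_mul, ← sum_const]
    exact sum_le_sum fun β _ => wt_le _
  simp only [lb1, Nat.add_eq, Nat.sub_eq]
  omega

lemma Ctx.lbT (mx : ℕ) {Kn : Finset (Finset α)} (hK : Kn ⊆ X.B) {p : α} (hp : p ∈ X.P)
    (hm : ∀ β ∈ X.B, p ∈ β → β ∉ Kn → β.card ≤ mx + 1) :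
    lb1 (X.Pr.T mx) X.Pr.off (KK Kn p) (WW Kn p) ≤ WW (X.B \ X.L) p := by
  simp only [Par.T, cnd_eq, ble_dec, beq_dec, decide_eq_true_eq]
  split_ifs with h1 h2
  · exact X.lb X.t5 hK hp (fun β hβ _ _ => X.six β hβ)
  · exact X.lb X.t4 hK hp (h2 ▸ hm)
  · exact X.lb X.t3 hK hp (fun β hβ h3 h4 => (hm β hβ h3 h4).trans (by omega))

lemma Ctx.lb5 {Kn : Finset (Finset α)} (hK : Kn ⊆ X.B) {p : α} (hp : p ∈ X.P) :
    lb1 X.Pr.T5 X.Pr.off (KK Kn p) (WW Kn p) ≤ WW (X.B \ X.L) p :=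
  X.lb X.t5 hK hp (fun β hβ _ _ => X.six β hβ)

lemma Ctx.sum_WW : ∑ p ∈ X.P, WW (X.B \ X.L) p ≤ X.Pr.lim := by
  refine le_trans (le_of_eq ?_) X.lim
  unfold WW
  simp only [sum_filter]
  rw [sum_comm, mul_comm, ← smul_eq_mul, ← sum_const]
  apply sum_congr rfl
  intro β hβ
  have hB := (mem_sdiff.1 hβ).1
  rw [← sum_filter, sum_const, smul_eq_mul, filter_mem_eq_inter, inter_eq_right.2 (X.geo.sub β hB)]
  exact wt_mul (X.geo.three β hB) (X.six β hB)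

structure Lab (z : ℕ → α) : Prop where
  inj : ∀ i < X.Pr.n, ∀ j < X.Pr.n, z i = z j → i = j
  mem : ∀ i < X.Pr.n, z i ∈ X.P
  sur : ∀ p ∈ X.P, ∃ i < X.Pr.n, z i = p
  zero : z 0 = X.p0

def SS (z : ℕ → α) (m : ℕ) : Finset α := (bs m).image z
def Kn (z : ℕ → α) (l : List ℕ) : Finset (Finset α) := l.toFinset.image (SS z)

lemma mem_Kn {z : ℕ → α} {l : List ℕ} {β : Finset α} : β ∈ Kn z l ↔ ∃ m ∈ l, SS z m = β := by
  simp [Kn]

lemma Kn_cons (z : ℕ → α) (m : ℕ) (l : List ℕ) : Kn z (m :: l) = insert (SS z m) (Kn z l) := by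
  simp [Kn]

lemma Ctx.lt16 {m : ℕ} (h : m < 2 ^ X.Pr.n) : m < 2 ^ 16 :=
  h.trans_le (Nat.pow_le_pow_right (by norm_num) (X.n15.trans (by norm_num)))

lemma Ctx.le_full {m : ℕ} : m ≤ X.Pr.full ↔ m < 2 ^ X.Pr.n := by
  rw [X.full]; have : 0 < 2 ^ X.Pr.n := by positivity
  omega

lemma Ctx.bit_full (i : ℕ) : X.Pr.full.testBit i = true ↔ i < X.Pr.n := by
  rw [X.full, Nat.testBit_two_pow_sub_one]; simp

variable {X} {z : ℕ → α}

lemma Lab.p0 (H : Lab X z) : X.p0 ∈ X.P := H.zero ▸ H.mem 0 (by have := X.n3; omega)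

lemma Lab.mem_SS (H : Lab X z) {m i : ℕ} (hm : m < 2 ^ X.Pr.n) (hi : i < X.Pr.n) :
    z i ∈ SS z m ↔ m.testBit i = true := by
  unfold SS
  rw [mem_image]
  constructor
  · rintro ⟨j, hj, e⟩
    rw [mem_bs (X.lt16 hm)] at hj
    rw [← H.inj j (lt_of_bit hm hj) i hi e]; exact hj
  · intro h; exact ⟨i, (mem_bs (X.lt16 hm)).2 h, rfl⟩

lemma Lab.mem_of_bit (H : Lab X z) {m i : ℕ} (hm : m < 2 ^ X.Pr.n) (hi : m.testBit i = true) : z i ∈ SS z m :=
  (H.mem_SS hm (lt_of_bit hm hi)).2 hi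

lemma Lab.ne (H : Lab X z) {i j : ℕ} (hi : i < X.Pr.n) (hj : j < X.Pr.n) (h : i ≠ j) : z i ≠ z j :=
  fun e => h (H.inj i hi j hj e)

lemma Lab.card_SS (H : Lab X z) {m : ℕ} (hm : m < 2 ^ X.Pr.n) : (SS z m).card = (bs m).card := by
  apply card_image_of_injOn
  intro i hi j hj e
  rw [mem_coe, mem_bs (X.lt16 hm)] at hi hj
  exact H.inj i (lt_of_bit hm hi) j (lt_of_bit hm hj) e

lemma Lab.SS_inj (H : Lab X z) {m m' : ℕ} (hm : m < 2 ^ X.Pr.n) (hm' : m' < 2 ^ X.Pr.n)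
    (e : SS z m = SS z m') : m = m' := by
  apply Nat.eq_of_testBit_eq
  intro i
  rw [Bool.eq_iff_iff]
  constructor
  · intro h; exact (H.mem_SS hm' (lt_of_bit hm h)).1 (e ▸ H.mem_of_bit hm h)
  · intro h; exact (H.mem_SS hm (lt_of_bit hm' h)).1 (e ▸ H.mem_of_bit hm' h)

lemma Lab.SS_sur (H : Lab X z) {β : Finset α} (hβ : β ⊆ X.P) : ∃ μ < 2 ^ X.Pr.n, SS z μ = β := by
  refine ⟨Nat.ofBits (fun i : Fin X.Pr.n => decide (z i ∈ β)), Nat.ofBits_lt_two_pow _, ?_⟩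
  ext p
  constructor
  · intro hp
    obtain ⟨i, hi, rfl⟩ := mem_image.1 hp
    have h1 := (mem_filter.1 hi).2
    have h2 := lt_of_bit (Nat.ofBits_lt_two_pow _) h1
    rw [Nat.testBit_ofBits_lt _ _ h2] at h1
    simpa using h1
  · intro hp
    obtain ⟨i, hi, rfl⟩ := H.sur p (hβ hp)
    apply H.mem_of_bit (Nat.ofBits_lt_two_pow _)
    rw [Nat.testBit_ofBits_lt _ _ hi]; simpa using hp

lemma Lab.sum_eq (H : Lab X z) (f : α → ℕ) : ∑ x ∈ range X.Pr.n, f (z x) = ∑ p ∈ X.P, f p := by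
  apply sum_nbij z
  · intro i hi; exact H.mem i (mem_range.1 hi)
  · intro i hi j hj e; exact H.inj i (by simpa using hi) j (by simpa using hj) e
  · intro p hp; obtain ⟨i, hi, e⟩ := H.sur p hp; exact ⟨i, by simpa using hi, e⟩
  · intros; rfl

lemma Ctx.n_mul (X : Ctx α) : X.Pr.n * WW (X.B \ X.L) X.p0 ≤ X.Pr.lim := by
  refine le_trans ?_ X.sum_WW
  rw [← X.card, ← smul_eq_mul, ← sum_const]
  exact sum_le_sum X.min

lemma Lab.inter_SS (H : Lab X z) {m m' : ℕ} (hm : m < 2 ^ X.Pr.n) (hm' : m' < 2 ^ X.Pr.n) :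
    SS z (m &&& m') = SS z m ∩ SS z m' := by
  have h3 : m &&& m' < 2 ^ X.Pr.n := Nat.and_le_left.trans_lt hm
  ext p
  rw [mem_inter]
  constructor
  · intro hp
    obtain ⟨i, hi, rfl⟩ := mem_image.1 hp
    have h1 := (mem_filter.1 hi).2
    rw [Nat.testBit_and, Bool.and_eq_true] at h1
    exact ⟨H.mem_of_bit hm h1.1, H.mem_of_bit hm' h1.2⟩
  · rintro ⟨h1, h2⟩
    obtain ⟨i, hi, rfl⟩ := mem_image.1 h1
    have h4 := (mem_filter.1 hi).2
    apply H.mem_of_bit h3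
    rw [Nat.testBit_and, h4, (H.mem_SS hm' (lt_of_bit hm h4)).1 h2]; rfl

structure Inv0 (X : Ctx α) (z : ℕ → α) (bl : List ℕ) (kn cov : ℕ) (fl : FL) : Prop where
  lt : ∀ m ∈ bl, m < 2 ^ X.Pr.n
  blk : ∀ m ∈ bl, SS z m ∈ X.B
  nd : bl.Nodup
  kn : ∀ u, kn.testBit u = true ↔ u ∈ bl
  cov : ∀ a < 16, ∀ b < 16, ∀ c, (gcov cov a b).testBit c = true ↔
    ∃ m ∈ bl, m.testBit a = true ∧ m.testBit b = true ∧ m.testBit c = true
  fl : fl = mkFL X.Pr.n (fun x => KK (Kn z bl) (z x)) (fun x => WW (Kn z bl) (z x))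

lemma Inv0.sub {bl : List ℕ} {kn cov : ℕ} {fl : FL} (I : Inv0 X z bl kn cov fl) : Kn z bl ⊆ X.B := by
  intro β hβ
  obtain ⟨m, hm, rfl⟩ := mem_Kn.1 hβ
  exact I.blk m hm

lemma Inv0.notMem (H : Lab X z) {bl : List ℕ} {kn cov : ℕ} {fl : FL} (I : Inv0 X z bl kn cov fl) {m : ℕ}
    (hm : m < 2 ^ X.Pr.n) (h : m ∉ bl) : SS z m ∉ Kn z bl := by
  intro hc
  obtain ⟨m', hm', e⟩ := mem_Kn.1 hc
  exact h (H.SS_inj (I.lt m' hm') hm e ▸ hm')

lemma Inv0.KK_step (H : Lab X z) {bl : List ℕ} {kn cov : ℕ} {fl : FL} (I : Inv0 X z bl kn cov fl) {m : ℕ}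
    (hm : m < 2 ^ X.Pr.n) (h : m ∉ bl) {x : ℕ} (hx : x < X.Pr.n) :
    (if m.testBit x = true then KK (Kn z bl) (z x) + dl (bs m).card else KK (Kn z bl) (z x)) =
      KK (Kn z (m :: bl)) (z x) := by
  rw [Kn_cons, KK_insert (I.notMem H hm h), H.card_SS hm]
  simp only [H.mem_SS hm hx]

lemma Inv0.WW_step (H : Lab X z) {bl : List ℕ} {kn cov : ℕ} {fl : FL} (I : Inv0 X z bl kn cov fl) {m : ℕ}
    (hm : m < 2 ^ X.Pr.n) (h : m ∉ bl) {x : ℕ} (hx : x < X.Pr.n) :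
    (if m.testBit x = true then WW (Kn z bl) (z x) + wt (bs m).card else WW (Kn z bl) (z x)) =
      WW (Kn z (m :: bl)) (z x) := by
  rw [Kn_cons, WW_insert (I.notMem H hm h), H.card_SS hm]
  simp only [H.mem_SS hm hx]

lemma addB_eq (st : St) (p : List ℕ) (m s : ℕ) (c : St → Bool) : addB st p m s c =
    upd (dl s) (wt s) st.fl m fun fl' => c ⟨m :: st.bl, st.kn ||| 2 ^ m, st.cov ||| orRow (orRow m 16 p) 256 p,
      fl', st.mx, st.wlow, st.qf, st.ln⟩ := by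
  simp only [addB, force_eq, lor_eq, one_eq]

lemma addB_spec (H : Lab X z) {st : St} (I : Inv0 X z st.bl st.kn st.cov st.fl) {m : ℕ} (hm : m < 2 ^ X.Pr.n)
    (hB : SS z m ∈ X.B) (hn : m ∉ st.bl) {p : List ℕ} (hp : ∀ x, x ∈ p ↔ m.testBit x = true) {c : St → Bool}
    (h : addB st p m (bs m).card c = true) : ∃ kn cov fl, Inv0 X z (m :: st.bl) kn cov fl ∧
      c ⟨m :: st.bl, kn, cov, fl, st.mx, st.wlow, st.qf, st.ln⟩ = true := by
  rw [addB_eq, I.fl, upd_spec] at h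
  refine ⟨_, _, _, ⟨?_, ?_, List.nodup_cons.2 ⟨hn, I.nd⟩, ?_, ?_, ?_⟩, h⟩
  · intro u hu
    rcases List.mem_cons.1 hu with rfl | hu
    · exact hm
    · exact I.lt u hu
  · intro u hu
    rcases List.mem_cons.1 hu with rfl | hu
    · exact hB
    · exact I.blk u hu
  · intro u
    rw [Nat.testBit_or, Bool.or_eq_true, I.kn, Nat.testBit_two_pow, decide_eq_true_eq, List.mem_cons]
    tauto
  · intro a ha b hb c
    have h16 := X.lt16 hm
    have e := I.cov a ha b hb c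
    rw [testBit_gcov] at e ⊢
    simp only [Nat.testBit_or, Bool.and_eq_true, Bool.or_eq_true, decide_eq_true_eq, List.mem_cons,
      exists_eq_or_imp] at e ⊢
    rw [← e]
    by_cases hc : c < 16
    · have r1 := orRow_lt h16 p (k := 16) (fun x hx => lt_of_bit h16 ((hp x).1 hx))
      have r2 := orRow_spec r1 (le_refl (16 * 16)) p a (16 * b + c) (by omega)
      have r3 := orRow_spec h16 le_rfl p b c hc
      rw [r3, hp, hp, ← add_assoc] at r2
      rw [r2]; tauto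
    · simp only [hc, and_false, or_false, false_iff, not_and]
      exact fun _ _ h => hc (lt_of_bit h16 h)
  · exact mkFL_congr _ _ _ _ _ (fun x hx => I.KK_step H hm hn hx) (fun x hx => I.WW_step H hm hn hx)

lemma Inv0.uncov (H : Lab X z) {bl : List ℕ} {kn cov : ℕ} {fl : FL} (I : Inv0 X z bl kn cov fl) {μ : ℕ}
    (hμ : μ < 2 ^ X.Pr.n) (hB : SS z μ ∈ X.B) (hn : μ ∉ bl) (a b c : ℕ) (hab : a ≠ b) (hac : a ≠ c) (hbc : b ≠ c)
    (ha : μ.testBit a = true) (hb : μ.testBit b = true) (hc : μ.testBit c = true) :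
    ¬ (gcov cov a b).testBit c = true := by
  rw [I.cov a (lt_of_bit (X.lt16 hμ) ha) b (lt_of_bit (X.lt16 hμ) hb)]
  rintro ⟨m, hm, h1, h2, h3⟩
  have hl := I.lt m hm
  have := X.geo.uniq (I.blk m hm) hB (H.ne (lt_of_bit hμ ha) (lt_of_bit hμ hb) hab)
    (H.ne (lt_of_bit hμ ha) (lt_of_bit hμ hc) hac) (H.ne (lt_of_bit hμ hb) (lt_of_bit hμ hc) hbc)
    (H.mem_of_bit hl h1) (H.mem_of_bit hl h2) (H.mem_of_bit hl h3) (H.mem_of_bit hμ ha) (H.mem_of_bit hμ hb)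
    (H.mem_of_bit hμ hc)
  exact hn (H.SS_inj hl hμ this ▸ hm)

/-- a block through a point whose triples are all covered is known -/
lemma Inv0.known (H : Lab X z) {bl : List ℕ} {kn cov : ℕ} {fl : FL} (I : Inv0 X z bl kn cov fl) {a : ℕ}
    (hc : ∀ b < X.Pr.n, gcov cov a b = X.Pr.full) {μ : ℕ} (hμ : μ < 2 ^ X.Pr.n) (hB : SS z μ ∈ X.B)
    (ha : μ.testBit a = true) : μ ∈ bl := by
  by_contra hn
  have h3 := X.geo.three _ hB
  rw [H.card_SS hμ] at h3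
  have h4 := card_erase_add_one ((mem_bs (X.lt16 hμ)).2 ha)
  obtain ⟨b, hb, c, hc', hbc⟩ := one_lt_card.1 (show 1 < ((bs μ).erase a).card by omega)
  rw [mem_erase, mem_bs (X.lt16 hμ)] at hb hc'
  apply I.uncov H hμ hB hn a b c hb.1.symm hc'.1.symm hbc ha hb.2 hc'.2
  rw [hc b (lt_of_bit hμ hb.2), X.bit_full]
  exact lt_of_bit hμ hc'.2

end Pool.Agent.MP_1f1ca1_co
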