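import Pool.Agent.MP_1f1ca1_co.Sound1

/-! Soundness of the checker, second part: the leaves and the enumerations of lines. -/

set_option autoImplicit false
set_option linter.unusedSectionVars false

namespace Pool.Agent.MP_1f1ca1_co
open Finset

variable {α : Type} [DecidableEq α] {X : Ctx α} {z : ℕ → α}

structure Inv (X : Ctx α) (z : ℕ → α) (st : St) : Prop where
  core : Inv0 X z st.bl st.kn st.cov st.fl
  mx : ∀ β ∈ X.B, X.p0 ∈ β → β ∉ Kn z st.bl → β.card ≤ st.mx + 1
  wl : st.wlow ≤ WW (X.B \ X.L) X.p0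
  ln1 : ∀ m, st.ln.testBit m = true → m < 2 ^ X.Pr.n ∧ SS z m ∈ X.L
  ln2 : st.qf = true → ∀ m < 2 ^ X.Pr.n, m.testBit 0 = true → SS z m ∈ X.L → st.ln.testBit m = true

lemma ovr_false (H : Lab X z) {Kn' : Finset (Finset α)} (hK : Kn' ⊆ X.B) {mx wlow d w m : ℕ} {K W : ℕ → ℕ}
    (hm : ∀ β ∈ X.B, X.p0 ∈ β → β ∉ Kn' → β.card ≤ mx + 1) (hw : wlow ≤ WW (X.B \ X.L) X.p0)
    (h1 : ∀ x < X.Pr.n, (if m.testBit x = true then K x + d else K x) = KK Kn' (z x))
    (h2 : ∀ x < X.Pr.n, (if m.testBit x = true then W x + w else W x) = WW Kn' (z x))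
    (h : ovr (X.Pr.T mx) X.Pr.T5 X.Pr.off wlow X.Pr.lim d w m (mkFL X.Pr.n K W) = true) : False := by
  have hn := X.n3
  have := ovr_spec h (fun x => WW (X.B \ X.L) (z x)) (by simpa only [H.zero] using hw)
    (fun x hx => by simpa only [H.zero] using X.min _ (H.mem x hx))
    (by rw [h1 0 (by omega), h2 0 (by omega), H.zero]; exact X.lbT mx hK H.p0 hm)
    (fun x hx => by rw [h1 x hx, h2 x hx]; exact X.lb5 hK (H.mem x hx))
  rw [H.sum_eq (WW (X.B \ X.L))] at this
  exact absurd X.sum_WW (not_le.2 this)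

lemma kid_spec (H : Lab X z) {st : St} (I : Inv X z st) {μ : ℕ} (hμ : μ < 2 ^ X.Pr.n) (hB : SS z μ ∈ X.B)
    (hn : μ ∉ st.bl) {p : List ℕ} (hp : ∀ x, x ∈ p ↔ μ.testBit x = true) {mns : ℕ} (hs : mns ≤ (bs μ).card)
    {R : ℕ → St → Bool} (h : kid X.Pr st mns R p μ (bs μ).card = true) : ∃ st', Inv X z st' ∧ R μ st' = true := by
  simp only [kid, bor_eq, blt_dec, Bool.or_eq_true, decide_eq_true_eq] at h
  have hmx : ∀ β ∈ X.B, X.p0 ∈ β → β ∉ Kn z (μ :: st.bl) → β.card ≤ st.mx + 1 := fun β hβ h0 h1 =>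
    I.mx β hβ h0 (fun h2 => h1 (by rw [Kn_cons]; exact mem_insert_of_mem h2))
  rcases h with h | h | h
  · omega
  · exfalso
    rw [I.core.fl] at h
    refine ovr_false H (Kn' := Kn z (μ :: st.bl)) ?_ hmx I.wl (fun x hx => I.core.KK_step H hμ hn hx)
      (fun x hx => I.core.WW_step H hμ hn hx) h
    rw [Kn_cons]; exact insert_subset hB I.core.sub
  · obtain ⟨kn, cov, fl, I', h'⟩ := addB_spec H I.core hμ hB hn hp h
    exact ⟨⟨μ :: st.bl, kn, cov, fl, st.mx, st.wlow, st.qf, st.ln⟩, ⟨I', hmx, I.wl, I.ln1, I.ln2⟩, h'⟩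

lemma Inv0.face (H : Lab X z) {bl : List ℕ} {kn cov : ℕ} {fl : FL} (I : Inv0 X z bl kn cov fl) {m a b c d : ℕ}
    (h : face kn m a b c d = true) : m < 2 ^ X.Pr.n ∧ SS z m ∈ X.B ∧
      (z a ∈ SS z m ∧ z b ∈ SS z m ∧ z c ∈ SS z m ∧ z d ∈ SS z m) ∧
      a < X.Pr.n ∧ b < X.Pr.n ∧ c < X.Pr.n ∧ d < X.Pr.n := by
  obtain ⟨h0, h1, h2, h3, h4⟩ := face_spec h
  rw [I.kn] at h0
  have hl := I.lt m h0
  exact ⟨hl, I.blk m h0, ⟨H.mem_of_bit hl h1, H.mem_of_bit hl h2, H.mem_of_bit hl h3, H.mem_of_bit hl h4⟩,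
    lt_of_bit hl h1, lt_of_bit hl h2, lt_of_bit hl h3, lt_of_bit hl h4⟩

lemma miq_sound (H : Lab X z) {st : St} (I : Inv X z st) {h ms : ℕ} (e : miqOK X.Pr.n st.kn h ms = true) :
    False := by
  simp only [miqOK, force_eq, band_eq, Bool.and_eq_true, bnot_eq, bit_eq, Bool.not_eq_true', blt_dec,
    decide_eq_true_eq, ne_eq'] at e
  obtain ⟨f0, f1, f2, f3, f4, f5, g, g', n1, n2, n3, n4, n5, n6, n7, n8, n9, n10, n11⟩ := e
  obtain ⟨-, b0, m0, a1, a2, a3, a4⟩ := I.core.face H f0
  obtain ⟨-, b1, m1, -, -, c2, c1⟩ := I.core.face H f1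
  obtain ⟨-, b2, m2, -, -, c3, -⟩ := I.core.face H f2
  obtain ⟨-, b3, m3, -⟩ := I.core.face H f3
  obtain ⟨-, b4, m4, -⟩ := I.core.face H f4
  obtain ⟨l5, b5, m5, -⟩ := I.core.face H f5
  have := X.geo.miquel b0 b1 b2 b3 b4 b5 m0 m1 m2 m3 m4 ⟨m5.1, m5.2.1, m5.2.2.1⟩ (H.ne a1 a2 n1) (H.ne a2 a3 n2)
    (H.ne a3 a4 n3) (H.ne a4 a1 n4) (H.ne c1 c2 n5) (H.ne c2 c3 n6) (H.ne c1 c3 n7) (H.ne a1 c1 n8)
    (H.ne a2 c2 n9) (H.ne a3 c3 n10) (H.ne a4 g' n11)
  rw [H.mem_SS l5 g', g] at this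
  simp at this

/-- labels `0..n-1` are points, label `n` is the point at infinity -/
def lab (n : ℕ) (z : ℕ → α) (y : ℕ) : Option α := if y = n then none else some (z y)

lemma Lab.lab_ne (H : Lab X z) {i j : ℕ} (hi : i ≤ X.Pr.n) (hj : j ≤ X.Pr.n) (h : i ≠ j) :
    lab X.Pr.n z i ≠ lab X.Pr.n z j := by
  unfold lab
  split_ifs with h1 h2 h2
  · omega
  · simp
  · simp
  · simpa using H.ne (by omega) (by omega) h

lemma lab_lt {n y : ℕ} (z : ℕ → α) (h : y < n) : lab n z y = some (z y) := if_neg h.ne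

lemma lineQ_spec (H : Lab X z) {st : St} (I : Inv X z st) {x m a b c : ℕ}
    (h : lineQ X.Pr.n st.kn st.ln x m a b c = true) : m < 2 ^ X.Pr.n ∧ SS z m ∈ X.B ∧
      (z a ∈ SS z m ∧ z b ∈ SS z m ∧ z c ∈ SS z m) ∧ a < X.Pr.n ∧ b < X.Pr.n ∧ c < X.Pr.n ∧ x ≤ X.Pr.n ∧
      Thru X.L (lab X.Pr.n z x) (SS z m) := by
  simp only [lineQ, band_eq, Bool.and_eq_true, cnd_eq, beq_dec, decide_eq_true_eq, bit_eq] at h
  obtain ⟨l, b0, m0, a1, a2, a3, -⟩ := I.core.face H h.1
  refine ⟨l, b0, ⟨m0.1, m0.2.1, m0.2.2.1⟩, a1, a2, a3, ?_⟩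
  have h2 := h.2
  unfold lab
  split_ifs at h2 ⊢ with hx
  · exact ⟨hx.le, (I.ln1 m h2).2⟩
  · exact ⟨(lt_of_bit l h2).le, H.mem_of_bit l h2⟩

lemma q7_sound (H : Lab X z) {st : St} (I : Inv X z st) {h ms : ℕ} (e : q7OK X.Pr.n st.kn st.ln h ms = true) :
    False := by
  simp only [q7OK, force_eq, band_eq, Bool.and_eq_true, bnot_eq, bit_eq, Bool.not_eq_true', blt_dec,
    decide_eq_true_eq] at e
  obtain ⟨hi, f1, f2, f3, f4, n1, n2, n3, n4, g1, g2, g3⟩ := e
  obtain ⟨inj, -⟩ := injMask_spec h 7 (Nat.testBit_lt_two_pow hi)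
  obtain ⟨l1, b1, m1, ha, hb, hc', hx, t1⟩ := lineQ_spec H I f1
  obtain ⟨l2, b2, m2, -, hb', hc, -, t2⟩ := lineQ_spec H I f2
  obtain ⟨-, b3, m3, ha', -, -, -, t3⟩ := lineQ_spec H I f3
  obtain ⟨-, b4, m4, -, -, -, -, t4⟩ := lineQ_spec H I f4
  obtain ⟨-, k1, r1, -⟩ := I.core.face H g1
  obtain ⟨-, k2, r2, -⟩ := I.core.face H g2
  obtain ⟨-, k3, r3, -⟩ := I.core.face H g3
  refine X.geo.q7 b1 b2 b3 b4 k1 k2 k3 t1 t2 t3 t4 m1 m2 m3 m4 (by rw [H.mem_SS l1 hb', n1]; simp)
    (by rw [H.mem_SS l1 hc, n2]; simp) (by rw [H.mem_SS l1 ha', n3]; simp) (by rw [H.mem_SS l2 hb, n4]; simp)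
    r1 r2 r3 ?_
  rw [← lab_lt z ha, ← lab_lt z ha', ← lab_lt z hb, ← lab_lt z hb', ← lab_lt z hc, ← lab_lt z hc']
  have e : [lab X.Pr.n z (dig h 0), lab X.Pr.n z (dig h 1), lab X.Pr.n z (dig h 2), lab X.Pr.n z (dig h 3),
      lab X.Pr.n z (dig h 4), lab X.Pr.n z (dig h 5), lab X.Pr.n z (dig h 6)] =
      (List.range 7).map (fun i => lab X.Pr.n z (dig h i)) := rfl
  rw [e, List.pairwise_map]
  have hle : ∀ i < 7, dig h i ≤ X.Pr.n := by
    intro i hi; interval_cases i <;> omega
  refine List.Pairwise.imp_of_mem ?_ (List.nodup_range (n := 7))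
  intro i j hi hj hij
  rw [List.mem_range] at hi hj
  exact H.lab_ne (hle i hi) (hle j hj) (fun e => hij (inj i hi j hj e))

lemma patLines_spec {n kn : ℕ} {qf : Bool} {ln e E : ℕ} (ls : List ℕ) : ∀ ms,
    patLines n kn qf ln e E ls ms = true → ∀ l ∈ ls, ∃ m, kn.testBit m = true ∧ m.testBit 0 = true ∧
      pm e 16 l = E &&& (if qf = true ∧ ln.testBit m = true then m ||| 2 ^ n else m) := by
  induction ls with
  | nil => simp
  | cons l ls ih =>
    intro ms h
    have e1 : patLines n kn qf ln e E (l :: ls) ms = force (Nat.land ms 65535) fun m =>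
        band (bit kn m) <| band (bit m 0) <|
        band (Nat.beq (pm e 16 l) (Nat.land E (cnd (band qf (bit ln m)) (Nat.lor m (one n)) m)))
          (patLines n kn qf ln e E ls (Nat.shiftRight ms 16)) := rfl
    rw [e1] at h
    simp only [force_eq, band_eq, bit_eq, Bool.and_eq_true, beq_dec, decide_eq_true_eq, cnd_eq, land_eq, lor_eq,
      one_eq] at h
    intro l' hl'
    rcases List.mem_cons.1 hl' with rfl | hl'
    · exact ⟨_, h.1, h.2.1, h.2.2.1⟩
    · exact ih _ h.2.2.2 l' hl'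

lemma pat_sound (H : Lab X z) {st : St} (I : Inv X z st) {p : Pat} (hp : PatBad p) {e ms : ℕ}
    (h : patOK X.Pr.n st.kn st.qf st.ln p e ms = true) : False := by
  simp only [patOK, force_eq, band_eq, Bool.and_eq_true, blt_dec, one_eq, decide_eq_true_eq, bnot_eq, bit_eq,
    Bool.not_eq_true', bor_eq, Bool.or_eq_true] at h
  obtain ⟨h1, h2, h3, h4⟩ := h
  obtain ⟨k16, hl, hbad⟩ := hp
  have hn := X.n15
  have hn3 := X.n3
  obtain ⟨inj, hE⟩ := injMask_spec e p.k (Nat.testBit_lt_two_pow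
    (h1.trans_le (Nat.pow_le_pow_right (by norm_num) (by omega))))
  obtain ⟨v, hv⟩ := X.geo.vec X.p0 H.p0
  have hb : ∀ i < p.k, (injMask e p.k).testBit (dig e i) = true := fun i hi => (hE _).2 ⟨i, hi, rfl⟩
  have hle : ∀ i < p.k, dig e i ≤ X.Pr.n := fun i hi => Nat.lt_succ_iff.1 (lt_of_bit h1 (hb i hi))
  have h0 : ∀ i < p.k, dig e i ≠ 0 := fun i hi e0 => by
    have := hb i hi; rw [e0, h2] at this; simp at this
  have hz : ∀ i < p.k, dig e i ≠ X.Pr.n → z (dig e i) ≠ X.p0 := fun i hi hne => by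
    rw [← H.zero]; exact H.ne (lt_of_le_of_ne (hle i hi) hne) (by omega) (h0 i hi)
  apply hbad (fun i => v (lab X.Pr.n z (dig e i)))
  intro l hl' a ha b hb' c hc hab b1 b2
  obtain ⟨m, k1, k2, k3⟩ := patLines_spec p.ls ms h4 l hl'
  rw [I.core.kn] at k1
  have hm := I.core.lt m k1
  have key : ∀ i < p.k, (l.testBit i = true ↔ lab X.Pr.n z (dig e i) ∈ Ex X.L X.p0 (SS z m)) := by
    intro i hi
    have a1 := pm_spec e 16 l ((hl l hl').trans_le (Nat.pow_le_pow_right (by norm_num) k16)) (dig e i)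
    have a2 : l.testBit i = true ↔ (pm e 16 l).testBit (dig e i) = true := by
      rw [a1]
      exact ⟨fun h => ⟨i, h, rfl⟩, fun ⟨x, hx, h⟩ => inj x (lt_of_bit (hl l hl') hx) i hi h ▸ hx⟩
    rw [a2, k3, Nat.testBit_and, hb i hi, Bool.true_and]
    unfold lab
    by_cases hy : dig e i = X.Pr.n
    · have hq : st.qf = true := h3.resolve_right (by rw [← hy, hb i hi]; simp)
      rw [if_pos hy, none_mem_Ex, hy]
      split_ifs with hc
      · simpa using (I.ln1 m hc.2).2
      · rw [Nat.testBit_lt_two_pow hm]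
        simp only [Bool.false_eq_true, false_iff]
        exact fun hL => hc ⟨hq, I.ln2 hq m hm k2 hL⟩
    · rw [if_neg hy, some_mem_Ex, H.mem_SS hm (lt_of_le_of_ne (hle i hi) hy)]
      simp only [ne_eq, hz i hi hy, not_false_eq_true, true_and]
      split_ifs with hc
      · rw [Nat.testBit_or, Nat.testBit_two_pow]; simp [Ne.symm hy]
      · rfl
  rw [key c hc]
  refine hv (SS z m) (I.core.blk m k1) (H.zero ▸ H.mem_of_bit hm k2) _ ((key a ha).1 b1) _ ((key b hb').1 b2)
    (H.lab_ne (hle a ha) (hle b hb') (fun e => hab (inj a ha b hb' e))) _ ?_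
  unfold lab
  split_ifs with hy
  · simp
  · exact (some_mem_Qx _ _ _).2 ⟨hz c hc hy, H.mem _ (lt_of_le_of_ne (hle c hc) hy)⟩

lemma qrun_spec {n lim W lam W0 : ℕ} {K : ℕ → ℕ → ℕ → Bool} (isL : ℕ → Prop) [DecidablePred isL]
    (h0 : ∀ m, isL m → m.testBit 0 = true) (hlim : n * W0 ≤ lim) (l : List ℕ) :
    ∀ used saved cnt ln code pos,
      l.Pairwise (fun m m' => isL m → isL m' → ∀ i, i ≠ 0 → m'.testBit i = true → ¬ m.testBit i = true) →
      (∀ m ∈ l, isL m → ∀ i, i ≠ 0 → m.testBit i = true → ¬ used.testBit i = true) →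
      W = W0 + saved + ((l.filter (fun m => decide (isL m))).map (fun m => wt (bits 16 m).length)).sum →
      cnt + (l.filter (fun m => decide (isL m))).length ≤ lam →
      qrun n lim W lam K l used saved cnt ln code pos = true →
      ∃ ln' code', K W0 ln' code' = true ∧ ∀ u, ln'.testBit u = true ↔ ln.testBit u = true ∨ (u ∈ l ∧ isL u) := by
  induction l with
  | nil =>
    intro used saved cnt ln code pos _ _ hW _ h
    have e : qrun n lim W lam K [] used saved cnt ln code pos =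
      bor (Nat.blt lim (Nat.mul n (Nat.sub W saved))) (K (Nat.sub W saved) ln code) := rfl
    have e2 : W - saved = W0 := by simp at hW; omega
    rw [e] at h
    simp only [bor_eq, blt_dec, Nat.mul_eq, Nat.sub_eq, Bool.or_eq_true, decide_eq_true_eq, e2] at h
    exact ⟨ln, code, h.resolve_left (by omega), by simp⟩
  | cons m l ih =>
    intro used saved cnt ln code pos hP hU hW hc h
    have e : qrun n lim W lam K (m :: l) used saved cnt ln code pos =
      (bor (Nat.blt lim (Nat.mul n (Nat.sub (Nat.sub W saved) (Nat.mul 20 (Nat.sub lam cnt))))) <|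
      force (Nat.succ pos) fun pos' =>
      band (qrun n lim W lam K l used saved cnt ln code pos') <|
      bor (bnot (bit m 0)) <| bor (bnot (Nat.ble (Nat.land m used) 1)) <|
        force (Nat.lor m used) fun used' =>
        force (Nat.add saved (wt (len (bits 16 m)))) fun saved' =>
        force (Nat.succ cnt) fun cnt' =>
        force (Nat.lor ln (one m)) fun ln' =>
        force (Nat.lor code (one pos)) fun code' =>
        qrun n lim W lam K l used' saved' cnt' ln' code' pos') := rfl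
    rw [e] at h
    simp only [bor_eq, blt_dec, Nat.mul_eq, Nat.sub_eq, Bool.or_eq_true, decide_eq_true_eq, force_eq, band_eq,
      Bool.and_eq_true, bnot_eq, bit_eq, ble_dec, land_eq, lor_eq, one_eq, len_eq, Nat.add_eq,
      Bool.not_eq_true', decide_eq_false_iff_not] at h
    have hs : ∀ l' : List ℕ, (l'.map (fun m => wt (bits 16 m).length)).sum ≤ 20 * l'.length := by
      intro l'
      induction l' with
      | nil => simp
      | cons a l' ih' =>
        have := wt_le (bits 16 a).length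
        simp only [List.map_cons, List.sum_cons, List.length_cons]; omega
    rcases h with h | ⟨h1, h2⟩
    · exfalso
      have a1 := hs ((m :: l).filter (fun m => decide (isL m)))
      have a2 : W - saved - 20 * (lam - cnt) ≤ W0 := by omega
      have := Nat.mul_le_mul_left n a2
      omega
    rw [List.pairwise_cons] at hP
    by_cases hm : isL m
    · rw [List.filter_cons_of_pos (by simpa using hm)] at hW hc
      simp only [List.map_cons, List.sum_cons, List.length_cons] at hW hc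
      rcases h2 with h2 | h2 | h2
      · rw [h0 m hm] at h2; simp at h2
      · exfalso
        apply h2
        have : m &&& used < 2 ^ 1 := by
          apply Nat.lt_pow_two_of_testBit
          intro i hi
          have := hU m List.mem_cons_self hm i (by omega)
          rw [Nat.testBit_and]
          cases h3 : m.testBit i
          · rfl
          · simpa using this h3
        omega
      · obtain ⟨ln', code', a1, a2⟩ := ih _ _ _ _ _ _ hP.2 (fun m' hm' hL i hi hb => by
          rw [Nat.testBit_or, Bool.or_eq_true]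
          rintro (h | h)
          · exact hP.1 m' hm' hm hL i hi hb h
          · exact hU m' (List.mem_cons_of_mem _ hm') hL i hi hb h) (by omega) (by simp only [Nat.succ_eq_add_one]; omega) h2
        refine ⟨ln', code', a1, fun u => ?_⟩
        rw [a2, Nat.testBit_or, Nat.testBit_two_pow, List.mem_cons, Bool.or_eq_true, decide_eq_true_eq]
        constructor
        · rintro ((h | rfl) | h)
          · exact Or.inl h
          · exact Or.inr ⟨Or.inl rfl, hm⟩
          · exact Or.inr ⟨Or.inr h.1, h.2⟩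
        · rintro (h | ⟨rfl | h, h'⟩)
          · exact Or.inl (Or.inl h)
          · exact Or.inl (Or.inr rfl)
          · exact Or.inr ⟨h, h'⟩
    · rw [List.filter_cons_of_neg (by simpa using hm)] at hW hc
      obtain ⟨ln', code', a1, a2⟩ := ih _ _ _ _ _ _ hP.2 (fun m' hm' => hU m' (List.mem_cons_of_mem _ hm')) hW hc h1
      refine ⟨ln', code', a1, fun u => ?_⟩
      rw [a2, List.mem_cons]
      constructor
      · rintro (h | h)
        · exact Or.inl h
        · exact Or.inr ⟨Or.inr h.1, h.2⟩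
      · rintro (h | ⟨rfl | h, h'⟩)
        · exact Or.inl h
        · exact absurd h' hm
        · exact Or.inr ⟨h, h'⟩

lemma grun_spec {lim tot c0 : ℕ} {K : ℕ → ℕ → Bool} (isL : ℕ → Prop) [DecidablePred isL]
    (hlim : 60 * (tot - c0) ≤ lim) (l : List ℕ) :
    ∀ (ch : List ℕ) cnt ln code pos,
      l.Pairwise (fun m m' => isL m → isL m' → (bits 16 (m' &&& m)).length ≤ 1) →
      (∀ m ∈ l, isL m → ∀ u ∈ ch, (bits 16 (m &&& u)).length ≤ 1) →
      cnt + (l.filter (fun m => decide (isL m))).length = c0 →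
      grun lim tot K l ch cnt ln code pos = true →
      ∃ ln' code', K ln' code' = true ∧ ∀ u, ln'.testBit u = true ↔ ln.testBit u = true ∨ (u ∈ l ∧ isL u) := by
  induction l with
  | nil =>
    intro ch cnt ln code pos _ _ hc h
    have e : grun lim tot K [] ch cnt ln code pos =
      bor (Nat.blt lim (Nat.mul 60 (Nat.sub tot cnt))) (K ln code) := rfl
    have e2 : cnt = c0 := by simpa using hc
    rw [e] at h
    simp only [bor_eq, blt_dec, Nat.mul_eq, Nat.sub_eq, Bool.or_eq_true, decide_eq_true_eq, e2] at h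
    exact ⟨ln, code, h.resolve_left (by omega), by simp⟩
  | cons m l ih =>
    intro ch cnt ln code pos hP hU hc h
    have e : grun lim tot K (m :: l) ch cnt ln code pos =
      (force (Nat.succ pos) fun pos' =>
      band (grun lim tot K l ch cnt ln code pos') <|
      bor (bnot (allL (fun u => Nat.ble (len (bits 16 (Nat.land m u))) 1) ch)) <|
        force (Nat.succ cnt) fun cnt' =>
        force (Nat.lor ln (one m)) fun ln' =>
        force (Nat.lor code (one pos)) fun code' =>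
        grun lim tot K l (m :: ch) cnt' ln' code' pos') := rfl
    rw [e] at h
    simp only [bor_eq, Bool.or_eq_true, force_eq, band_eq, Bool.and_eq_true, bnot_eq, ble_dec, land_eq, lor_eq,
      one_eq, len_eq, Bool.not_eq_true'] at h
    obtain ⟨h1, h2⟩ := h
    rw [List.pairwise_cons] at hP
    by_cases hm : isL m
    · rw [List.filter_cons_of_pos (by simpa using hm)] at hc
      simp only [List.length_cons] at hc
      rcases h2 with h2 | h2
      · exfalso
        rw [(allL_spec _ ch).2 (fun u hu => by simpa using hU m List.mem_cons_self hm u hu)] at h2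
        simp at h2
      · obtain ⟨ln', code', a1, a2⟩ := ih _ _ _ _ _ hP.2 (fun m' hm' hL u hu => by
          rcases List.mem_cons.1 hu with rfl | hu
          · exact hP.1 m' hm' hm hL
          · exact hU m' (List.mem_cons_of_mem _ hm') hL u hu) (by simp only [Nat.succ_eq_add_one]; omega) h2
        refine ⟨ln', code', a1, fun u => ?_⟩
        rw [a2, Nat.testBit_or, Nat.testBit_two_pow, List.mem_cons, Bool.or_eq_true, decide_eq_true_eq]
        constructor
        · rintro ((h | rfl) | h)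
          · exact Or.inl h
          · exact Or.inr ⟨Or.inl rfl, hm⟩
          · exact Or.inr ⟨Or.inr h.1, h.2⟩
        · rintro (h | ⟨rfl | h, h'⟩)
          · exact Or.inl (Or.inl h)
          · exact Or.inl (Or.inr rfl)
          · exact Or.inr ⟨h, h'⟩
    · rw [List.filter_cons_of_neg (by simpa using hm)] at hc
      obtain ⟨ln', code', a1, a2⟩ := ih _ _ _ _ _ hP.2 (fun m' hm' => hU m' (List.mem_cons_of_mem _ hm')) hc h1
      refine ⟨ln', code', a1, fun u => ?_⟩
      rw [a2, List.mem_cons]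
      constructor
      · rintro (h | h)
        · exact Or.inl h
        · exact Or.inr ⟨Or.inr h.1, h.2⟩
      · rintro (h | ⟨rfl | h, h'⟩)
        · exact Or.inl h
        · exact absurd h' hm
        · exact Or.inr ⟨h, h'⟩

/-- sums over a family of known blocks -/
lemma Inv0.sum_filter (H : Lab X z) {bl : List ℕ} {kn cov : ℕ} {fl : FL} (I : Inv0 X z bl kn cov fl)
    (q : ℕ → Prop) [DecidablePred q] {A : Finset (Finset α)} (hA : ∀ β, β ∈ A ↔ ∃ m ∈ bl, q m ∧ SS z m = β)
    (f : ℕ → ℕ) : ∑ β ∈ A, f β.card = ((bl.filter (fun m => decide (q m))).map (fun m => f (bits 16 m).length)).sum := by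
  rw [← List.sum_toFinset _ (I.nd.filter _)]
  symm
  apply sum_nbij (SS z)
  · intro m hm
    simp only [List.mem_toFinset, List.mem_filter, decide_eq_true_eq] at hm
    exact (hA _).2 ⟨m, hm.1, hm.2, rfl⟩
  · intro m hm m' hm' e
    simp only [mem_coe, List.mem_toFinset, List.mem_filter] at hm hm'
    exact H.SS_inj (I.lt m hm.1) (I.lt m' hm'.1) e
  · intro β hβ
    obtain ⟨m, h1, h2, h3⟩ := (hA β).1 hβ
    exact ⟨m, by simp [h1, h2], h3⟩
  · intro m hm
    simp only [List.mem_toFinset, List.mem_filter] at hm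
    rw [len_bits (X.lt16 (I.lt m hm.1)), H.card_SS (I.lt m hm.1)]

lemma Inv0.card_filter (H : Lab X z) {bl : List ℕ} {kn cov : ℕ} {fl : FL} (I : Inv0 X z bl kn cov fl)
    (q : ℕ → Prop) [DecidablePred q] {A : Finset (Finset α)} (hA : ∀ β, β ∈ A ↔ ∃ m ∈ bl, q m ∧ SS z m = β) :
    A.card = (bl.filter (fun m => decide (q m))).length := by
  have := I.sum_filter H q hA (fun _ => 1)
  simpa using this

end Pool.Agent.MP_1f1ca1_co
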