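import Pool.Agent.MP_1f1ca1_co.Sound2

/-! Soundness of the checker, third part: the search tree. -/

set_option autoImplicit false
set_option linter.unusedSectionVars false

namespace Pool.Agent.MP_1f1ca1_co
open Finset

variable {α : Type} [DecidableEq α] {X : Ctx α} {z : ℕ → α}

/-- the stored state number `j` cannot occur -/
def Ref (X : Ctx α) (j : ℕ) : Prop :=
  (∀ m ∈ (X.Pr.hd.get j).l, m < 2 ^ X.Pr.n) ∧
  ∀ z, Lab X z → (∀ m ∈ (X.Pr.hd.get j).l, SS z m ∈ X.B) →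
    (∀ β ∈ X.B, X.p0 ∈ β → β ∉ Kn z (X.Pr.hd.get j).l → β.card ≤ (X.Pr.hd.get j).mx + 1) →
    (X.Pr.hd.get j).wlow ≤ WW (X.B \ X.L) X.p0 → False

lemma mkFL_pos {n : ℕ} (h : 0 < n) (K W : ℕ → ℕ) : ∃ r, mkFL n K W = FL.cons (K 0) (W 0) r := by
  cases n with
  | zero => omega
  | succ n => exact ⟨_, rfl⟩

lemma node_sound (H : Lab X z) {st : St} (I : Inv X z st) {a b c : ℕ} {R : ℕ → St → Bool}
    (hab : a ≠ b) (hac : a ≠ c) (hbc : b ≠ c) (hm : 2 ^ a ||| 2 ^ b ||| 2 ^ c ≤ X.Pr.full)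
    (hcov : (gcov st.cov a b).testBit c = false)
    (h : ext st.cov (if a = 0 then st.mx + 1 else 6) (kid X.Pr st 3 R) 16 [c, b, a] (2 ^ a ||| 2 ^ b ||| 2 ^ c) 3
      (X.Pr.full ^^^ (X.Pr.full &&& ((2 ^ a ||| 2 ^ b ||| 2 ^ c) ||| gcov st.cov a b |||
        (gcov st.cov a c ||| gcov st.cov b c)))) = true) : ∃ μ st', Inv X z st' ∧ R μ st' = true := by
  rw [X.le_full] at hm
  have hb : ∀ x, (2 ^ a ||| 2 ^ b ||| 2 ^ c).testBit x = true ↔ x = c ∨ x = b ∨ x = a := by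
    intro x
    simp only [Nat.testBit_or, Nat.testBit_two_pow, Bool.or_eq_true, decide_eq_true_eq]
    omega
  have ha' : a < X.Pr.n := lt_of_bit hm ((hb a).2 (by simp))
  have hb' : b < X.Pr.n := lt_of_bit hm ((hb b).2 (by simp))
  have hc' : c < X.Pr.n := lt_of_bit hm ((hb c).2 (by simp))
  have hn := X.n15
  obtain ⟨β, hβ, m1, m2, m3⟩ := X.geo.ex _ (H.mem a ha') _ (H.mem b hb') _ (H.mem c hc') (H.ne ha' hb' hab)
    (H.ne ha' hc' hac) (H.ne hb' hc' hbc)
  obtain ⟨μ, hμ, rfl⟩ := H.SS_sur (X.geo.sub β hβ)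
  rw [H.mem_SS hμ ha'] at m1
  rw [H.mem_SS hμ hb'] at m2
  rw [H.mem_SS hμ hc'] at m3
  have hnm : μ ∉ st.bl := fun hc => by
    rw [(I.core.cov a (by omega) b (by omega) c).2 ⟨μ, hc, m1, m2, m3⟩] at hcov; simp at hcov
  have U := I.core.uncov H hμ hβ hnm
  have hf : X.Pr.full < 2 ^ 16 := X.lt16 (X.le_full.1 le_rfl)
  have hcand : ∀ Y x, (X.Pr.full ^^^ (X.Pr.full &&& Y)).testBit x = true ↔ x < X.Pr.n ∧ ¬ Y.testBit x = true := by
    intro Y x
    rw [Nat.testBit_xor, Nat.testBit_and, ← X.bit_full]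
    cases X.Pr.full.testBit x <;> cases Y.testBit x <;> simp
  obtain ⟨p, hp, hk⟩ := ext_spec (X.lt16 hμ) (by
      rw [← H.card_SS hμ]
      split_ifs with h0
      · subst h0
        exact I.mx _ hβ (H.zero ▸ H.mem_of_bit hμ m1) (I.core.notMem H hμ hnm)
      · exact X.six _ hβ) U 16 _ _ _ _ (Nat.xor_lt_two_pow hf (Nat.and_le_left.trans_lt hf))
    (Nat.xor_lt_two_pow hf (Nat.and_le_left.trans_lt hf)) (fun x => by rw [hb]; simp) (by
      have : bs (2 ^ a ||| 2 ^ b ||| 2 ^ c) = {c, b, a} := by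
        ext x; rw [mem_bs (X.lt16 hm), hb]; simp
      rw [this, card_eq_three.2 ⟨c, b, a, hbc.symm, hac.symm, hab.symm, rfl⟩])
    (fun x hx => by rcases (hb x).1 hx with rfl | rfl | rfl <;> assumption)
    (fun x hx => by
      rw [hb, hcand]
      by_cases e : x = c ∨ x = b ∨ x = a
      · exact Or.inl e
      · refine Or.inr ⟨lt_of_bit hμ hx, ?_⟩
        simp only [Nat.testBit_or (2 ^ a ||| 2 ^ b ||| 2 ^ c ||| gcov st.cov a b),
          Nat.testBit_or (2 ^ a ||| 2 ^ b ||| 2 ^ c), Nat.testBit_or (gcov st.cov a c), Bool.or_eq_true, hb]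
        push Not at e
        rintro ((h | h) | h | h)
        · tauto
        · exact U a b x hab (Ne.symm e.2.2) (Ne.symm e.2.1) m1 m2 hx h
        · exact U a c x hac (Ne.symm e.2.2) (Ne.symm e.1) m1 m3 hx h
        · exact U b c x hbc (Ne.symm e.2.1) (Ne.symm e.1) m2 m3 hx h)
    (fun x hx h => ((hcand _ x).1 hx).2 (by
      simp only [Nat.testBit_or (2 ^ a ||| 2 ^ b ||| 2 ^ c ||| gcov st.cov a b),
        Nat.testBit_or (2 ^ a ||| 2 ^ b ||| 2 ^ c), h, Bool.true_or])) h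
  exact ⟨μ, kid_spec H I hμ hβ hnm hp (by rw [← H.card_SS hμ]; exact X.geo.three _ hβ) hk⟩

lemma big_sound (H : Lab X z) {st : St} (I : Inv X z st) {R : ℕ → St → Bool} (h4 : 4 ≤ st.mx)
    (h : ext st.cov (st.mx + 1) (kid X.Pr st (st.mx + 1) R) 16 [0] 1 1 (X.Pr.full ^^^ 1) = true) :
    (∃ μ st', Inv X z st' ∧ R μ st' = true) ∨
      Inv X z ⟨st.bl, st.kn, st.cov, st.fl, st.mx - 1, st.wlow, st.qf, st.ln⟩ := by
  by_cases hex : ∃ β ∈ X.B, X.p0 ∈ β ∧ β ∉ Kn z st.bl ∧ β.card = st.mx + 1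
  · left
    obtain ⟨β, hβ, h0, h1, h2⟩ := hex
    obtain ⟨μ, hμ, rfl⟩ := H.SS_sur (X.geo.sub β hβ)
    have hn := X.n3
    rw [← H.zero, H.mem_SS hμ (by omega)] at h0
    have hnm : μ ∉ st.bl := fun hc => h1 (mem_Kn.2 ⟨μ, hc, rfl⟩)
    have hf : X.Pr.full < 2 ^ 16 := X.lt16 (X.le_full.1 le_rfl)
    have hb : ∀ x, Nat.testBit 1 x = true ↔ x = 0 := fun x => Nat.testBit_one_eq_true_iff_self_eq_zero
    have hcand : ∀ x, (X.Pr.full ^^^ 1).testBit x = true ↔ x < X.Pr.n ∧ x ≠ 0 := by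
      intro x
      rw [Nat.testBit_xor]
      by_cases e : x = 0
      · subst e; rw [(X.bit_full 0).2 (by omega)]; simp
      · have : Nat.testBit 1 x = false := by simpa using fun h => e ((hb x).1 h)
        rw [this, Bool.xor_false, X.bit_full]; simp [e]
    rw [H.card_SS hμ] at h2
    obtain ⟨p, hp, hk⟩ := ext_spec (X.lt16 hμ) h2.le (I.core.uncov H hμ hβ hnm) 16 _ _ _ _
      (Nat.xor_lt_two_pow hf (by norm_num)) (Nat.xor_lt_two_pow hf (by norm_num)) (fun x => by rw [hb]; simp)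
      (by decide) (fun x hx => by rw [(hb x).1 hx]; exact h0)
      (fun x hx => by
        rw [hb, hcand]
        by_cases e : x = 0
        · exact Or.inl e
        · exact Or.inr ⟨lt_of_bit hμ hx, e⟩)
      (fun x hx h => ((hcand x).1 hx).2 ((hb x).1 h)) h
    exact ⟨μ, kid_spec H I hμ hβ hnm hp h2.ge hk⟩
  · right
    refine ⟨I.core, fun β hβ h0 h1 => ?_, I.wl, I.ln1, I.ln2⟩
    have := I.mx β hβ h0 h1
    have h2 : β.card ≠ st.mx + 1 := fun e => hex ⟨β, hβ, h0, h1, e⟩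
    show β.card ≤ st.mx - 1 + 1
    omega

lemma ref_sound (H : Lab X z) {st : St} (I : Inv X z st) {j s : ℕ} (hR : Ref X j) (h0 : dig s 0 = 0)
    (h1 : pm s 16 X.Pr.full = X.Pr.full) (h2 : st.mx ≤ (X.Pr.hd.get j).mx)
    (h3 : (X.Pr.hd.get j).wlow ≤ head0 (X.Pr.T st.mx) X.Pr.off st.wlow st.fl)
    (h4 : knOf s (X.Pr.hd.get j).l = st.kn) : False := by
  have hf : X.Pr.full < 2 ^ 16 := X.lt16 (X.le_full.1 le_rfl)
  have a1 : ∀ y, y < X.Pr.n ↔ ∃ x < X.Pr.n, dig s x = y := by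
    intro y
    have := pm_spec s 16 _ hf y
    rw [h1] at this
    simpa only [X.bit_full] using this
  have a2 : ∀ i < X.Pr.n, dig s i < X.Pr.n := fun i hi => (a1 _).2 ⟨i, hi, rfl⟩
  have a3 : Set.InjOn (dig s) (range X.Pr.n) := by
    apply card_image_iff.1
    congr 1
    ext y; simp only [mem_image, mem_range]; exact (a1 y).symm
  have H' : Lab X (fun i => z (dig s i)) := by
    refine ⟨fun i hi j hj e => a3 (by simpa using hi) (by simpa using hj) (H.inj _ (a2 i hi) _ (a2 j hj) e),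
      fun i hi => H.mem _ (a2 i hi), fun p hp => ?_, by simp only [h0, H.zero]⟩
    obtain ⟨y, hy, rfl⟩ := H.sur p hp
    obtain ⟨x, hx, rfl⟩ := (a1 y).1 hy
    exact ⟨x, hx, rfl⟩
  have a4 : ∀ m < 2 ^ X.Pr.n, SS (fun i => z (dig s i)) m = SS z (pm s 16 m) := by
    intro m hm
    ext p
    simp only [SS, mem_image, bs, mem_filter, mem_range, pm_spec s 16 m (X.lt16 hm)]
    constructor
    · rintro ⟨i, ⟨-, hi⟩, rfl⟩
      exact ⟨_, ⟨dig_lt s i, i, hi, rfl⟩, rfl⟩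
    · rintro ⟨_, ⟨-, i, hi, rfl⟩, rfl⟩
      exact ⟨i, ⟨lt_of_bit (X.lt16 hm) hi, hi⟩, rfl⟩
  have a5 : ∀ u, u ∈ st.bl ↔ ∃ m ∈ (X.Pr.hd.get j).l, pm s 16 m = u := fun u => by
    rw [← I.core.kn, ← h4, knOf_spec]
  refine hR.2 _ H' (fun m hm => ?_) (fun β hβ b0 b1 => ?_) ?_
  · rw [a4 m (hR.1 m hm)]
    exact I.core.blk _ ((a5 _).2 ⟨m, hm, rfl⟩)
  · refine (I.mx β hβ b0 (fun hc => b1 ?_)).trans (by omega)
    obtain ⟨u, hu, rfl⟩ := mem_Kn.1 hc
    obtain ⟨m, hm, rfl⟩ := (a5 u).1 hu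
    exact mem_Kn.2 ⟨m, hm, a4 m (hR.1 m hm)⟩
  · refine h3.trans ?_
    obtain ⟨r, hr⟩ := mkFL_pos (n := X.Pr.n) (by have := X.n3; omega) (fun x => KK (Kn z st.bl) (z x))
      (fun x => WW (Kn z st.bl) (z x))
    rw [I.core.fl, hr]
    show mx2 _ _ ≤ _
    rw [mx2_eq, H.zero]
    exact max_le I.wl (X.lbT st.mx I.core.sub H.p0 I.mx)

lemma qs_sound (H : Lab X z) {st : St} (I : Inv X z st) {K : ℕ → St → Bool}
    (hc : ∀ b < X.Pr.n, gcov st.cov 0 b = X.Pr.full)
    (h : qrun X.Pr.n X.Pr.lim (WW (Kn z st.bl) X.p0)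
      (min ((X.Pr.n - 1 + (KK (Kn z st.bl) X.p0 - X.Pr.kt)) / 3) ((X.Pr.n - 1) / 2))
      (fun W ln code => K code ⟨st.bl, st.kn, st.cov, st.fl, st.mx, W, true, ln⟩) st.bl 0 0 0 0 0 0 = true) :
    ∃ code st', Inv X z st' ∧ K code st' = true := by
  classical
  have hn := X.n3
  have kn0 : ∀ β ∈ X.B, X.p0 ∈ β → ∃ μ ∈ st.bl, μ.testBit 0 = true ∧ SS z μ = β := by
    intro β hβ h0
    obtain ⟨μ, hμ, rfl⟩ := H.SS_sur (X.geo.sub β hβ)
    rw [← H.zero, H.mem_SS hμ (by omega)] at h0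
    exact ⟨μ, I.core.known H hc hμ hβ h0, h0, rfl⟩
  have e1 : (Kn z st.bl).filter (fun β => X.p0 ∈ β) = X.B.filter (fun β => X.p0 ∈ β) := by
    ext β
    simp only [mem_filter]
    refine ⟨fun h => ⟨I.core.sub h.1, h.2⟩, fun h => ⟨?_, h.2⟩⟩
    obtain ⟨μ, h1, -, h2⟩ := kn0 β h.1 h.2
    exact mem_Kn.2 ⟨μ, h1, h2⟩
  have e2 : KK (Kn z st.bl) X.p0 = KK X.B X.p0 := by unfold KK; rw [e1]
  have e3 : WW (Kn z st.bl) X.p0 = WW X.B X.p0 := by unfold WW; rw [e1]
  have hA : ∀ β, β ∈ X.L.filter (fun β => X.p0 ∈ β) ↔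
      ∃ m ∈ st.bl, (m.testBit 0 = true ∧ SS z m ∈ X.L) ∧ SS z m = β := by
    intro β
    rw [mem_filter]
    constructor
    · rintro ⟨h1, h2⟩
      obtain ⟨μ, a1, a2, rfl⟩ := kn0 β (X.geo.lsub h1) h2
      exact ⟨μ, a1, ⟨a2, h1⟩, rfl⟩
    · rintro ⟨m, a1, ⟨a2, a3⟩, rfl⟩
      exact ⟨a3, H.zero ▸ H.mem_of_bit (I.core.lt m a1) a2⟩
  rw [e2, e3] at h
  obtain ⟨ln, code, a1, a2⟩ := qrun_spec (W0 := WW (X.B \ X.L) X.p0)
    (fun m => m.testBit 0 = true ∧ SS z m ∈ X.L) (fun m hm => hm.1) X.n_mul st.bl 0 0 0 0 0 0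
    (List.Pairwise.imp_of_mem (fun {m m'} hm hm' hne h1 h2 i hi b1 b2 => hne (H.SS_inj (I.core.lt m hm)
      (I.core.lt m' hm') (X.geo.luniq h1.2 h2.2 (H.ne (by omega) (lt_of_bit (I.core.lt m hm) b2) hi.symm)
        (H.mem_of_bit (I.core.lt m hm) h1.1) (H.mem_of_bit (I.core.lt m hm) b2)
        (H.mem_of_bit (I.core.lt m' hm') h2.1) (H.mem_of_bit (I.core.lt m' hm') b1)))) I.core.nd)
    (by simp) (by rw [← I.core.sum_filter H _ hA wt, X.WW_split, add_zero])
    (by rw [← I.core.card_filter H _ hA, zero_add]; exact (X.key_facts H.p0).2.2) h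
  refine ⟨code, ⟨st.bl, st.kn, st.cov, st.fl, st.mx, WW (X.B \ X.L) X.p0, true, ln⟩,
    ⟨I.core, I.mx, le_rfl, fun m hm => ?_, fun _ m hm b1 b2 => ?_⟩, a1⟩
  · have := ((a2 m).1 hm).resolve_left (by simp)
    exact ⟨I.core.lt m this.1, this.2.2⟩
  · exact (a2 m).2 (Or.inr ⟨I.core.known H hc hm (X.geo.lsub b2) b1, b1, b2⟩)

lemma gl_sound (H : Lab X z) {st : St} (I : Inv X z st) {K : ℕ → St → Bool}
    (hc : ∀ a < X.Pr.n, ∀ b < X.Pr.n, gcov st.cov a b = X.Pr.full)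
    (h : grun X.Pr.lim st.bl.length
      (fun ln code => K code ⟨st.bl, st.kn, st.cov, st.fl, st.mx, st.wlow, true, ln⟩) st.bl [] 0 0 0 0 = true) :
    ∃ code st', Inv X z st' ∧ K code st' = true := by
  classical
  have kn0 : ∀ μ < 2 ^ X.Pr.n, SS z μ ∈ X.B → μ ∈ st.bl := by
    intro μ hμ hβ
    have h3 := X.geo.three _ hβ
    rw [H.card_SS hμ] at h3
    obtain ⟨a, ha⟩ := card_pos.1 (show 0 < (bs μ).card by omega)
    rw [mem_bs (X.lt16 hμ)] at ha
    exact I.core.known H (hc a (lt_of_bit hμ ha)) hμ hβ ha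
  have hB : ∀ β, β ∈ X.B ↔ ∃ m ∈ st.bl, True ∧ SS z m = β := by
    intro β
    constructor
    · intro hβ
      obtain ⟨μ, hμ, rfl⟩ := H.SS_sur (X.geo.sub β hβ)
      exact ⟨μ, kn0 μ hμ hβ, trivial, rfl⟩
    · rintro ⟨m, hm, -, rfl⟩; exact I.core.blk m hm
  have hL : ∀ β, β ∈ X.L ↔ ∃ m ∈ st.bl, SS z m ∈ X.L ∧ SS z m = β := by
    intro β
    constructor
    · intro hβ
      obtain ⟨μ, hμ, rfl⟩ := H.SS_sur (X.geo.sub β (X.geo.lsub hβ))
      exact ⟨μ, kn0 μ hμ (X.geo.lsub hβ), hβ, rfl⟩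
    · rintro ⟨m, -, hm, rfl⟩; exact hm
  have c1 := I.core.card_filter H _ hB
  have c2 := I.core.card_filter H _ hL
  have c3 := card_sdiff_add_card_eq_card X.geo.lsub
  have c4 := X.lim
  simp only [decide_true, List.filter_true] at c1
  obtain ⟨ln, code, a1, a2⟩ := grun_spec (c0 := X.L.card) (fun m => SS z m ∈ X.L) (by omega) st.bl [] 0 0 0 0
    (List.Pairwise.imp_of_mem (fun {m m'} hm hm' hne h1 h2 => by
      have b1 := I.core.lt m hm
      have b2 := I.core.lt m' hm'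
      have b3 : m' &&& m < 2 ^ X.Pr.n := Nat.and_le_left.trans_lt b2
      rw [len_bits (X.lt16 b3), ← H.card_SS b3, H.inter_SS b2 b1]
      exact X.geo.inter_le_one h2 h1 (fun e => hne (H.SS_inj b1 b2 e.symm))) I.core.nd)
    (by simp) (by rw [c2, zero_add]) h
  refine ⟨code, ⟨st.bl, st.kn, st.cov, st.fl, st.mx, st.wlow, true, ln⟩,
    ⟨I.core, I.mx, I.wl, fun m hm => ?_, fun _ m hm _ b2 => ?_⟩, a1⟩
  · have := ((a2 m).1 hm).resolve_left (by simp)
    exact ⟨I.core.lt m this.1, this.2⟩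
  · exact (a2 m).2 (Or.inr ⟨kn0 m hm (X.geo.lsub b2), b2⟩)

theorem run_sound (H : Lab X z) {jm : ℕ} (hR : ∀ j < jm, Ref X j) (c : C) :
    ∀ key st, Inv X z st → run X.Pr jm c key st = true → False := by
  induction c with
  | nil => intro key st _ h; exact absurd h (by simp [run])
  | cons m c r ic ir =>
    intro key st I h
    have e : run X.Pr jm (C.cons m c r) key st =
      cnd (Nat.beq m key) (run X.Pr jm c 0 st) (run X.Pr jm r key st) := rfl
    rw [e, cnd_eq] at h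
    split_ifs at h
    · exact ic _ _ I h
    · exact ir _ _ I h
  | node a b c k ik =>
    intro key st I h
    have e : run X.Pr jm (C.node a b c k) key st = (force (Nat.lor (Nat.lor (one a) (one b)) (one c)) fun m =>
      band (ne a b) <| band (ne a c) <| band (ne b c) <| band (Nat.ble m X.Pr.full) <|
      band (bnot (bit (gcov st.cov a b) c)) <|
      force (Nat.lor (Nat.lor m (gcov st.cov a b)) (Nat.lor (gcov st.cov a c) (gcov st.cov b c))) fun x =>
      force (Nat.xor X.Pr.full (Nat.land X.Pr.full x)) fun cand =>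
      ext st.cov (cnd (Nat.beq a 0) (Nat.succ st.mx) 6) (kid X.Pr st 3 (run X.Pr jm k)) 16 [c, b, a] m 3 cand) := rfl
    rw [e] at h
    simp only [force_eq, band_eq, ne_eq', ble_dec, bnot_eq, bit_eq, lor_eq, one_eq, xor_eq', land_eq, cnd_eq,
      beq_dec, Bool.and_eq_true, decide_eq_true_eq, Bool.not_eq_true', Nat.succ_eq_add_one] at h
    obtain ⟨h1, h2, h3, h4, h5, h6⟩ := h
    obtain ⟨μ, st', I', h'⟩ := node_sound H I h1 h2 h3 h4 h5 h6
    exact ik _ _ I' h'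
  | big k r ik ir =>
    intro key st I h
    have e : run X.Pr jm (C.big k r) key st = (band (Nat.ble 4 st.mx) <|
      band (ext st.cov (Nat.succ st.mx) (kid X.Pr st (Nat.succ st.mx) (run X.Pr jm k)) 16 [0] 1 1
        (Nat.xor X.Pr.full 1)) <|
      force (Nat.pred st.mx) fun mx' =>
      bor (ovr (X.Pr.T mx') X.Pr.T5 X.Pr.off st.wlow X.Pr.lim 0 0 0 st.fl)
        (run X.Pr jm r 0 ⟨st.bl, st.kn, st.cov, st.fl, mx', st.wlow, st.qf, st.ln⟩)) := rfl
    rw [e] at h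
    simp only [force_eq, band_eq, ble_dec, xor_eq', Bool.and_eq_true, decide_eq_true_eq, Nat.succ_eq_add_one,
      bor_eq, Bool.or_eq_true, Nat.pred_eq_sub_one] at h
    obtain ⟨h1, h2, h3⟩ := h
    rcases big_sound H I h1 h2 with ⟨μ, st', I', h'⟩ | I'
    · exact ik _ _ I' h'
    · rcases h3 with h3 | h3
      · rw [I.core.fl] at h3
        exact ovr_false H I.core.sub I'.mx I.wl (by simp) (by simp) h3
      · exact ir _ _ I' h3
  | ref j s =>
    intro key st I h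
    have e : run X.Pr jm (C.ref j s) key st = (band (Nat.blt j jm) <| band (Nat.beq (dig s 0) 0) <|
      band (Nat.beq (pm s 16 X.Pr.full) X.Pr.full) <|
      band (Nat.ble st.mx (X.Pr.hd.get j).mx) <|
      band (Nat.ble (X.Pr.hd.get j).wlow (head0 (X.Pr.T st.mx) X.Pr.off st.wlow st.fl)) <|
      Nat.beq (knOf s (X.Pr.hd.get j).l) st.kn) := rfl
    rw [e] at h
    simp only [band_eq, ble_dec, blt_dec, beq_dec, Bool.and_eq_true, decide_eq_true_eq] at h
    obtain ⟨h1, h2, h3, h4, h5, h6⟩ := h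
    exact ref_sound H I (hR j h1) h2 h3 h4 h5 h6
  | miq h ms => intro key st I e; exact miq_sound H I e
  | pat i e ms => intro key st I h; exact pat_sound H I (X.pats i) h
  | qs k ik =>
    intro key st I h
    have e : run X.Pr jm (C.qs k) key st =
      (band (allLt (fun b => Nat.beq (gcov st.cov 0 b) X.Pr.full) X.Pr.n) <|
      FL.rec (motive := fun _ => Bool) false
        (fun k' v _ _ =>
          force (mn2 (Nat.div (Nat.add (Nat.pred X.Pr.n) (Nat.sub k' X.Pr.kt)) 3) (Nat.div (Nat.pred X.Pr.n) 2))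
            fun lam => qrun X.Pr.n X.Pr.lim v lam
              (fun W ln code => run X.Pr jm k code ⟨st.bl, st.kn, st.cov, st.fl, st.mx, W, true, ln⟩)
              st.bl 0 0 0 0 0 0) st.fl) := rfl
    rw [e, band_eq, Bool.and_eq_true] at h
    obtain ⟨h1, h2⟩ := h
    obtain ⟨r, hr⟩ := mkFL_pos (n := X.Pr.n) (by have := X.n3; omega) (fun x => KK (Kn z st.bl) (z x))
      (fun x => WW (Kn z st.bl) (z x))
    have hfl : st.fl = FL.cons (KK (Kn z st.bl) X.p0) (WW (Kn z st.bl) X.p0) r := by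
      rw [I.core.fl, hr, H.zero]
    have h3 : ∀ (A : Bool) (F : ℕ → ℕ → FL → Bool → Bool), FL.rec (motive := fun _ => Bool) A F st.fl =
        F (KK (Kn z st.bl) X.p0) (WW (Kn z st.bl) X.p0) r (FL.rec (motive := fun _ => Bool) A F r) := by
      intro A F; rw [hfl]
    rw [h3] at h2
    simp only [force_eq, mn2_eq, div_eq', Nat.add_eq, Nat.sub_eq, Nat.pred_eq_sub_one] at h2
    obtain ⟨code, st', I', h'⟩ := qs_sound H I (K := run X.Pr jm k)
      (fun b hb => by simpa using allLt_spec _ _ h1 b hb) h2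
    exact ik _ _ I' h'
  | gl k ik =>
    intro key st I h
    have e : run X.Pr jm (C.gl k) key st =
      (band (allLt (fun a => allLt (fun b => Nat.beq (gcov st.cov a b) X.Pr.full) X.Pr.n) X.Pr.n) <|
      force (len st.bl) fun tot => grun X.Pr.lim tot
        (fun ln code => run X.Pr jm k code ⟨st.bl, st.kn, st.cov, st.fl, st.mx, st.wlow, true, ln⟩)
        st.bl [] 0 0 0 0) := rfl
    rw [e, band_eq, Bool.and_eq_true, force_eq, len_eq] at h
    obtain ⟨code, st', I', h'⟩ := gl_sound H I (K := run X.Pr jm k)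
      (fun a ha b hb => by simpa using allLt_spec _ _ (allLt_spec _ _ h.1 a ha) b hb) h.2
    exact ik _ _ I' h'
  | q7 h ms => intro key st I e; exact q7_sound H I e

lemma initL_cons (full m : ℕ) (l : List ℕ) (st : St) (c : St → Bool) : initL full (m :: l) st c =
    (decide (m ≤ full) && (!st.kn.testBit m &&
      addB st (bits 16 m) m (bits 16 m).length fun st' => initL full l st' c)) := by
  have e : initL full (m :: l) st c = (band (Nat.ble m full) <| band (bnot (bit st.kn m)) <|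
      force (len (bits 16 m)) fun s => addB st (bits 16 m) m s fun st' => initL full l st' c) := rfl
  rw [e]
  simp only [band_eq, ble_dec, bnot_eq, bit_eq, force_eq, len_eq]

lemma initL_le (full : ℕ) (l : List ℕ) : ∀ st c, initL full l st c = true → ∀ m ∈ l, m ≤ full := by
  induction l with
  | nil => simp
  | cons m l ih =>
    intro st c h
    rw [initL_cons, addB_eq] at h
    simp only [Bool.and_eq_true, decide_eq_true_eq] at h
    obtain ⟨f, hf⟩ := upd_ex (dl (bits 16 m).length) (wt (bits 16 m).length) st.fl m (fun fl' =>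
      initL full l ⟨m :: st.bl, st.kn ||| 2 ^ m, st.cov ||| orRow (orRow m 16 (bits 16 m)) 256 (bits 16 m),
        fl', st.mx, st.wlow, st.qf, st.ln⟩ c)
    intro u hu
    rcases List.mem_cons.1 hu with rfl | hu
    · exact h.1
    · exact ih _ _ (hf ▸ h.2.2) u hu

lemma initL_spec (H : Lab X z) (l : List ℕ) : ∀ (st : St) (c : St → Bool), Inv0 X z st.bl st.kn st.cov st.fl →
    (∀ m ∈ l, SS z m ∈ X.B) → initL X.Pr.full l st c = true →
    ∃ bl kn cov fl, Inv0 X z bl kn cov fl ∧ (∀ u, u ∈ bl ↔ u ∈ l ∨ u ∈ st.bl) ∧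
      c ⟨bl, kn, cov, fl, st.mx, st.wlow, st.qf, st.ln⟩ = true := by
  induction l with
  | nil => intro st c I _ h; exact ⟨_, _, _, _, I, by simp, h⟩
  | cons m l ih =>
    intro st c I hB h
    rw [initL_cons] at h
    simp only [Bool.and_eq_true, decide_eq_true_eq, Bool.not_eq_true'] at h
    obtain ⟨h1, h2, h3⟩ := h
    rw [X.le_full] at h1
    rw [len_bits (X.lt16 h1)] at h3
    obtain ⟨kn, cov, fl, I', h'⟩ := addB_spec H I h1 (hB m List.mem_cons_self)
      (fun hc => by rw [(I.kn m).2 hc] at h2; simp at h2) (bits_spec 16 m (X.lt16 h1)).2 h3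
    obtain ⟨bl, kn', cov', fl', I'', a1, a2⟩ := ih ⟨m :: st.bl, kn, cov, fl, st.mx, st.wlow, st.qf, st.ln⟩ c I'
      (fun u hu => hB u (List.mem_cons_of_mem _ hu)) h'
    refine ⟨bl, kn', cov', fl', I'', fun u => ?_, a2⟩
    rw [a1]; simp only [List.mem_cons]; tauto

lemma okE_sound {j : ℕ} (hR : ∀ i < j, Ref X i) {c : C} (h : okE X.Pr j c = true) : Ref X j := by
  refine ⟨fun m hm => X.le_full.1 (initL_le _ _ _ _ h m hm), fun z H h1 h2 h3 => ?_⟩
  obtain ⟨bl, kn, cov, fl, I, a1, a2⟩ := initL_spec H _ _ _ ⟨by simp, by simp, List.nodup_nil, by simp,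
    fun a _ b _ c => by simp [testBit_gcov], by rw [fl0_eq]; rfl⟩ h1 h
  refine run_sound H hR c 0 _ ⟨I, fun β hβ b0 b1 => h2 β hβ b0 (fun hc => b1 ?_), h3, by simp, by simp⟩ a2
  obtain ⟨m, hm, e⟩ := mem_Kn.1 hc
  exact mem_Kn.2 ⟨m, (a1 m).2 (Or.inl hm), e⟩

theorem okL_sound {hi : ℕ} (cs : List C) : ∀ lo, okL X.Pr hi cs lo = true → (∀ i < lo, Ref X i) →
    ∀ i < hi, Ref X i := by
  induction cs with
  | nil =>
    intro lo h hR
    have e : okL X.Pr hi [] lo = Nat.beq lo hi := rfl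
    rw [e, beq_dec, decide_eq_true_eq] at h
    exact h ▸ hR
  | cons c cs ih =>
    intro lo h hR
    have e : okL X.Pr hi (c :: cs) lo = band (okE X.Pr lo c) (force (Nat.succ lo) (okL X.Pr hi cs)) := rfl
    rw [e, band_eq, force_eq, Bool.and_eq_true] at h
    refine ih _ h.2 fun i hi' => ?_
    rcases Nat.lt_succ_iff_lt_or_eq.1 hi' with h1 | rfl
    · exact hR i h1
    · exact okE_sound hR h.1

/-- static part of the parameters -/
structure ParOK (Pr : Par) (rows : ℕ) : Prop where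
  n15 : Pr.n ≤ 15
  full : Pr.full = 2 ^ Pr.n - 1
  kt : Pr.kt = 64 * ((Pr.n - 1) * (Pr.n - 2)) + 19
  hrows : 128 * rows = 64 * ((Pr.n - 1) * (Pr.n - 2)) + 128
  t3 : tabOK Pr.n Pr.off Pr.kt 3 Pr.T3 rows = true
  t4 : tabOK Pr.n Pr.off Pr.kt 4 Pr.T4 rows = true
  t5 : tabOK Pr.n Pr.off Pr.kt 5 Pr.T5 rows = true
  pats : ∀ i, PatBad (Pr.pl.get i)

/-- all stored states below `j` are refuted, in every configuration -/
def AllRef (α : Type) [DecidableEq α] (Pr : Par) (j : ℕ) : Prop := ∀ X : Ctx α, X.Pr = Pr → ∀ i < j, Ref X i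

lemma AllRef.zero (Pr : Par) : AllRef α Pr 0 := fun _ _ _ h => absurd h (by simp)

lemma AllRef.step {Pr : Par} {lo hi : ℕ} {cs : List C} (h : okL Pr hi cs lo = true) (h' : AllRef α Pr lo) :
    AllRef α Pr hi := fun X e => okL_sound cs lo (e ▸ h) (h' X e)

theorem engine {Pr : Par} {rows j : ℕ} (hP : ParOK Pr rows) (hA : AllRef α Pr (j + 1))
    (hroot : Pr.hd.get j = ⟨[], 5, 0⟩) {P : Finset α} {B L : Finset (Finset α)} (G : Geo P B L)
    (hn : P.card = Pr.n) (h6 : ∀ β ∈ B, β.card ≤ 6) : Pr.lim < 60 * (B \ L).card := by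
  by_contra hc
  have h3 := G.big
  obtain ⟨p0, hp0, hmin⟩ := exists_min_image P (WW (B \ L)) (card_pos.1 (by omega))
  let X : Ctx α := ⟨Pr, rows, P, B, L, p0, G, hn, h6, not_lt.1 hc, hmin, hP.n15, hP.full, hP.kt, hP.hrows,
    hP.t3, hP.t4, hP.t5, hP.pats⟩
  have hR := (hA X rfl j (by omega)).2
  have hl : (p0 :: (P.erase p0).toList).length = Pr.n := by
    rw [List.length_cons, length_toList, card_erase_add_one hp0, hn]
  have hnd : (p0 :: (P.erase p0).toList).Nodup := List.nodup_cons.2 ⟨by simp, nodup_toList _⟩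
  have hm : ∀ p, p ∈ (p0 :: (P.erase p0).toList) ↔ p ∈ P := by
    intro p
    simp only [List.mem_cons, mem_toList, mem_erase]
    constructor
    · rintro (rfl | h)
      · exact hp0
      · exact h.2
    · intro h; by_cases e : p = p0
      · exact Or.inl e
      · exact Or.inr ⟨e, h⟩
  refine hR (fun i => (p0 :: (P.erase p0).toList).getD i p0) ⟨?_, ?_, ?_, rfl⟩ ?_ ?_ ?_
  · intro i hi j hj e
    change i < Pr.n at hi
    change j < Pr.n at hj
    simp only [List.getD_eq_getElem _ _ (hl ▸ hi), List.getD_eq_getElem _ _ (hl ▸ hj)] at e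
    exact (List.Nodup.getElem_inj_iff hnd).1 e
  · intro i hi
    change i < Pr.n at hi
    simp only [List.getD_eq_getElem _ _ (hl ▸ hi)]
    exact (hm _).1 (List.getElem_mem _)
  · intro p hp
    obtain ⟨i, hi, e⟩ := List.getElem_of_mem ((hm p).2 hp)
    exact ⟨i, hl ▸ hi, by simp only [List.getD_eq_getElem _ _ hi, e]⟩
  · change ∀ m ∈ (Pr.hd.get j).l, _
    rw [hroot]; simp
  · change ∀ β ∈ B, _ → _ → β.card ≤ (Pr.hd.get j).mx + 1
    rw [hroot]; exact fun β hβ _ _ => h6 β hβ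
  · change (Pr.hd.get j).wlow ≤ _
    rw [hroot]; exact Nat.zero_le _

/-- every entry of a tree satisfies a predicate -/
def BT.All {τ : Type} (q : τ → Prop) : BT τ → Prop
  | BT.leaf a => q a
  | BT.node l r => BT.All q l ∧ BT.All q r

lemma BT.All.get {τ : Type} {q : τ → Prop} {t : BT τ} (h : BT.All q t) : ∀ i, q (t.get i) := by
  induction t with
  | leaf a => intro i; exact h
  | node l r il ir =>
    intro i
    have e : (BT.node l r).get i = cnd (Nat.beq (Nat.land i 1) 0) (l.get (Nat.shiftRight i 1))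
      (r.get (Nat.shiftRight i 1)) := rfl
    rw [e, cnd_eq]
    split_ifs
    · exact il h.1 _
    · exact ir h.2 _

end Pool.Agent.MP_1f1ca1_co
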