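import Pool.Agent.MP_1f1ca1_co.Bits
import Pool.Agent.MP_1f1ca1_co.Melchior

/-! Soundness of the sign trees that refute the forbidden planar patterns. -/

set_option autoImplicit false

namespace Pool.Agent.MP_1f1ca1_co

def Rz (k : ℕ) (ls : List ℕ) (w : ℕ → V3) : Prop :=
  ∀ l ∈ ls, ∀ a < k, ∀ b < k, ∀ c < k, a ≠ b → l.testBit a = true → l.testBit b = true →
    (det3 (w a) (w b) (w c) = 0 ↔ l.testBit c = true)

def PatBad (p : Pat) : Prop :=
  p.k ≤ 16 ∧ (∀ l ∈ p.ls, l < 2 ^ p.k) ∧ ∀ w : ℕ → V3, ¬ Rz p.k p.ls w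

def PosI (w : ℕ → V3) (pos us : ℕ) : Prop :=
  ∀ a < 16, ∀ b < 16, ∀ c < 16, pos.testBit (code a b c) = true →
    0 < det3 (w a) (w b) (w c) ∧ us.testBit a = true ∧ us.testBit b = true ∧ us.testBit c = true

lemma det3_smul (r s t : ℝ) (a b c : V3) : det3 (r • a) (s • b) (t • c) = r * s * t * det3 a b c := by
  simp [det3]; ring

lemma gp (x a b c d : V3) :
    det3 x a b * det3 x c d + det3 x a c * det3 x d b + det3 x a d * det3 x b c = 0 := by
  simp only [det3]; ring

lemma testBit_or3 (a b c i : ℕ) : (or3 a b c).testBit i = true ↔ a = i ∨ b = i ∨ c = i := by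
  simp [or3, Nat.testBit_two_pow, or_assoc]

lemma isN_spec {k : ℕ} {ls : List ℕ} {w : ℕ → V3} (hw : Rz k ls w) {a b c : ℕ} (h : isN k ls a b c = true) :
    a < k ∧ b < k ∧ c < k ∧ a ≠ c ∧ b ≠ c ∧ det3 (w a) (w b) (w c) ≠ 0 := by
  simp only [isN, isN1, band_eq, bor_eq, blt_dec, ne_eq', Bool.and_eq_true, Bool.or_eq_true, decide_eq_true_eq,
    anyL_spec, bit_eq, bnot_eq, Bool.not_eq_true'] at h
  obtain ⟨ha, hb, hc, hab, hac, hbc, h⟩ := h
  refine ⟨ha, hb, hc, hac, hbc, fun h0 => ?_⟩
  rcases h with ⟨l, hl, h1, h2, h3⟩ | ⟨l, hl, h1, h2, h3⟩ | ⟨l, hl, h1, h2, h3⟩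
  · rw [(hw l hl a ha b hb c hc hab h1 h2).1 h0] at h3; simp at h3
  · rw [(hw l hl b hb c hc a ha hbc h1 h2).1 (by rw [det3_rot]; exact h0)] at h3; simp at h3
  · rw [(hw l hl c hc a ha b hb hac.symm h1 h2).1 (by rw [← det3_rot]; exact h0)] at h3; simp at h3

lemma isZ_spec {k : ℕ} {ls : List ℕ} {w : ℕ → V3} (hw : Rz k ls w) {a b c : ℕ} (ha : a < k) (hb : b < k)
    (hc : c < k) (h : isZ ls a b c = true) : det3 (w a) (w b) (w c) = 0 := by
  simp only [isZ, band_eq, ne_eq', Bool.and_eq_true, decide_eq_true_eq, force_eq, anyL_spec] at h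
  obtain ⟨hab, -, -, l, hl, h⟩ := h
  exact (hw l hl a ha b hb c hc hab (sub_spec h (by simp [testBit_or3])) (sub_spec h (by simp [testBit_or3]))).2
    (sub_spec h (by simp [testBit_or3]))

lemma prP_spec {w : ℕ → V3} {pos us : ℕ} (hp : PosI w pos us) {x a b c d : ℕ} (hx : x < 16) (ha : a < 16)
    (hb : b < 16) (hc : c < 16) (hd : d < 16) (h : prP pos x a b c d = true) :
    0 < det3 (w x) (w a) (w b) * det3 (w x) (w c) (w d) := by
  simp only [prP, bor_eq, band_eq, bit_eq, Bool.or_eq_true, Bool.and_eq_true] at h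
  rcases h with ⟨h1, h2⟩ | ⟨h1, h2⟩
  · exact mul_pos (hp x hx a ha b hb h1).1 (hp x hx c hc d hd h2).1
  · have a1 := (hp x hx b hb a ha h1).1
    have a2 := (hp x hx d hd c hc h2).1
    rw [det3_swap23] at a1 a2
    nlinarith

lemma prN_spec {k : ℕ} (hk : k ≤ 16) {ls : List ℕ} {w : ℕ → V3} (hw : Rz k ls w) {pos us : ℕ} (hp : PosI w pos us)
    {x a b c d : ℕ} (hx : x < k) (ha : a < k) (hb : b < k) (hc : c < k) (hd : d < k)
    (h : prN ls pos x a b c d = true) : 0 ≤ det3 (w x) (w a) (w b) * det3 (w x) (w c) (w d) := by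
  simp only [prN, bor_eq, Bool.or_eq_true] at h
  rcases h with h | h | h
  · exact (prP_spec hp (by omega) (by omega) (by omega) (by omega) (by omega) h).le
  · rw [isZ_spec hw hx ha hb h]; simp
  · rw [isZ_spec hw hx hc hd h]; simp

lemma PosI.set {w : ℕ → V3} {pos us : ℕ} (hp : PosI w pos us) {a b c : ℕ} (ha : a < 16) (hb : b < 16) (hc : c < 16)
    (h : 0 < det3 (w a) (w b) (w c)) {us' : ℕ} (hu : ∀ i, us.testBit i = true → us'.testBit i = true)
    (ua : us'.testBit a = true) (ub : us'.testBit b = true) (uc : us'.testBit c = true) :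
    PosI w (setP pos a b c) us' := by
  intro x hx y hy z hz hb'
  simp only [setP, lor_eq, one_eq, Nat.testBit_or, Nat.testBit_two_pow, Bool.or_eq_true, decide_eq_true_eq] at hb'
  rcases hb' with (h1 | h1) | h1 | h1
  · obtain ⟨a1, a2, a3, a4⟩ := hp x hx y hy z hz h1
    exact ⟨a1, hu _ a2, hu _ a3, hu _ a4⟩
  · simp only [code, Nat.add_eq, Nat.mul_eq] at h1
    obtain ⟨rfl, rfl, rfl⟩ : a = x ∧ b = y ∧ c = z := by omega
    exact ⟨h, ua, ub, uc⟩
  · simp only [code, Nat.add_eq, Nat.mul_eq] at h1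
    obtain ⟨rfl, rfl, rfl⟩ : b = x ∧ c = y ∧ a = z := by omega
    exact ⟨by rw [det3_rot]; exact h, ub, uc, ua⟩
  · simp only [code, Nat.add_eq, Nat.mul_eq] at h1
    obtain ⟨rfl, rfl, rfl⟩ : c = x ∧ a = y ∧ b = z := by omega
    exact ⟨by rw [← det3_rot]; exact h, uc, ua, ub⟩

lemma stOK_sound {k : ℕ} (hk : k ≤ 16) {ls : List ℕ} (t : ST) :
    ∀ (pos us : ℕ) (w : ℕ → V3), Rz k ls w → PosI w pos us → stOK k ls t pos us = true → False := by
  induction t with
  | leaf x a b c d =>
    intro pos us w hw hp h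
    have e : stOK k ls (ST.leaf x a b c d) pos us = (band (Nat.blt (Nat.lor (or3 x a b) (or3 x c d)) (one k)) <|
      band (prP pos x a b c d) <| band (prN ls pos x a c d b) (prN ls pos x a d b c)) := rfl
    rw [e] at h
    simp only [band_eq, blt_dec, lor_eq, one_eq, Bool.and_eq_true, decide_eq_true_eq] at h
    obtain ⟨h0, h1, h2, h3⟩ := h
    have hx : x < k := lt_of_bit h0 (by simp [testBit_or3])
    have ha : a < k := lt_of_bit h0 (by simp [testBit_or3])
    have hb : b < k := lt_of_bit h0 (by simp [testBit_or3])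
    have hc : c < k := lt_of_bit h0 (by simp [testBit_or3])
    have hd : d < k := lt_of_bit h0 (by simp [testBit_or3])
    have a1 := prP_spec hp (by omega) (by omega) (by omega) (by omega) (by omega) h1
    have a2 := prN_spec hk hw hp hx ha hc hd hb h2
    have a3 := prN_spec hk hw hp hx ha hd hb hc h3
    have := gp (w x) (w a) (w b) (w c) (w d)
    linarith
  | flip a b c t ih =>
    intro pos us w hw hp h
    have e : stOK k ls (ST.flip a b c t) pos us = (band (isN k ls a b c) <| band (bnot (bit us c)) <|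
      force (setP pos a b c) fun pos' => force (Nat.lor us (or3 a b c)) fun us' => stOK k ls t pos' us') := rfl
    rw [e] at h
    simp only [band_eq, force_eq, bnot_eq, bit_eq, Bool.and_eq_true, Bool.not_eq_true', lor_eq] at h
    obtain ⟨h1, h2, h3⟩ := h
    obtain ⟨ha, hb, hc, hac, hbc, hd⟩ := isN_spec hw h1
    have hu : ∀ i, us.testBit i = true → (us ||| or3 a b c).testBit i = true := fun i hi => by simp [hi]
    rcases lt_or_gt_of_ne hd with hd | hd
    · set ε : ℕ → ℝ := fun i => if i = c then -1 else 1 with hε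
      have hε0 : ∀ i, ε i ≠ 0 := fun i => by simp only [hε]; split_ifs <;> norm_num
      refine ih _ _ (fun i => ε i • w i) ?_ (PosI.set (us := us) ?_ (by omega) (by omega) (by omega) ?_ hu
        (by simp [testBit_or3]) (by simp [testBit_or3]) (by simp [testBit_or3])) h3
      · intro l hl x hx y hy z hz hxy b1 b2
        rw [det3_smul, ← hw l hl x hx y hy z hz hxy b1 b2]
        simp [hε0]
      · intro x hx y hy z hz hb'
        obtain ⟨a1, a2, a3, a4⟩ := hp x hx y hy z hz hb'
        refine ⟨?_, a2, a3, a4⟩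
        have n1 : x ≠ c := fun e => by rw [e, h2] at a2; simp at a2
        have n2 : y ≠ c := fun e => by rw [e, h2] at a3; simp at a3
        have n3 : z ≠ c := fun e => by rw [e, h2] at a4; simp at a4
        rw [det3_smul]; simpa [hε, n1, n2, n3] using a1
      · rw [det3_smul]; simpa [hε, hac, hbc] using hd
    · exact ih _ _ w hw (hp.set (by omega) (by omega) (by omega) hd hu
        (by simp [testBit_or3]) (by simp [testBit_or3]) (by simp [testBit_or3])) h3
  | br a b c t u iht ihu =>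
    intro pos us w hw hp h
    have e : stOK k ls (ST.br a b c t u) pos us = (band (isN k ls a b c) <| force (Nat.lor us (or3 a b c)) fun us' =>
      band (force (setP pos a b c) fun pos' => stOK k ls t pos' us')
        (force (setP pos b a c) fun pos' => stOK k ls u pos' us')) := rfl
    rw [e] at h
    simp only [band_eq, force_eq, Bool.and_eq_true, lor_eq] at h
    obtain ⟨h1, h2, h3⟩ := h
    obtain ⟨ha, hb, hc, hac, hbc, hd⟩ := isN_spec hw h1
    have hu : ∀ i, us.testBit i = true → (us ||| or3 a b c).testBit i = true := fun i hi => by simp [hi]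
    rcases lt_or_gt_of_ne hd with hd | hd
    · exact ihu _ _ w hw (hp.set (by omega) (by omega) (by omega) (by rw [det3_swap12]; linarith) hu
        (by simp [testBit_or3]) (by simp [testBit_or3]) (by simp [testBit_or3])) h3
    · exact iht _ _ w hw (hp.set (by omega) (by omega) (by omega) hd hu
        (by simp [testBit_or3]) (by simp [testBit_or3]) (by simp [testBit_or3])) h2

theorem patV_sound {p : Pat} {t : ST} (h : patV p t = true) : PatBad p := by
  simp only [patV, band_eq, ble_dec, Bool.and_eq_true, decide_eq_true_eq, allL_spec, blt_dec, one_eq] at h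
  exact ⟨h.1, h.2.1, fun w hw => stOK_sound h.1 t 0 0 w hw (fun a _ b _ c _ hb => by simp at hb) h.2.2⟩

end Pool.Agent.MP_1f1ca1_co
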