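import Pool.Agent.MP_1f1ca1_co.Blocks
import Pool.Agent.MP_1f1ca1_co.Large

/-! Configurations with few circles. -/

set_option autoImplicit false

namespace Pool.Agent.MP_1f1ca1_co
open Finset

def Adm (P : Finset Pt) : Prop :=
  ¬ Collinear ℝ (P : Set Pt) ∧ ¬ EuclideanGeometry.Cospherical (P : Set Pt)

noncomputable def wpt (k : ℕ) : Pt :=
  !₂[(-1) ^ k * ((((k / 2 : ℕ) : ℝ) + 2) ^ 2 - 1) / ((((k / 2 : ℕ) : ℝ) + 2) ^ 2 + 1),
     (-1) ^ k * (2 * (((k / 2 : ℕ) : ℝ) + 2)) / ((((k / 2 : ℕ) : ℝ) + 2) ^ 2 + 1)]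

lemma wpt_norm (k : ℕ) : wpt k 0 ^ 2 + wpt k 1 ^ 2 = 1 := by
  simp only [wpt, Matrix.cons_val_zero, Matrix.cons_val_one]
  have : ((-1 : ℝ) ^ k) ^ 2 = 1 := by rw [← pow_mul, mul_comm, pow_mul]; simp
  field_simp
  linear_combination ((((k / 2 : ℕ) : ℝ) + 2) ^ 2 + 1) ^ 2 * this

lemma wpt_inj : Function.Injective wpt := by
  intro k l h
  have h0 := congrArg (fun p : Pt => p 0) h
  simp only [wpt, Matrix.cons_val_zero] at h0
  have hk : (0 : ℝ) ≤ ((k / 2 : ℕ) : ℝ) := Nat.cast_nonneg _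
  have hl : (0 : ℝ) ≤ ((l / 2 : ℕ) : ℝ) := Nat.cast_nonneg _
  rw [div_eq_div_iff (by positivity) (by positivity)] at h0
  have pk : (0 : ℝ) < (((k / 2 : ℕ) : ℝ) + 2) ^ 2 - 1 := by nlinarith
  have pl : (0 : ℝ) < (((l / 2 : ℕ) : ℝ) + 2) ^ 2 - 1 := by nlinarith
  have q1 := mul_pos pk (show (0 : ℝ) < (((l / 2 : ℕ) : ℝ) + 2) ^ 2 + 1 by positivity)
  have q2 := mul_pos pl (show (0 : ℝ) < (((k / 2 : ℕ) : ℝ) + 2) ^ 2 + 1 by positivity)
  have key : (((k / 2 : ℕ) : ℝ) + 2) ^ 2 = (((l / 2 : ℕ) : ℝ) + 2) ^ 2 → k / 2 = l / 2 := by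
    intro e
    have := (sq_eq_sq₀ (by positivity) (by positivity)).1 e
    exact_mod_cast (add_right_cancel this)
  rcases Nat.even_or_odd k with ek | ek <;> rcases Nat.even_or_odd l with el | el <;>
    rw [ek.neg_one_pow, el.neg_one_pow] at h0
  · have := key (by linarith)
    obtain ⟨a, rfl⟩ := ek; obtain ⟨b, rfl⟩ := el; omega
  · exfalso; linarith
  · exfalso; linarith
  · have := key (by linarith)
    obtain ⟨a, rfl⟩ := ek; obtain ⟨b, rfl⟩ := el; omega

lemma wpt_anti (i : ℕ) : wpt (2 * i + 1) 0 = - wpt (2 * i) 0 ∧ wpt (2 * i + 1) 1 = - wpt (2 * i) 1 := by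
  have e1 : (2 * i + 1) / 2 = i := by omega
  have e2 : 2 * i / 2 = i := by omega
  simp only [wpt, Matrix.cons_val_zero, Matrix.cons_val_one, e1, e2, pow_succ, pow_mul]
  constructor <;> ring

theorem upper_gen (N : ℕ) (hN : 3 ≤ N) :
    ∃ P : Finset Pt, P.card = N + 1 ∧ Adm P ∧ (Bl P \ Ln P).card ≤ N.choose 2 + 1 - N / 2 := by
  set Q := (range N).image wpt with hQ
  have hQc : Q.card = N := by rw [hQ, card_image_of_injective _ wpt_inj, card_range]
  have hQn : ∀ p ∈ Q, p 0 ^ 2 + p 1 ^ 2 = 1 := by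
    intro p hp; obtain ⟨k, -, rfl⟩ := mem_image.1 hp; exact wpt_norm k
  have h0 : (0 : Pt) ∉ Q := fun h => by simpa using hQn 0 h
  have hw : ∀ k < N, wpt k ∈ Q := fun k hk => mem_image_of_mem _ (mem_range.2 hk)
  have hA : Adm (insert 0 Q) := by
    apply admissible_of (x := 0) (a := wpt 0) (b := wpt 1) (c := wpt 2) (by simp)
      (by simp [hw 0 (by omega)]) (by simp [hw 1 (by omega)]) (by simp [hw 2 (by omega)])
    simp [det3, vv, wpt]
    norm_num
  have hc : (insert 0 Q).card = N + 1 := by rw [card_insert_of_notMem h0, hQc]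
  refine ⟨insert 0 Q, hc, hA, ?_⟩
  have H := geo_of (P := insert 0 Q) (by omega) hA.1 hA.2
  have hQB : Q ∈ Bl (insert 0 Q) := by
    refine mem_Bl.2 ⟨by omega, ![1, 0, 0, -1], fun h => by simpa using congrFun h 0, fun p => ⟨fun hp =>
      ⟨mem_insert_of_mem hp, by simp [ev, hQn p hp]⟩, fun hp => ?_⟩⟩
    rcases mem_insert.1 hp.1 with rfl | h
    · simp [ev] at hp
    · exact h
  set A := (range (N / 2)).image (fun i => ({wpt (2 * i), wpt (2 * i + 1)} : Finset Pt)) with hA'
  have hAc : A.card = N / 2 := by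
    rw [hA', card_image_of_injOn, card_range]
    intro i _ j _ h
    have : wpt (2 * i) ∈ ({wpt (2 * j), wpt (2 * j + 1)} : Finset Pt) := by
      simp only at h; rw [← h]; simp
    rw [mem_insert, mem_singleton] at this
    rcases this with e | e <;> (have := wpt_inj e; omega)
  have hAs : A ⊆ powersetCard 2 Q := by
    intro s hs
    obtain ⟨i, hi, rfl⟩ := mem_image.1 hs
    rw [mem_range] at hi
    rw [mem_powersetCard]
    refine ⟨fun p hp => ?_, card_pair (fun e => by have := wpt_inj e; omega)⟩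
    rw [mem_insert, mem_singleton] at hp
    rcases hp with rfl | rfl <;> exact hw _ (by omega)
  have hsub : Bl (insert 0 Q) \ Ln (insert 0 Q) ⊆ insert Q ((powersetCard 2 Q \ A).image (insert 0)) := by
    intro β hβ
    rw [mem_sdiff] at hβ
    by_cases e : β = Q
    · rw [e]; exact mem_insert_self _ _
    have h2 := H.inter_le_two hβ.1 hQB e
    have h3 := H.three β hβ.1
    have h4 := H.sub β hβ.1
    have h5 : β ∩ Q = β.erase 0 := by
      ext p; rw [mem_inter, mem_erase]
      exact ⟨fun h => ⟨fun e => h0 (e ▸ h.2), h.1⟩, fun h => ⟨h.2, (mem_insert.1 (h4 h.2)).resolve_left h.1⟩⟩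
    have h6 : (0 : Pt) ∈ β := by
      by_contra hn
      rw [h5, erase_eq_of_notMem hn] at h2; omega
    have h7 := card_erase_add_one h6
    refine mem_insert_of_mem (mem_image.2 ⟨β.erase 0, mem_sdiff.2 ⟨mem_powersetCard.2 ⟨?_, ?_⟩, ?_⟩,
      insert_erase h6⟩)
    · rw [← h5]; exact inter_subset_right
    · rw [h5] at h2; omega
    · intro hs
      obtain ⟨i, -, hi⟩ := mem_image.1 hs
      apply hβ.2
      refine mem_Ln.2 ⟨hβ.1, ![0, wpt (2 * i) 1, - wpt (2 * i) 0, 0], fun h => ?_, by simp, fun p hp => ?_⟩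
      · have a1 : wpt (2 * i) 1 = 0 := by simpa using congrFun h 1
        have a2 : wpt (2 * i) 0 = 0 := by simpa using congrFun h 2
        have := wpt_norm (2 * i)
        rw [a1, a2] at this; simp at this
      · rw [← insert_erase h6, ← hi, mem_insert, mem_insert, mem_singleton] at hp
        rcases hp with rfl | rfl | rfl
        · simp [ev]
        · simp [ev]; ring
        · simp [ev, (wpt_anti i).1, (wpt_anti i).2]; ring
  have b1 := (card_le_card hsub).trans (card_insert_le _ _)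
  have b2 : ((powersetCard 2 Q \ A).image (insert 0)).card ≤ _ := card_image_le
  have b3 := card_sdiff_add_card_eq_card hAs
  rw [card_powersetCard, hQc, hAc] at b3
  omega

def dz (k : ℤ) (X Y : ℕ → ℤ) (x a b c : ℕ) : ℤ :=
  (X a - X x) * ((Y b - Y x) * ((X c - X x) ^ 2 + k * (Y c - Y x) ^ 2)
      - ((X b - X x) ^ 2 + k * (Y b - Y x) ^ 2) * (Y c - Y x))
  - (Y a - Y x) * ((X b - X x) * ((X c - X x) ^ 2 + k * (Y c - Y x) ^ 2)
      - ((X b - X x) ^ 2 + k * (Y b - Y x) ^ 2) * (X c - X x))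
  + ((X a - X x) ^ 2 + k * (Y a - Y x) ^ 2) * ((X b - X x) * (Y c - Y x) - (Y b - Y x) * (X c - X x))

def di (X Y : ℕ → ℤ) (x a b : ℕ) : ℤ := (X a - X x) * (Y b - Y x) - (Y a - Y x) * (X b - X x)

def smallOK (n : ℕ) (k : ℤ) (X Y : ℕ → ℤ) (T : List (List ℕ)) : Bool :=
  ((List.range n).all fun i => (List.range n).all fun j => decide (i = j) || decide (X i ≠ X j) || decide (Y i ≠ Y j)) &&
  ((List.range n).all fun x => (List.range n).all fun a => (List.range n).all fun b =>
    decide (di X Y x a b = 0) || decide ((List.range n).filter (fun c => decide (dz k X Y x a b c = 0)) ∈ T)) &&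
  decide (dz k X Y 0 1 2 (n - 1) ≠ 0)

theorem upper_small (n : ℕ) (hn : 4 ≤ n) (k : ℤ) (hk : 0 < k) (X Y : ℕ → ℤ) (T : List (List ℕ))
    (h : smallOK n k X Y T = true) :
    ∃ P : Finset Pt, P.card = n ∧ Adm P ∧ (Bl P \ Ln P).card ≤ T.length := by
  simp only [smallOK, Bool.and_eq_true, List.all_eq_true, List.mem_range, Bool.or_eq_true,
    decide_eq_true_eq] at h
  obtain ⟨⟨h1, h2⟩, h3⟩ := h
  set r := Real.sqrt k with hr
  have hr0 : r ≠ 0 := (Real.sqrt_pos.2 (by exact_mod_cast hk)).ne'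
  have hr2 : r ^ 2 = k := Real.sq_sqrt (by exact_mod_cast hk.le)
  set z : ℕ → Pt := fun i => !₂[(X i : ℝ), r * Y i] with hz
  have e1 : ∀ x a b c, det3 (vv (z x) (some (z a))) (vv (z x) (some (z b))) (vv (z x) (some (z c))) =
      r * dz k X Y x a b c := by
    intro x a b c
    simp only [det3, vv, hz, dz, Matrix.cons_val_zero, Matrix.cons_val_one, Matrix.cons_val]
    push_cast
    rw [← hr2]; ring
  have e2 : ∀ x a b, det3 (vv (z x) (some (z a))) (vv (z x) (some (z b))) (vv (z x) none) =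
      r * di X Y x a b := by
    intro x a b
    simp only [det3, vv, hz, di, Matrix.cons_val_zero, Matrix.cons_val_one, Matrix.cons_val]
    push_cast
    ring
  have hinj : Set.InjOn z (range n) := by
    intro i hi j hj e
    have a0 := congrArg (fun p : Pt => p 0) e
    have a1 := congrArg (fun p : Pt => p 1) e
    simp only [hz, Matrix.cons_val_zero, Matrix.cons_val_one, Int.cast_inj, mul_eq_mul_left_iff, hr0,
      or_false] at a0 a1
    rcases h1 i (by simpa using hi) j (by simpa using hj) with (h | h) | h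
    · exact h
    · exact absurd a0 h
    · exact absurd a1 h
  have hm : ∀ i < n, z i ∈ (range n).image z := fun i hi => mem_image_of_mem _ (mem_range.2 hi)
  have hA : Adm ((range n).image z) := by
    apply admissible_of (x := z 0) (a := z 1) (b := z 2) (c := z (n - 1)) (hm _ (by omega)) (hm _ (by omega))
      (hm _ (by omega)) (hm _ (by omega))
    rw [e1]; exact mul_ne_zero hr0 (by exact_mod_cast h3)
  refine ⟨(range n).image z, by rw [card_image_of_injOn hinj, card_range], hA, ?_⟩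
  have hsub : Bl ((range n).image z) \ Ln ((range n).image z) ⊆
      (T.map (fun l => (l.map z).toFinset)).toFinset := by
    intro β hβ
    rw [mem_sdiff] at hβ
    obtain ⟨b3, φ, -, hφ⟩ := mem_Bl.1 hβ.1
    obtain ⟨x, a, b, hx, ha, hb, hxa, hxb, hab⟩ := two_lt_card_iff.1 (show 2 < β.card from b3)
    obtain ⟨i, hi, rfl⟩ := mem_image.1 ((hφ x).1 hx).1
    obtain ⟨j, hj, rfl⟩ := mem_image.1 ((hφ a).1 ha).1
    obtain ⟨l, hl, rfl⟩ := mem_image.1 ((hφ b).1 hb).1
    have V := fun c hc => vec_iff hβ.1 hx (a := some (z j)) (b := some (z l)) (c := c) (by simp [hxa.symm, ha])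
      (by simp [hxb.symm, hb]) (by simpa using hab) hc
    rcases h2 i (by simpa using hi) j (by simpa using hj) l (by simpa using hl) with h | h
    · exfalso
      apply hβ.2
      have := (V none (by simp)).1 (by rw [e2, h]; simp)
      simpa using this
    · rw [List.mem_toFinset, List.mem_map]
      refine ⟨_, h, ?_⟩
      ext p
      simp only [List.mem_toFinset, List.mem_map, List.mem_filter, List.mem_range, decide_eq_true_eq]
      constructor
      · rintro ⟨c, ⟨hc, hd⟩, rfl⟩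
        by_cases e : z c = z i
        · rw [e]; exact hx
        · have := (V (some (z c)) (by simp only [some_mem_Qx]; exact ⟨e, hm c hc⟩)).1 (by rw [e1, hd]; simp)
          exact ((some_mem_Ex _ _ _ _).1 this).2
      · intro hp
        obtain ⟨c, hc, rfl⟩ := mem_image.1 ((hφ p).1 hp).1
        refine ⟨c, ⟨by simpa using hc, ?_⟩, rfl⟩
        have := det_of_mem hβ.1 hx ha hb hp
        rw [e1] at this
        exact_mod_cast (mul_eq_zero.1 this).resolve_left hr0
  exact (card_le_card hsub).trans ((List.toFinset_card_le _).trans (by simp))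

theorem upper (n : ℕ) (hn : 4 ≤ n) :
    ∃ P : Finset Pt, P.card = n ∧ Adm P ∧ (Bl P \ Ln P).card ≤ tgt n := by
  unfold tgt
  split_ifs with h6 h7 h8
  · subst h6
    exact upper_small 6 (by norm_num) 1 (by norm_num) (fun i => [0, -4, 6, 0, -3, 4].getD i 0)
      (fun i => [2, 0, 0, 0, 3, 4].getD i 0)
      [[0, 1, 2], [0, 1, 3, 4], [0, 2, 3, 5], [0, 4, 5], [1, 2, 4, 5], [1, 3, 5], [2, 3, 4], [3, 4, 5]]
      (by decide +kernel)
  · subst h7
    exact upper_small 7 (by norm_num) 1 (by norm_num) (fun i => [0, -4, 6, 0, 0, -3, 4].getD i 0)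
      (fun i => [2, 0, 0, 12, 0, 3, 4].getD i 0)
      [[0, 1, 2], [0, 1, 3], [0, 1, 4, 5], [0, 2, 3], [0, 2, 4, 6], [0, 3, 5, 6], [1, 2, 3], [1, 2, 5, 6],
        [1, 3, 4, 6], [2, 3, 4, 5], [4, 5, 6]]
      (by decide +kernel)
  · subst h8
    exact upper_small 8 (by norm_num) 3 (by norm_num)
      (fun i => [819, -156, 819, -756, 819, -156, 819, -756].getD i 0)
      (fun i => [455, 260, 1365, 420, -455, -260, -1365, -420].getD i 0)
      [[0, 1, 2, 3], [0, 1, 4, 5], [0, 1, 6, 7], [0, 2, 5, 7], [0, 3, 4, 7], [0, 3, 5], [0, 3, 6], [0, 5, 6],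
        [1, 2, 4], [1, 2, 5, 6], [1, 3, 4, 6], [1, 3, 5, 7], [1, 4, 7], [2, 3, 4, 5], [2, 3, 6, 7], [2, 4, 7],
        [4, 5, 6, 7]]
      (by decide +kernel)
  · obtain ⟨N, rfl⟩ : ∃ N, n = N + 1 := ⟨n - 1, by omega⟩
    exact upper_gen N (by omega)

end Pool.Agent.MP_1f1ca1_co
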